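import Pool.Agent.TE25.Defs
import Pool.Agent.TD25.Arc

/-!
# TE25/ArcP: the arc of a unit circle in another unit disk

`polar2`: `b - pt h α = pt ρ t` (`exists_pt`), `0 ≤ ρ ≤ 2`; `τ = arccos (ρ / 2) ∈ [0, π/2]`, `s = t - α` (reduced modulo `2π` to `[-π, π]`).
`arc_pt`: `‖pt 1 (α + σ) - pt (2 cos τ) (α + s)‖^2 = 1 + 4 cos^2 τ - 4 cos τ cos (σ - s)` (`norm_pt_sub_sq`), so it is `≤ 1` iff
`cos τ (cos τ - cos (σ - s)) ≤ 0`.
`arc_lt`, `arc_le`: `cos τ > 0` or (`< 1`) `cos τ ≠ 0`; `cos τ < cos x` (`0 ≤ τ ≤ π`) iff `|x - 2πk| < τ` for some `k`; the same with `≤`.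
-/

set_option autoImplicit false

namespace Pool.Agent.TE25

open Real Pool.Agent.TD25

private theorem red' (x : ℝ) : |x - 2 * π * (round (x / (2 * π)) : ℤ)| ≤ π := by
  have hpi := Real.pi_pos
  have h := abs_sub_round (x / (2 * π))
  have e : x - 2 * π * (round (x / (2 * π)) : ℤ) =
      (2 * π) * (x / (2 * π) - (round (x / (2 * π)) : ℤ)) := by
    field_simp
  rw [e, abs_mul, abs_of_pos (by positivity)]
  nlinarith

private theorem cos_red' (x : ℝ) (k : ℤ) : cos |x - 2 * π * k| = cos x := by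
  rw [cos_abs, show x - 2 * π * k = x - k * (2 * π) by ring, cos_sub_int_mul_two_pi]

theorem polar2 {h α : ℝ} {b : ℂ} (hb : ‖b - pt h α‖ ≤ 2) :
    ∃ s τ : ℝ, -π ≤ s ∧ s ≤ π ∧ 0 ≤ τ ∧ τ ≤ π / 2 ∧ b = pt h α + pt (2 * cos τ) (α + s) ∧ ‖b - pt h α‖ = 2 * cos τ := by
  obtain ⟨t, ht⟩ := exists_pt (b - pt h α)
  set ρ := ‖b - pt h α‖ with hρ
  have hρ0 : 0 ≤ ρ := norm_nonneg _
  have hc : cos (arccos (ρ / 2)) = ρ / 2 := cos_arccos (by linarith) (by linarith)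
  have hr := red' (t - α)
  rw [abs_le] at hr
  refine ⟨t - α - 2 * π * (round ((t - α) / (2 * π)) : ℤ), arccos (ρ / 2), hr.1, hr.2, arccos_nonneg _,
    arccos_le_pi_div_two.2 (by linarith), ?_, ?_⟩
  · rw [hc, show 2 * (ρ / 2) = ρ by ring]
    have h1 : α + (t - α - 2 * π * (round ((t - α) / (2 * π)) : ℤ)) =
        t + 2 * π * ((-(round ((t - α) / (2 * π))) : ℤ) : ℝ) := by
      push_cast
      ring
    rw [h1, pt_add_two_pi, ← ht]
    ring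
  · rw [hc]
    ring

private theorem arc_pt {h α s τ σ : ℝ} {b : ℂ} (hb : b = pt h α + pt (2 * cos τ) (α + s)) :
    ‖pt h α + pt 1 (α + σ) - b‖ ^ 2 = 1 + 4 * cos τ * (cos τ - cos (σ - s)) := by
  have h1 : pt h α + pt 1 (α + σ) - b = pt 1 (α + σ) - pt (2 * cos τ) (α + s) := by
    rw [hb]
    ring
  rw [h1, norm_pt_sub_sq, show α + σ - (α + s) = σ - s by ring]
  ring

theorem arc_lt {h α s τ σ : ℝ} {b : ℂ} (t0 : 0 ≤ τ) (t1 : τ ≤ π / 2) (hb : b = pt h α + pt (2 * cos τ) (α + s))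
    (hx : ‖pt h α + pt 1 (α + σ) - b‖ < 1) : ∃ k : ℤ, |σ - s - 2 * π * k| < τ := by
  have h1 := arc_pt (σ := σ) hb
  have h2 : 0 ≤ ‖pt h α + pt 1 (α + σ) - b‖ := norm_nonneg _
  have h3 : ‖pt h α + pt 1 (α + σ) - b‖ ^ 2 < 1 := by nlinarith
  have hc : 0 ≤ cos τ := cos_nonneg_of_neg_pi_div_two_le_of_le (by linarith) t1
  have h4 : cos τ * (cos τ - cos (σ - s)) < 0 := by linarith
  have h5 : cos τ < cos (σ - s) := by
    by_contra hcon
    push Not at hcon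
    have := mul_nonneg hc (sub_nonneg.2 hcon)
    linarith
  refine ⟨round ((σ - s) / (2 * π)), ?_⟩
  by_contra hcon
  push Not at hcon
  have h6 := cos_le_cos_of_nonneg_of_le_pi t0 (red' (σ - s)) hcon
  rw [cos_red'] at h6
  linarith

theorem arc_le {h α s τ σ : ℝ} {b : ℂ} (t0 : 0 ≤ τ) (t1 : τ < π / 2) (hb : b = pt h α + pt (2 * cos τ) (α + s))
    (hx : ‖pt h α + pt 1 (α + σ) - b‖ ≤ 1) : ∃ k : ℤ, |σ - s - 2 * π * k| ≤ τ := by
  have h1 := arc_pt (σ := σ) hb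
  have h2 : 0 ≤ ‖pt h α + pt 1 (α + σ) - b‖ := norm_nonneg _
  have h3 : ‖pt h α + pt 1 (α + σ) - b‖ ^ 2 ≤ 1 := by nlinarith
  have hc : 0 < cos τ := cos_pos_of_mem_Ioo ⟨by linarith [Real.pi_pos], t1⟩
  have h4 : cos τ * (cos τ - cos (σ - s)) ≤ 0 := by linarith
  have h5 : cos τ ≤ cos (σ - s) := by
    by_contra hcon
    push Not at hcon
    have := mul_pos hc (sub_pos.2 hcon)
    linarith
  refine ⟨round ((σ - s) / (2 * π)), ?_⟩
  by_contra hcon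
  push Not at hcon
  have h6 := cos_lt_cos_of_nonneg_of_le_pi t0 (red' (σ - s)) hcon
  rw [cos_red'] at h6
  linarith

/-- Conversely. -/
theorem arc_mem {h α s τ σ : ℝ} {b : ℂ} (t0 : 0 ≤ τ) (t1 : τ ≤ π / 2) (hb : b = pt h α + pt (2 * cos τ) (α + s))
    (hx : |σ - s| ≤ τ) : ‖pt h α + pt 1 (α + σ) - b‖ ≤ 1 := by
  have h1 := arc_pt (σ := σ) hb
  have h2 : 0 ≤ ‖pt h α + pt 1 (α + σ) - b‖ := norm_nonneg _
  have hc : 0 ≤ cos τ := cos_nonneg_of_neg_pi_div_two_le_of_le (by linarith) t1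
  have h5 : cos τ ≤ cos (σ - s) := by
    rw [← cos_abs (σ - s)]
    exact cos_le_cos_of_nonneg_of_le_pi (abs_nonneg _) (by linarith [Real.pi_pos]) hx
  have h6 := mul_nonneg hc (sub_nonneg.2 h5)
  by_contra hcon
  push Not at hcon
  nlinarith

end Pool.Agent.TE25
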