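import Pool.Agent.TE25.Defs
import Pool.Agent.TD25.Arc

/-!
# TE25/Rad: the radial function of a unit circle around 0

`0 ≤ h < 1`. Put `x = h sin δ`, `|x| ≤ h < 1`, `w = √(1 - x^2) > 0`.
(1) `rd_pos`: `w > |h cos δ|` because `w^2 - h^2 cos^2 δ = 1 - h^2 > 0`.
(2) `bp_eq`: with `ε = arcsin x`, `sin ε = x`, `cos ε = w` (`Real.cos_arcsin`), `δ = θ - α`:
`pt 1 (δ + ε) = e^{iδ} (w + i x)` and `e^{iδ} (w + i h sin δ) + h = e^{iδ} (w + h cos δ)` since `h = e^{iδ} h (cos δ - i sin δ)`.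
Multiply by `e^{iα}`.
(3) `bp_in_iff`: `‖pt r θ - pt h α‖^2 = r^2 + h^2 - 2 r h cos δ` (`norm_pt_sub_sq`) `= (r - h cos δ)^2 + x^2`, so it is `< 1` iff
`|r - h cos δ| < w` iff `r < h cos δ + w` (the other side is automatic for `r ≥ 0`, as `h cos δ - w < 0`).
(4) `rd_anti`: from (3) or by the derivative: for `0 ≤ δ1 ≤ δ2 ≤ π` and `r = rd h δ2` we have `r^2 + h^2 - 2 r h cos δ2 = 1`, hence
`r^2 + h^2 - 2 r h cos δ1 ≤ 1` and `r ≤ rd h δ1` by (3).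
-/

set_option autoImplicit false

namespace Pool.Agent.TE25

open Real Pool.Agent.TD25

private theorem pt_re' (r t : ℝ) : (pt r t).re = r * cos t := by
  unfold pt
  rw [Complex.re_ofReal_mul, Complex.exp_ofReal_mul_I_re]

private theorem pt_im' (r t : ℝ) : (pt r t).im = r * sin t := by
  unfold pt
  rw [Complex.im_ofReal_mul, Complex.exp_ofReal_mul_I_im]

private theorem hs_sq {h : ℝ} (h0 : 0 ≤ h) (h1 : h < 1) (δ : ℝ) : (h * sin δ) ^ 2 < 1 := by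
  have h2 : sin δ ^ 2 ≤ 1 := sin_sq_le_one δ
  have h3 : h ^ 2 < 1 := by nlinarith
  calc (h * sin δ) ^ 2 = h ^ 2 * sin δ ^ 2 := by ring
    _ ≤ h ^ 2 * 1 := mul_le_mul_of_nonneg_left h2 (sq_nonneg h)
    _ < 1 := by linarith

private theorem w_sq {h : ℝ} (h0 : 0 ≤ h) (h1 : h < 1) (δ : ℝ) :
    √(1 - (h * sin δ) ^ 2) ^ 2 = 1 - (h * sin δ) ^ 2 :=
  sq_sqrt (by linarith [hs_sq h0 h1 δ])

private theorem w_pos {h : ℝ} (h0 : 0 ≤ h) (h1 : h < 1) (δ : ℝ) :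
    0 < √(1 - (h * sin δ) ^ 2) :=
  sqrt_pos.2 (by linarith [hs_sq h0 h1 δ])

private theorem w_gt {h : ℝ} (h0 : 0 ≤ h) (h1 : h < 1) (δ : ℝ) :
    |h * cos δ| < √(1 - (h * sin δ) ^ 2) := by
  apply abs_lt_of_sq_lt_sq _ (w_pos h0 h1 δ).le
  rw [w_sq h0 h1]
  have h2 : (h * cos δ) ^ 2 + (h * sin δ) ^ 2 = h ^ 2 := by
    have := sin_sq_add_cos_sq δ
    linear_combination h ^ 2 * this
  nlinarith

theorem rd_pos {h δ : ℝ} (h0 : 0 ≤ h) (h1 : h < 1) : 0 < rd h δ := by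
  unfold rd
  have h2 := w_gt h0 h1 δ
  have h3 := neg_abs_le (h * cos δ)
  linarith

private theorem sin_eps {h : ℝ} (h0 : 0 ≤ h) (h1 : h < 1) (δ : ℝ) :
    sin (arcsin (h * sin δ)) = h * sin δ := by
  have h2 := abs_lt.1 ((sq_lt_one_iff_abs_lt_one _).1 (hs_sq h0 h1 δ))
  exact sin_arcsin h2.1.le h2.2.le

theorem bp_eq {h : ℝ} (h0 : 0 ≤ h) (h1 : h < 1) (α θ : ℝ) : bp h α θ = pt h α + pt 1 (α + sg h (θ - α)) := by
  have hs := sin_eps h0 h1 (θ - α)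
  have hc : cos (arcsin (h * sin (θ - α))) = √(1 - (h * sin (θ - α)) ^ 2) := cos_arcsin _
  have e : α + sg h (θ - α) = θ + arcsin (h * sin (θ - α)) := by
    unfold sg
    ring
  have e2 : cos α = cos θ * cos (θ - α) + sin θ * sin (θ - α) := by
    rw [← cos_sub]
    congr 1
    ring
  have e3 : sin α = sin θ * cos (θ - α) - cos θ * sin (θ - α) := by
    rw [← sin_sub]
    congr 1
    ring
  rw [e]
  unfold bp rd
  apply Complex.ext
  · rw [Complex.add_re, pt_re', pt_re', pt_re', cos_add, hs, hc, e2]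
    ring
  · rw [Complex.add_im, pt_im', pt_im', pt_im', sin_add, hs, hc, e3]
    ring

theorem norm_bp {h : ℝ} (h0 : 0 ≤ h) (h1 : h < 1) (α θ : ℝ) : ‖bp h α θ‖ = rd h (θ - α) :=
  norm_pt (rd_pos h0 h1).le

/-- The squared norm in terms of the normal angle. -/
theorem rd_sq {h : ℝ} (h0 : 0 ≤ h) (h1 : h < 1) (δ : ℝ) : rd h δ ^ 2 = 1 + h ^ 2 + 2 * h * cos (sg h δ) := by
  have hs := sin_eps h0 h1 δ
  have hc : cos (arcsin (h * sin δ)) = √(1 - (h * sin δ) ^ 2) := cos_arcsin _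
  have hw := w_sq h0 h1 δ
  unfold rd sg
  rw [cos_add, hs, hc]
  have h2 := sin_sq_add_cos_sq δ
  linear_combination hw + h ^ 2 * h2

private theorem key_sq (r h θ α : ℝ) :
    ‖pt r θ - pt h α‖ ^ 2 = (r - h * cos (θ - α)) ^ 2 + (h * sin (θ - α)) ^ 2 := by
  rw [norm_pt_sub_sq]
  have h2 := sin_sq_add_cos_sq (θ - α)
  linear_combination (-h ^ 2) * h2

theorem bp_in_iff {h : ℝ} (h0 : 0 ≤ h) (h1 : h < 1) {r θ α : ℝ} (hr : 0 ≤ r) :
    ‖pt r θ - pt h α‖ < 1 ↔ r < rd h (θ - α) := by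
  have hk := key_sq r h θ α
  have hw := w_sq h0 h1 (θ - α)
  have hwp := w_pos h0 h1 (θ - α)
  have hwg := w_gt h0 h1 (θ - α)
  have hle := le_abs_self (h * cos (θ - α))
  unfold rd
  constructor
  · intro h2
    have h3 : ‖pt r θ - pt h α‖ ^ 2 < 1 := by
      have := norm_nonneg (pt r θ - pt h α)
      nlinarith
    have h4 : (r - h * cos (θ - α)) ^ 2 < √(1 - (h * sin (θ - α)) ^ 2) ^ 2 := by
      rw [hw]
      linarith
    have h5 := abs_lt_of_sq_lt_sq h4 hwp.le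
    linarith [(abs_lt.1 h5).2]
  · intro h2
    have h5 : |r - h * cos (θ - α)| < √(1 - (h * sin (θ - α)) ^ 2) := by
      rw [abs_lt]
      constructor <;> linarith
    have h4 : (r - h * cos (θ - α)) ^ 2 < √(1 - (h * sin (θ - α)) ^ 2) ^ 2 := by
      rw [← sq_abs (r - h * cos (θ - α))]
      have := abs_nonneg (r - h * cos (θ - α))
      nlinarith
    rw [hw] at h4
    have h3 : ‖pt r θ - pt h α‖ ^ 2 < 1 ^ 2 := by
      rw [hk]
      linarith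
    exact lt_of_pow_lt_pow_left₀ 2 zero_le_one h3

theorem bp_in_iff_le {h : ℝ} (h0 : 0 ≤ h) (h1 : h < 1) {r θ α : ℝ} (hr : 0 ≤ r) :
    ‖pt r θ - pt h α‖ ≤ 1 ↔ r ≤ rd h (θ - α) := by
  have hk := key_sq r h θ α
  have hw := w_sq h0 h1 (θ - α)
  have hwp := w_pos h0 h1 (θ - α)
  have hwg := w_gt h0 h1 (θ - α)
  have hle := le_abs_self (h * cos (θ - α))
  unfold rd
  constructor
  · intro h2
    have h3 : ‖pt r θ - pt h α‖ ^ 2 ≤ 1 := by
      have := norm_nonneg (pt r θ - pt h α)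
      nlinarith
    have h4 : (r - h * cos (θ - α)) ^ 2 ≤ √(1 - (h * sin (θ - α)) ^ 2) ^ 2 := by
      rw [hw]
      linarith
    have h5 := abs_le_of_sq_le_sq h4 hwp.le
    linarith [(abs_le.1 h5).2]
  · intro h2
    have h5 : |r - h * cos (θ - α)| ≤ √(1 - (h * sin (θ - α)) ^ 2) := by
      rw [abs_le]
      constructor <;> linarith
    have h4 : (r - h * cos (θ - α)) ^ 2 ≤ √(1 - (h * sin (θ - α)) ^ 2) ^ 2 := by
      rw [← sq_abs (r - h * cos (θ - α))]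
      have := abs_nonneg (r - h * cos (θ - α))
      nlinarith
    rw [hw] at h4
    have h3 : ‖pt r θ - pt h α‖ ^ 2 ≤ 1 ^ 2 := by
      rw [hk]
      linarith
    exact le_of_sq_le_sq h3 zero_le_one

theorem bp_norm_sub {h : ℝ} (h0 : 0 ≤ h) (h1 : h < 1) (α θ : ℝ) : ‖bp h α θ - pt h α‖ = 1 := by
  rw [bp_eq h0 h1, add_sub_cancel_left, norm_pt zero_le_one]

theorem rd_neg (h δ : ℝ) : rd h (-δ) = rd h δ := by
  unfold rd
  rw [cos_neg, sin_neg]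
  congr 2
  ring

theorem rd_add (h δ : ℝ) (k : ℤ) : rd h (δ + 2 * π * k) = rd h δ := by
  unfold rd
  rw [show δ + 2 * π * k = δ + k * (2 * π) by ring, cos_add_int_mul_two_pi, sin_add_int_mul_two_pi]

theorem bp_add (h α θ : ℝ) (k : ℤ) : bp h α (θ + 2 * π * k) = bp h α θ := by
  unfold bp
  rw [pt_add_two_pi, show θ + 2 * π * k - α = (θ - α) + 2 * π * k by ring, rd_add]

theorem bp_add' (h α θ : ℝ) (k : ℤ) : bp h (α + 2 * π * k) θ = bp h α θ := by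
  unfold bp
  have e : θ - (α + 2 * π * k) = (θ - α) + 2 * π * ((-k : ℤ) : ℝ) := by
    push_cast
    ring
  rw [e, rd_add]

theorem rd_zero {h : ℝ} : rd h 0 = 1 + h := by
  unfold rd
  rw [cos_zero, sin_zero]
  norm_num
  ring

theorem rd_pi {h : ℝ} : rd h π = 1 - h := by
  unfold rd
  rw [cos_pi, sin_pi]
  norm_num
  ring

theorem rd_le {h : ℝ} (h0 : 0 ≤ h) (h1 : h < 1) (δ : ℝ) : rd h δ ≤ 1 + h := by
  unfold rd
  have h2 : √(1 - (h * sin δ) ^ 2) ≤ 1 := by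
    rw [sqrt_le_one]
    nlinarith [sq_nonneg (h * sin δ)]
  have h3 : h * cos δ ≤ h := by
    have := cos_le_one δ
    nlinarith
  linarith

theorem rd_ge {h : ℝ} (h0 : 0 ≤ h) (h1 : h < 1) (δ : ℝ) : 1 - h ≤ rd h δ := by
  have h2 := rd_sq h0 h1 δ
  have h3 := rd_pos (δ := δ) h0 h1
  have h4 := neg_one_le_cos (sg h δ)
  have h5 : (1 - h) ^ 2 ≤ rd h δ ^ 2 := by
    rw [h2]
    nlinarith
  exact (abs_le.1 (abs_le_of_sq_le_sq h5 h3.le)).2

theorem rd_cont (h : ℝ) : Continuous (rd h) := by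
  unfold rd
  fun_prop

theorem bp_cont (h α : ℝ) : Continuous (bp h α) := by
  have h1 := rd_cont h
  unfold bp pt
  fun_prop

theorem rd_anti {h : ℝ} (h0 : 0 ≤ h) (h1 : h < 1) {δ1 δ2 : ℝ} (h2 : 0 ≤ δ1) (h3 : δ1 ≤ δ2) (h4 : δ2 ≤ π) :
    rd h δ2 ≤ rd h δ1 := by
  have hc : cos δ2 ≤ cos δ1 := cos_le_cos_of_nonneg_of_le_pi h2 h4 h3
  have hp := rd_pos (δ := δ2) h0 h1
  have e1 := norm_pt_sub_sq (rd h δ2) δ2 h 0
  have e2 := norm_pt_sub_sq (rd h δ2) δ1 h 0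
  have h5 : ‖pt (rd h δ2) δ2 - pt h 0‖ ≤ 1 := by
    rw [bp_in_iff_le h0 h1 hp.le, sub_zero]
  have h6 : ‖pt (rd h δ2) δ1 - pt h 0‖ ≤ 1 := by
    have h7 : ‖pt (rd h δ2) δ2 - pt h 0‖ ^ 2 ≤ 1 := by
      have := norm_nonneg (pt (rd h δ2) δ2 - pt h 0)
      nlinarith
    have h8 : ‖pt (rd h δ2) δ1 - pt h 0‖ ^ 2 ≤ 1 ^ 2 := by
      rw [e2]
      rw [e1] at h7
      rw [sub_zero] at h7 ⊢
      have h9 : 0 ≤ 2 * rd h δ2 * h := by positivity
      nlinarith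
    exact le_of_sq_le_sq h8 zero_le_one
  have h7 := (bp_in_iff_le h0 h1 hp.le).1 h6
  rwa [sub_zero] at h7

end Pool.Agent.TE25
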