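import Pool.Agent.TE25.Defs
import Pool.Agent.TD25.Dir

/-!
# TE25/ShB: basic facts on the shadow `Sh b` of a unit disk

`Sh_convex`: `t x, s y` in the closed disk `B` (convex): for `0 ≤ λ ≤ 1` put `z = (1-λ) x + λ y`. If `t, s > 0` (as `‖b‖ > 1`) let
`ρ = (1-λ)/t + λ/s ≥ 1`; then `z / ρ` is the convex combination of `t x`, `s y` with weights `(1-λ)/(t ρ)`, `λ/(s ρ)`, so in `B`, and
`1/ρ ≤ 1`.
`Sh_closed`: the set is the image under the second projection of the closed set `{(t, x) | t ∈ [0,1], ‖t x - b‖ ≤ 1}`, `[0,1]` compact.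
`Sh_beyond`: `0 < t < 1`, `‖t x - b‖ ≤ 1 < ‖x - b‖`. With `p = Re (x conj b)`: `t^2 ‖x‖^2 - 2 t p + ‖b‖^2 ≤ 1`, `‖x‖^2 - 2 p + ‖b‖^2 > 1`. Subtract
`t` times the second from the first: `t (t - 1) ‖x‖^2 + (1 - t) ‖b‖^2 < 1 - t`, so `‖b‖^2 - 1 < t ‖x‖^2 ≤ ‖x‖^2`.
`Sh_dir`: `lift_ball` for `t x` (`x ≠ 0`; `t x = pt (t ‖x‖) θ` gives `x = pt ‖x‖ θ`).
-/

set_option autoImplicit false

namespace Pool.Agent.TE25

open Real Pool.Agent.TD25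

theorem Sh_of_ball {b x : ℂ} (h : ‖x - b‖ ≤ 1) : Sh b x :=
  ⟨1, zero_le_one, le_rfl, by rwa [Complex.ofReal_one, one_mul]⟩

theorem Sh_scale {b x : ℂ} {s : ℝ} (hs : 1 ≤ s) (h : Sh b x) : Sh b ((s : ℂ) * x) := by
  obtain ⟨t, h0, h1, h2⟩ := h
  have hs0 : 0 < s := by linarith
  refine ⟨t / s, by positivity, ?_, ?_⟩
  · rw [div_le_one hs0]
    linarith
  · have e : ((t / s : ℝ) : ℂ) * ((s : ℂ) * x) = (t : ℂ) * x := by
      have hs' : (s : ℂ) ≠ 0 := by exact_mod_cast hs0.ne'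
      push_cast
      field_simp
    rwa [e]

theorem Sh_norm {b x : ℂ} (hb : 1 < ‖b‖) (h : Sh b x) : ‖b‖ - 1 ≤ ‖x‖ := by
  obtain ⟨t, h0, h1, h2⟩ := h
  have h3 := norm_sub_norm_le b ((t : ℂ) * x)
  rw [norm_sub_rev, norm_mul, Complex.norm_real, Real.norm_of_nonneg h0] at h3
  have h4 := norm_nonneg x
  nlinarith

private theorem t_pos {b x : ℂ} (hb : 1 < ‖b‖) {t : ℝ} (h0 : 0 ≤ t)
    (h2 : ‖(t : ℂ) * x - b‖ ≤ 1) : 0 < t := by
  rcases h0.lt_or_eq with h | h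
  · exact h
  · exfalso
    rw [← h, Complex.ofReal_zero, zero_mul, zero_sub, norm_neg] at h2
    linarith

theorem Sh_convex {b : ℂ} (hb : 1 < ‖b‖) : Convex ℝ {x : ℂ | Sh b x} := by
  intro x hx y hy a c ha hc hac
  obtain ⟨t, h0, h1, h2⟩ := hx
  obtain ⟨s, g0, g1, g2⟩ := hy
  have ht := t_pos hb h0 h2
  have hs := t_pos hb g0 g2
  have hρ : 1 ≤ a / t + c / s := by
    have h3 : a ≤ a / t := by
      rw [le_div_iff₀ ht]
      nlinarith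
    have h4 : c ≤ c / s := by
      rw [le_div_iff₀ hs]
      nlinarith
    linarith
  have hρ0 : 0 < a / t + c / s := by linarith
  set ρ : ℝ := a / t + c / s with hρdef
  refine ⟨1 / ρ, by positivity, by rw [div_le_one hρ0]; exact hρ, ?_⟩
  have hp : a / t / ρ + c / s / ρ = 1 := by
    rw [← add_div, ← hρdef, div_self hρ0.ne']
  have e : ((1 / ρ : ℝ) : ℂ) * (a • x + c • y) - b =
      ((a / t / ρ : ℝ) : ℂ) * ((t : ℂ) * x - b) + ((c / s / ρ : ℝ) : ℂ) * ((s : ℂ) * y - b) := by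
    have ht' : (t : ℂ) ≠ 0 := by exact_mod_cast ht.ne'
    have hs' : (s : ℂ) ≠ 0 := by exact_mod_cast hs.ne'
    have hρ' : (ρ : ℂ) ≠ 0 := by exact_mod_cast hρ0.ne'
    have hp' : ((a / t / ρ : ℝ) : ℂ) + ((c / s / ρ : ℝ) : ℂ) = 1 := by exact_mod_cast hp
    have e1 : ((a / t / ρ : ℝ) : ℂ) * ((t : ℂ) * x - b) + ((c / s / ρ : ℝ) : ℂ) * ((s : ℂ) * y - b) =
        ((a / t / ρ : ℝ) : ℂ) * ((t : ℂ) * x) + ((c / s / ρ : ℝ) : ℂ) * ((s : ℂ) * y) -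
          (((a / t / ρ : ℝ) : ℂ) + ((c / s / ρ : ℝ) : ℂ)) * b := by ring
    rw [e1, hp', one_mul]
    congr 1
    simp only [Complex.real_smul]
    push_cast
    field_simp
  rw [e]
  have hp1 : 0 ≤ a / t / ρ := by positivity
  have hp2 : 0 ≤ c / s / ρ := by positivity
  calc ‖((a / t / ρ : ℝ) : ℂ) * ((t : ℂ) * x - b) + ((c / s / ρ : ℝ) : ℂ) * ((s : ℂ) * y - b)‖
      ≤ ‖((a / t / ρ : ℝ) : ℂ) * ((t : ℂ) * x - b)‖ + ‖((c / s / ρ : ℝ) : ℂ) * ((s : ℂ) * y - b)‖ :=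
        norm_add_le _ _
    _ = a / t / ρ * ‖(t : ℂ) * x - b‖ + c / s / ρ * ‖(s : ℂ) * y - b‖ := by
        rw [norm_mul, norm_mul, Complex.norm_real, Complex.norm_real, Real.norm_of_nonneg hp1,
          Real.norm_of_nonneg hp2]
    _ ≤ a / t / ρ * 1 + c / s / ρ * 1 := by gcongr
    _ = 1 := by rw [mul_one, mul_one, hp]

theorem Sh_closed {b : ℂ} : IsClosed {x : ℂ | Sh b x} := by
  have e : {x : ℂ | Sh b x} = (Prod.snd : (Set.Icc (0 : ℝ) 1) × ℂ → ℂ) ''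
      {p | ‖((p.1 : ℝ) : ℂ) * p.2 - b‖ ≤ 1} := by
    ext x
    constructor
    · rintro ⟨t, h0, h1, h2⟩
      exact ⟨(⟨t, h0, h1⟩, x), h2, rfl⟩
    · rintro ⟨⟨⟨t, h0, h1⟩, y⟩, h2, rfl⟩
      exact ⟨t, h0, h1, h2⟩
  rw [e]
  apply isClosedMap_snd_of_compactSpace
  apply isClosed_le _ continuous_const
  fun_prop

theorem Sh_beyond {b x : ℂ} (hb : 1 < ‖b‖) (h : Sh b x) (hx : 1 < ‖x - b‖) : ‖b‖ ^ 2 - 1 ≤ ‖x‖ ^ 2 := by
  obtain ⟨t, h0, h1, h2⟩ := h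
  have h3 : ‖(t : ℂ) * x - b‖ ^ 2 ≤ 1 := by
    have := norm_nonneg ((t : ℂ) * x - b)
    nlinarith
  have h4 : 1 < ‖x - b‖ ^ 2 := by nlinarith
  have ht1 : t < 1 := by
    rcases h1.lt_or_eq with h | h
    · exact h
    · rw [h, Complex.ofReal_one, one_mul] at h2
      linarith
  rw [Complex.sq_norm, Complex.normSq_apply] at h3 h4 ⊢
  rw [Complex.sq_norm, Complex.normSq_apply]
  simp only [Complex.sub_re, Complex.sub_im, Complex.re_ofReal_mul, Complex.im_ofReal_mul] at h3 h4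
  have h5 : 0 < 1 - t := by linarith
  have h8 := mul_le_mul_of_nonneg_left h4.le h0
  have h6 : (1 - t) * (b.re * b.re + b.im * b.im - 1) ≤ (1 - t) * (t * (x.re * x.re + x.im * x.im)) := by
    linarith
  have h7 := le_of_mul_le_mul_left h6 h5
  nlinarith [mul_self_nonneg x.re, mul_self_nonneg x.im]

theorem Sh_dir {d β : ℝ} {x : ℂ} (hd : 1 < d) (h : Sh (pt d β) x) :
    ∃ t : ℝ, x = pt ‖x‖ t ∧ |t - β| ≤ arcsin (1 / d) := by
  obtain ⟨t, h0, h1, h2⟩ := h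
  have hb : 1 < ‖pt d β‖ := by
    rw [norm_pt (by linarith : (0 : ℝ) ≤ d)]
    exact hd
  have ht := t_pos hb h0 h2
  obtain ⟨θ, h3, h4⟩ := lift_ball hd h2
  refine ⟨θ, ?_, h4⟩
  have ht' : (t : ℂ) ≠ 0 := by exact_mod_cast ht.ne'
  apply mul_left_cancel₀ ht'
  rw [norm_mul, Complex.norm_real, Real.norm_of_nonneg h0] at h3
  rw [h3]
  unfold pt
  push_cast
  ring

theorem Sh_rot {b x e : ℂ} (he : ‖e‖ = 1) : Sh (b * e) (x * e) ↔ Sh b x := by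
  have h1 : ∀ t : ℝ, ‖(t : ℂ) * (x * e) - b * e‖ = ‖(t : ℂ) * x - b‖ := by
    intro t
    rw [show (t : ℂ) * (x * e) - b * e = ((t : ℂ) * x - b) * e by ring, norm_mul, he, mul_one]
  unfold Sh
  simp only [h1]

theorem Sh_conj {b x : ℂ} : Sh ((starRingEnd ℂ) b) ((starRingEnd ℂ) x) ↔ Sh b x := by
  have h1 : ∀ t : ℝ, ‖(t : ℂ) * (starRingEnd ℂ) x - (starRingEnd ℂ) b‖ = ‖(t : ℂ) * x - b‖ := by
    intro t
    rw [← Complex.norm_conj ((t : ℂ) * x - b), map_sub, map_mul, Complex.conj_ofReal]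
  unfold Sh
  simp only [h1]

end Pool.Agent.TE25
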