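import Pool.Agent.TE25.Rad
import Pool.Agent.TE25.ShB

/-!
# TE25/Rays: the shadow of a disk meets the circle of a disk around 0 in an interval of directions

`cone`: for `θ1 < θ < θ2 < θ1 + π` the unit vector of direction `θ` is
`(sin (θ2 - θ) e1 + sin (θ - θ1) e2) / sin (θ2 - θ1)`, so `pt r θ = p pt r1 θ1 + q pt r2 θ2` with `p = r sin (θ2 - θ) / (r1 sin (θ2 - θ1))`,
`q = r sin (θ - θ1) / (r2 sin (θ2 - θ1))`.
`between`: (the cases `θ = θ1`, `θ = θ2` are trivial) by `cone` with `r = rd h (θ - α)` we have `bp h α θ = p bp h α θ1 + q bp h α θ2`, `p, q > 0`. The point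
`y = bp h α θ / (p + q)` is a convex combination of `bp h α θ1`, `bp h α θ2`: it is in the convex set `Sh b` and in the closed disk about
`pt h α`, so `‖y‖ = rd h (θ - α) / (p + q) ≤ rd h (θ - α)` (`bp_in_iff_le`), `p + q ≥ 1`, and `Sh_scale` with `s = p + q`.
`opp`: `0` is a convex combination of `pt r θ` and `pt r' (θ + π)`, so `Sh b 0`, but then `‖b‖ ≤ 1`.
`width`: suppose `θ2 - θ1 ≥ π`. If `θ2 - θ1 = π`: `opp`. If `θ2 - θ1 > π` then `θ2 ≤ θU ≤ θV + 2π ≤ θ1 + 2π < θ2 + π`, so by `between` (on `[θ2, θ1 + 2π]`,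
`bp_add` with `k = 1`) both `bp h α θU` and `bp h α (θV + 2π) = bp h α θV` are in the shadow, contradiction to `hUV`.
-/

set_option autoImplicit false

namespace Pool.Agent.TE25

open Real Pool.Agent.TD25

private theorem rpt_re (d b : ℝ) : (pt d b).re = d * cos b := by
  unfold pt
  rw [Complex.re_ofReal_mul, Complex.exp_ofReal_mul_I_re]

private theorem rpt_im (d b : ℝ) : (pt d b).im = d * sin b := by
  unfold pt
  rw [Complex.im_ofReal_mul, Complex.exp_ofReal_mul_I_im]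

theorem cone {r r1 r2 θ θ1 θ2 : ℝ} (h1 : θ1 < θ) (h2 : θ < θ2) (h3 : θ2 < θ1 + π) (hr : 0 < r) (hr1 : 0 < r1)
    (hr2 : 0 < r2) : ∃ p q : ℝ, 0 < p ∧ 0 < q ∧ pt r θ = (p : ℂ) * pt r1 θ1 + (q : ℂ) * pt r2 θ2 := by
  have hs : 0 < sin (θ2 - θ1) := sin_pos_of_pos_of_lt_pi (by linarith) (by linarith)
  have hs2 : 0 < sin (θ2 - θ) := sin_pos_of_pos_of_lt_pi (by linarith) (by linarith)
  have hs1 : 0 < sin (θ - θ1) := sin_pos_of_pos_of_lt_pi (by linarith) (by linarith)
  refine ⟨r * sin (θ2 - θ) / (r1 * sin (θ2 - θ1)), r * sin (θ - θ1) / (r2 * sin (θ2 - θ1)),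
    by positivity, by positivity, ?_⟩
  have e1 : r * sin (θ2 - θ) / (r1 * sin (θ2 - θ1)) * r1 = r * sin (θ2 - θ) / sin (θ2 - θ1) := by
    field_simp
  have e2 : r * sin (θ - θ1) / (r2 * sin (θ2 - θ1)) * r2 = r * sin (θ - θ1) / sin (θ2 - θ1) := by
    field_simp
  apply Complex.ext
  · rw [Complex.add_re, Complex.re_ofReal_mul, Complex.re_ofReal_mul, rpt_re, rpt_re, rpt_re,
      ← mul_assoc, ← mul_assoc, e1, e2, div_mul_eq_mul_div, div_mul_eq_mul_div, ← add_div,
      eq_div_iff hs.ne', sin_sub, sin_sub, sin_sub]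
    ring
  · rw [Complex.add_im, Complex.im_ofReal_mul, Complex.im_ofReal_mul, rpt_im, rpt_im, rpt_im,
      ← mul_assoc, ← mul_assoc, e1, e2, div_mul_eq_mul_div, div_mul_eq_mul_div, ← add_div,
      eq_div_iff hs.ne', sin_sub, sin_sub, sin_sub]
    ring

theorem between {h α θ θ1 θ2 : ℝ} {b : ℂ} (h0 : 0 ≤ h) (hh : h < 1) (hb : 1 < ‖b‖) (h1 : θ1 ≤ θ) (h2 : θ ≤ θ2)
    (h3 : θ2 < θ1 + π) (s1 : Sh b (bp h α θ1)) (s2 : Sh b (bp h α θ2)) : Sh b (bp h α θ) := by
  rcases eq_or_lt_of_le h1 with h1' | h1'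
  · rwa [← h1']
  rcases eq_or_lt_of_le h2 with h2' | h2'
  · rwa [h2']
  have hr := rd_pos (δ := θ - α) h0 hh
  obtain ⟨p, q, hp, hq, he⟩ := cone h1' h2' h3 hr (rd_pos (δ := θ1 - α) h0 hh)
    (rd_pos (δ := θ2 - α) h0 hh)
  have he' : bp h α θ = (p : ℂ) * bp h α θ1 + (q : ℂ) * bp h α θ2 := he
  have hu : 0 < p + q := by linarith
  have huC : ((p : ℂ) + q) ≠ 0 := by
    have : ((p + q : ℝ) : ℂ) ≠ 0 := by exact_mod_cast hu.ne'
    rwa [Complex.ofReal_add] at this
  set y : ℂ := (p / (p + q) : ℝ) • bp h α θ1 + (q / (p + q) : ℝ) • bp h α θ2 with hy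
  have hw : p / (p + q) + q / (p + q) = 1 := by
    rw [← add_div, div_self hu.ne']
  have hyu : bp h α θ = ((p + q : ℝ) : ℂ) * y := by
    rw [hy, he', Complex.real_smul, Complex.real_smul]
    push_cast
    field_simp
  have hysh : Sh b y := Sh_convex hb s1 s2 (by positivity) (by positivity) hw
  have hyb : y ∈ Metric.closedBall (pt h α) 1 := by
    refine (convex_closedBall (pt h α) 1) ?_ ?_ (by positivity) (by positivity) hw
    · rw [mem_closedBall_iff_norm, bp_norm_sub h0 hh]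
    · rw [mem_closedBall_iff_norm, bp_norm_sub h0 hh]
  have hyp : y = pt (rd h (θ - α) / (p + q)) θ := by
    have h5 : ((p + q : ℝ) : ℂ) * y = ((p + q : ℝ) : ℂ) * pt (rd h (θ - α) / (p + q)) θ := by
      rw [← hyu]
      unfold bp pt
      push_cast
      field_simp
    exact mul_left_cancel₀ (by push_cast; exact huC) h5
  rw [mem_closedBall_iff_norm, hyp, bp_in_iff_le h0 hh (by positivity)] at hyb
  have hu1 : 1 ≤ p + q := by
    rw [div_le_iff₀ hu] at hyb
    by_contra hlt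
    rw [not_le] at hlt
    have := mul_lt_mul_of_pos_left hlt hr
    linarith
  rw [hyu]
  exact Sh_scale hu1 hysh

theorem opp {r r' θ : ℝ} {b : ℂ} (hb : 1 < ‖b‖) (hr : 0 < r) (hr' : 0 < r') (s1 : Sh b (pt r θ))
    (s2 : Sh b (pt r' (θ + π))) : False := by
  have hu : 0 < r + r' := by linarith
  have hw : r' / (r + r') + r / (r + r') = 1 := by
    rw [← add_div, add_comm r' r, div_self hu.ne']
  have h0 : Sh b ((r' / (r + r')) • pt r θ + (r / (r + r')) • pt r' (θ + π)) :=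
    Sh_convex hb s1 s2 (by positivity) (by positivity) hw
  have e : (r' / (r + r')) • pt r θ + (r / (r + r')) • pt r' (θ + π) = 0 := by
    apply Complex.ext
    · rw [Complex.add_re, Complex.real_smul, Complex.real_smul, Complex.re_ofReal_mul,
        Complex.re_ofReal_mul, rpt_re, rpt_re, cos_add_pi, Complex.zero_re]
      ring
    · rw [Complex.add_im, Complex.real_smul, Complex.real_smul, Complex.im_ofReal_mul,
        Complex.im_ofReal_mul, rpt_im, rpt_im, sin_add_pi, Complex.zero_im]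
      ring
  rw [e] at h0
  obtain ⟨t, _, _, ht⟩ := h0
  rw [mul_zero, zero_sub, norm_neg] at ht
  linarith

theorem width {h α θU θV θ1 θ2 : ℝ} {b : ℂ} (h0 : 0 ≤ h) (hh : h < 1) (hb : 1 < ‖b‖)
    (hUV : ¬ (Sh b (bp h α θU) ∧ Sh b (bp h α θV))) (hw : θU ≤ θV + 2 * π) (h1 : θV ≤ θ1) (h2 : θ1 ≤ θ2) (h3 : θ2 ≤ θU)
    (s1 : Sh b (bp h α θ1)) (s2 : Sh b (bp h α θ2)) : θ2 < θ1 + π := by
  by_contra hc
  rw [not_lt] at hc
  rcases eq_or_lt_of_le hc with hc' | hc'
  · rw [← hc'] at s2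
    exact opp hb (rd_pos h0 hh) (rd_pos h0 hh) s1 s2
  · have s3 : Sh b (bp h α (θ1 + 2 * π)) := by
      have := bp_add h α θ1 1
      rw [Int.cast_one, mul_one] at this
      rwa [this]
    apply hUV
    constructor
    · exact between h0 hh hb h3 (by linarith) (by linarith) s2 s3
    · have s4 := between (θ := θV + 2 * π) h0 hh hb (by linarith) (by linarith) (by linarith) s2 s3
      have := bp_add h α θV 1
      rw [Int.cast_one, mul_one] at this
      rwa [this] at s4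

end Pool.Agent.TE25
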