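import Pool.Agent.TE25.Defs
import Pool.Agent.TD25.Tool

/-!
# TE25/Sgm: the normal angle `sg h δ = δ + arcsin (h sin δ)`

`sg_mono`: derivative `1 + h cos δ / √(1 - h^2 sin^2 δ) > 0` because `(h cos δ)^2 < 1 - h^2 sin^2 δ` (`h < 1`); `Real.hasDerivAt_arcsin`
(`|h sin δ| < 1`), `strictMono_of_deriv_pos`. `sg_surj`: intermediate value theorem, `|sg h δ - δ| ≤ π / 2`.
`sg_dist`: `|arcsin (h sin δ)| ≤ arcsin h` (`arcsin` monotone, odd), and `arcsin 0.76 ≤ 0.8634`: `0.76 ≤ sin 0.8634`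
(`sin 0.8634 = 0.76002...`; e.g. `LemKC.sin_ge_of_chk` of `TD25/LemK`, which gives `q / 10000 ≤ sin (p / 10000)` from a kernel check,
`by decide +kernel`, with `q = 7600`, `p = 8634`).
-/

set_option autoImplicit false

namespace Pool.Agent.TE25

open Real Pool.Agent.TD25

private theorem abs_h_sin_lt {h : ℝ} (h0 : 0 ≤ h) (h1 : h < 1) (δ : ℝ) : |h * sin δ| < 1 := by
  rw [abs_mul, abs_of_nonneg h0]
  have := abs_sin_le_one δ
  have h3 := abs_nonneg (sin δ)
  nlinarith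

theorem sg_mono {h : ℝ} (h0 : 0 ≤ h) (h1 : h < 1) : StrictMono (sg h) := by
  have key : ∀ δ : ℝ, HasDerivAt (sg h) (1 + 1 / √(1 - (h * sin δ) ^ 2) * (h * cos δ)) δ := by
    intro δ
    have ha := abs_lt.1 (abs_h_sin_lt h0 h1 δ)
    have h2 : HasDerivAt arcsin (1 / √(1 - (h * sin δ) ^ 2)) (h * sin δ) :=
      hasDerivAt_arcsin (by linarith) (by linarith)
    have h3 : HasDerivAt (fun δ => h * sin δ) (h * cos δ) δ := (hasDerivAt_sin δ).const_mul h
    have h4 : HasDerivAt (fun δ => arcsin (h * sin δ)) (1 / √(1 - (h * sin δ) ^ 2) * (h * cos δ)) δ :=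
      HasDerivAt.comp δ (h₂ := arcsin) h2 h3
    exact (hasDerivAt_id δ).add h4
  apply strictMono_of_deriv_pos
  intro δ
  rw [(key δ).deriv]
  have ha := abs_lt.1 (abs_h_sin_lt h0 h1 δ)
  have hpos : 0 < 1 - (h * sin δ) ^ 2 := by nlinarith [ha.1, ha.2]
  have hs : 0 < √(1 - (h * sin δ) ^ 2) := Real.sqrt_pos.2 hpos
  have hlt : |h * cos δ| < √(1 - (h * sin δ) ^ 2) := by
    apply Real.lt_sqrt_of_sq_lt
    rw [sq_abs]
    have e : (h * cos δ) ^ 2 + (h * sin δ) ^ 2 = h ^ 2 := by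
      have := sin_sq_add_cos_sq δ
      rw [mul_pow, mul_pow, ← mul_add, add_comm, this, mul_one]
    nlinarith
  have h4 : -√(1 - (h * sin δ) ^ 2) < h * cos δ := (abs_lt.1 hlt).1
  have h5 : -1 < 1 / √(1 - (h * sin δ) ^ 2) * (h * cos δ) := by
    rw [one_div, inv_mul_eq_div, lt_div_iff₀ hs]
    linarith
  linarith

theorem sg_cont (h : ℝ) : Continuous (sg h) := by
  unfold sg
  fun_prop

theorem sg_neg (h δ : ℝ) : sg h (-δ) = -sg h δ := by
  unfold sg
  rw [sin_neg, mul_neg, arcsin_neg]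
  ring

theorem sg_zero (h : ℝ) : sg h 0 = 0 := by
  simp [sg]

theorem sg_pi (h : ℝ) : sg h π = π := by
  simp [sg]

theorem sg_add (h δ : ℝ) (k : ℤ) : sg h (δ + 2 * π * k) = sg h δ + 2 * π * k := by
  unfold sg
  have : sin (δ + 2 * π * k) = sin δ := by
    have := sin_add_int_mul_two_pi δ k
    rw [← this]
    congr 1
    ring
  rw [this]
  ring

theorem sg_surj {h : ℝ} (h0 : 0 ≤ h) (h1 : h < 1) (σ : ℝ) : ∃ δ : ℝ, sg h δ = σ := by
  have hpi := Real.pi_pos
  have hb : ∀ δ : ℝ, |sg h δ - δ| ≤ π / 2 := by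
    intro δ
    unfold sg
    rw [abs_le]
    have h2 := neg_pi_div_two_le_arcsin (h * sin δ)
    have h3 := arcsin_le_pi_div_two (h * sin δ)
    constructor <;> linarith
  have h2 : sg h (σ - π / 2) ≤ σ := by
    have := (abs_le.1 (hb (σ - π / 2))).2
    linarith
  have h3 : σ ≤ sg h (σ + π / 2) := by
    have := (abs_le.1 (hb (σ + π / 2))).1
    linarith
  have h4 : σ ∈ Set.Icc (sg h (σ - π / 2)) (sg h (σ + π / 2)) := ⟨h2, h3⟩
  obtain ⟨δ, _, hδ⟩ := intermediate_value_Icc (by linarith : σ - π / 2 ≤ σ + π / 2)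
    (sg_cont h).continuousOn h4
  exact ⟨δ, hδ⟩

open Pool.Agent.SB19 in
private theorem sin_ge_chk (p q : ℕ)
    (h : chk (.add (.sin (.num p 10000)) (.neg (.num q 10000))) .L 0 0 0 0 0 0 = true) :
    (q : ℝ) / 10000 ≤ Real.sin ((p : ℝ) / 10000) := by
  have h1 := nonneg_of_chk _ _ _ _ _ _ _ _ h 0 0 0 le_rfl le_rfl le_rfl (by simp) (by simp) (by simp)
  simp only [Ex.eval] at h1
  push_cast at h1
  linarith

open Pool.Agent.SB19 in
private theorem sin_num : 0.76 ≤ sin 0.8634 := by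
  have := sin_ge_chk 8634 7600 (by decide +kernel)
  norm_num at this ⊢
  exact this

theorem sg_dist {h : ℝ} (h0 : 0 ≤ h) (h1 : h ≤ 0.76) (δ : ℝ) : |sg h δ - δ| ≤ 0.8634 := by
  have hpi := Real.pi_gt_three
  have h2 : |h * sin δ| ≤ 0.76 := by
    rw [abs_mul, abs_of_nonneg h0]
    have := abs_sin_le_one δ
    have h3 := abs_nonneg (sin δ)
    nlinarith
  have h3 : arcsin 0.76 ≤ 0.8634 := by
    apply arcsin_le_iff_le_sin' ?_ |>.2 sin_num
    constructor <;> linarith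
  have h4 := abs_le.1 h2
  have h5 : sg h δ - δ = arcsin (h * sin δ) := by
    unfold sg
    ring
  rw [h5, abs_le]
  constructor
  · have := monotone_arcsin h4.1
    rw [arcsin_neg] at this
    linarith
  · have := monotone_arcsin h4.2
    linarith

theorem sin_sg_sub {h : ℝ} (h0 : 0 ≤ h) (h1 : h < 1) (δ : ℝ) : sin (sg h δ - δ) = h * sin δ := by
  have h5 : sg h δ - δ = arcsin (h * sin δ) := by
    unfold sg
    ring
  have ha := abs_lt.1 (abs_h_sin_lt h0 h1 δ)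
  rw [h5, sin_arcsin (by linarith) (by linarith)]

end Pool.Agent.TE25
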