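import Pool.Agent.TE25.MassI
import Pool.Agent.TE25.ArcP
import Pool.Agent.TE25.Rad
import Pool.Agent.TE25.Sgm
import Pool.Agent.TE25.ShB
import Pool.Agent.TE25.Rays

/-!
# TE25/ArcD: the inequality (I) for two directions

`σi = sg h (θi - α)`, `bp h α θi = pt h α + pt 1 (α + σi)` (`bp_eq`). `‖b - pt h α‖ ≤ 2`, so `polar2`; `cos τ = ‖b - pt h α‖ / 2 > 0`
(`‖b‖ > h`), so `τ < π/2`. `arc_le`: `|σi - s - 2π ki| ≤ τ`. `0 ≤ σ2 - σ1 < 2π` (`sg_mono`, `sg_add`).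
Case `k1 = k2 = k`: `σi ∈ [s + 2πk - τ, s + 2πk + τ]`; `GG_mono`, `GG_add`, `massI`.
Case `k1 ≠ k2`: as `|σ2 - σ1 - 2π (k2 - k1)| ≤ 2τ < π` and `0 ≤ σ2 - σ1 < 2π`: `k2 = k1 + 1`. Then for every `θ ∈ [θ2, θ1 + 2π]` the angle
`σ = sg h (θ - α)` satisfies `σ2 ≤ σ ≤ σ1 + 2π`, so `|σ - s - 2π k2| ≤ τ` and `bp h α θ` is in the closed disk about `b` (`arc_mem` with `s + 2π k2`).
Apply this to `θ = θ2` and to `θ = θ2 + π` (`≤ θ1 + 2π`): contradiction to `opp` (`Sh_of_ball`).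
-/

set_option autoImplicit false

namespace Pool.Agent.TE25

open Real Pool.Agent.TD25

theorem arcD {R h α θ1 θ2 : ℝ} {b : ℂ} (hR : OkR R) (h0 : 0 ≤ h) (h1 : h ≤ 0.76) (hb1 : R - 1 ≤ ‖b‖) (h12 : θ1 ≤ θ2)
    (h21 : θ2 < θ1 + π) (s1 : ‖bp h α θ1 - b‖ ≤ 1) (s2 : ‖bp h α θ2 - b‖ ≤ 1) :
    fi R (‖b‖ ^ 2) + GG h (sg h (θ2 - α)) - GG h (sg h (θ1 - α)) ≤ 0.374 := by
  have hpi := Real.pi_pos
  have hlt : h < 1 := by linarith
  have hb : 1.7692 ≤ ‖b‖ := by linarith [hR.1]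
  have e2 : ‖b - pt h α‖ ≤ 2 := by
    have e3 : b - pt h α = -(bp h α θ1 - b) + (bp h α θ1 - pt h α) := by ring
    calc ‖b - pt h α‖ ≤ ‖-(bp h α θ1 - b)‖ + ‖bp h α θ1 - pt h α‖ := by
          rw [e3]
          exact norm_add_le _ _
      _ ≤ 2 := by
          rw [norm_neg, bp_norm_sub h0 hlt]
          linarith
  obtain ⟨s, τ, _, _, t0, t1, hbe, hbn⟩ := polar2 e2
  have hc : 0 < cos τ := by
    have h3 := norm_sub_norm_le b (pt h α)
    rw [norm_pt h0, hbn] at h3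
    linarith
  have t2 : τ < π / 2 := by
    rcases lt_or_eq_of_le t1 with h3 | h3
    · exact h3
    · rw [h3, cos_pi_div_two] at hc
      exact absurd hc (lt_irrefl 0)
  rw [bp_eq h0 hlt] at s1 s2
  obtain ⟨k1, hk1⟩ := arc_le t0 t2 hbe s1
  obtain ⟨k2, hk2⟩ := arc_le t0 t2 hbe s2
  set σ1 := sg h (θ1 - α) with hσ1
  set σ2 := sg h (θ2 - α) with hσ2
  have m := sg_mono h0 hlt
  have o1 : σ1 ≤ σ2 := m.monotone (by linarith)
  have o2 : σ2 < σ1 + 2 * π := by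
    have h3 := sg_add h (θ1 - α) 1
    have h4 : sg h (θ2 - α) < sg h (θ1 - α + 2 * π * (1 : ℤ)) := m (by push_cast; linarith)
    rw [h3] at h4
    push_cast at h4
    linarith
  rw [abs_le] at hk1 hk2
  by_cases hk : k1 = k2
  · subst hk
    have gm := GG_mono h0 h1
    have g2 : GG h σ2 ≤ GG h (s + τ + 2 * π * k1) := gm (by linarith [hk2.2])
    have g1 : GG h (s - τ + 2 * π * k1) ≤ GG h σ1 := gm (by linarith [hk1.1])
    rw [GG_add] at g1 g2
    have g3 := massI hR h0 h1 t0 t1 hbe hb1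
    linarith
  · exfalso
    have l1 : (-1 : ℝ) < (k2 : ℝ) - k1 := by
      by_contra hcon
      push Not at hcon
      nlinarith [hk1.1, hk1.2, hk2.1, hk2.2]
    have l2 : (k2 : ℝ) - k1 < 2 := by
      by_contra hcon
      push Not at hcon
      nlinarith [hk1.1, hk1.2, hk2.1, hk2.2]
    have l3 : -1 < k2 - k1 := by exact_mod_cast l1
    have l4 : k2 - k1 < 2 := by exact_mod_cast l2
    have l5 : k2 = k1 + 1 := by omega
    have l6 : (k2 : ℝ) = k1 + 1 := by exact_mod_cast l5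
    have hbe2 : b = pt h α + pt (2 * cos τ) (α + (s + 2 * π * k2)) := by
      rw [← add_assoc, pt_add_two_pi]
      exact hbe
    have key : ∀ θ : ℝ, θ2 ≤ θ → θ ≤ θ1 + 2 * π → Sh b (bp h α θ) := by
      intro θ a1 a2
      apply Sh_of_ball
      rw [bp_eq h0 hlt]
      apply arc_mem t0 t1 hbe2
      have a3 : σ2 ≤ sg h (θ - α) := m.monotone (by linarith)
      have a4 : sg h (θ - α) ≤ σ1 + 2 * π := by
        have h3 := sg_add h (θ1 - α) 1
        have h4 : sg h (θ - α) ≤ sg h (θ1 - α + 2 * π * (1 : ℤ)) := m.monotone (by push_cast; linarith)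
        rw [h3] at h4
        push_cast at h4
        linarith
      rw [abs_le, l6]
      rw [l6] at hk2
      constructor <;> nlinarith [hk1.1, hk1.2, hk2.1, hk2.2]
    have z1 := key θ2 le_rfl (by linarith)
    have z2 := key (θ2 + π) (by linarith) (by linarith)
    exact opp (by linarith) (rd_pos h0 hlt) (rd_pos h0 hlt) z1 z2

end Pool.Agent.TE25
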