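import Pool.Agent.TE25.LobeD
import Pool.Agent.TE25.Rad
import Pool.Agent.TE25.ShB
import Pool.Agent.TD25.Dir

/-!
# TE25/Chord: no shadow contains both corners

`U = bp h1 α1 θU = bp h2 α2 θU`, `V = bp h1 α1 θV = bp h2 α2 θV` (`eU`, `eV`) have distance 1 from `a1 = pt h1 α1` and `a2 = pt h2 α2` (`bp_norm_sub`).
`U ≠ V` (`pt_inj`, `θV < θU < θV + 2π`), `a1 ≠ a2` (`pt_inj`, `α1 < α2 < α1 + 2π`, or `h1 ≠ h2`). Hence `U + V = a1 + a2` (with `M = (a1 + a2)/2`, `w = a1 - a2`: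
`Re ((U - M) conj w) = 0 = Re ((V - M) conj w)` and `‖U - M‖ = ‖V - M‖`, so `U - M = -(V - M)`). If both were in the shadow, also `M`
(`Sh_convex`), so `‖b‖ - 1 ≤ ‖M‖ ≤ (h1 + h2)/2 ≤ 0.75 < R - 2` (`Sh_norm`).
-/

set_option autoImplicit false

namespace Pool.Agent.TE25

open Real Pool.Agent.TD25

private theorem perp3 {p1 p2 q1 q2 z1 z2 : ℝ} (h1 : p1 * z1 + p2 * z2 = 0) (h2 : q1 * z1 + q2 * z2 = 0)
    (h3 : p1 * q1 + p2 * q2 = 0) (hp : p1 ^ 2 + p2 ^ 2 ≠ 0) (hq : q1 ^ 2 + q2 ^ 2 ≠ 0) : z1 = 0 ∧ z2 = 0 := by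
  have e1 : (p1 * z2 - p2 * z1) * (q1 * z2 - q2 * z1) = 0 := by
    have : (p1 * z2 - p2 * z1) * (q1 * z2 - q2 * z1) =
        (p1 * q1 + p2 * q2) * (z1 ^ 2 + z2 ^ 2) - (p1 * z1 + p2 * z2) * (q1 * z1 + q2 * z2) := by ring
    rw [this, h1, h2, h3]
    ring
  have hz : z1 ^ 2 + z2 ^ 2 = 0 := by
    rcases mul_eq_zero.1 e1 with h | h
    · have e2 : (p1 ^ 2 + p2 ^ 2) * (z1 ^ 2 + z2 ^ 2) = 0 := by
        have : (p1 ^ 2 + p2 ^ 2) * (z1 ^ 2 + z2 ^ 2) = (p1 * z1 + p2 * z2) ^ 2 + (p1 * z2 - p2 * z1) ^ 2 := by ring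
        rw [this, h1, h]
        ring
      exact (mul_eq_zero.1 e2).resolve_left hp
    · have e2 : (q1 ^ 2 + q2 ^ 2) * (z1 ^ 2 + z2 ^ 2) = 0 := by
        have : (q1 ^ 2 + q2 ^ 2) * (z1 ^ 2 + z2 ^ 2) = (q1 * z1 + q2 * z2) ^ 2 + (q1 * z2 - q2 * z1) ^ 2 := by ring
        rw [this, h2, h]
        ring
      exact (mul_eq_zero.1 e2).resolve_left hq
  have a1 := sq_nonneg z1
  have a2 := sq_nonneg z2
  constructor
  · exact pow_eq_zero_iff (two_ne_zero) |>.1 (by linarith : z1 ^ 2 = 0)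
  · exact pow_eq_zero_iff (two_ne_zero) |>.1 (by linarith : z2 ^ 2 = 0)

private theorem nsq {x : ℂ} (h : ‖x‖ = 1) : x.re ^ 2 + x.im ^ 2 = 1 := by
  have h1 : ‖x‖ ^ 2 = 1 := by
    rw [h]
    norm_num
  rw [Complex.sq_norm, Complex.normSq_apply] at h1
  linarith

private theorem ne_sq {x y : ℂ} (h : x ≠ y) : (x.re - y.re) ^ 2 + (x.im - y.im) ^ 2 ≠ 0 := by
  intro h1
  apply h
  have a1 := sq_nonneg (x.re - y.re)
  have a2 := sq_nonneg (x.im - y.im)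
  apply Complex.ext
  · have h2 : (x.re - y.re) ^ 2 = 0 := by linarith
    have h3 := pow_eq_zero_iff (two_ne_zero) |>.1 h2
    linarith
  · have h2 : (x.im - y.im) ^ 2 = 0 := by linarith
    have h3 := pow_eq_zero_iff (two_ne_zero) |>.1 h2
    linarith

private theorem four {U V a c : ℂ} (h1 : ‖U - a‖ = 1) (h2 : ‖U - c‖ = 1) (h3 : ‖V - a‖ = 1) (h4 : ‖V - c‖ = 1)
    (hUV : U ≠ V) (hac : a ≠ c) : U + V = a + c := by
  have g1 := nsq h1
  have g2 := nsq h2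
  have g3 := nsq h3
  have g4 := nsq h4
  simp only [Complex.sub_re, Complex.sub_im] at g1 g2 g3 g4
  have hp := ne_sq hUV
  have hq := ne_sq hac
  have key := perp3 (p1 := U.re - V.re) (p2 := U.im - V.im) (q1 := a.re - c.re) (q2 := a.im - c.im)
    (z1 := U.re + V.re - a.re - c.re) (z2 := U.im + V.im - a.im - c.im)
    (by linear_combination (g1 + g2 - g3 - g4) / 2) (by linear_combination (g2 - g1 + g4 - g3) / 2)
    (by linear_combination (g2 - g1 + g3 - g4) / 2) hp hq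
  apply Complex.ext
  · rw [Complex.add_re, Complex.add_re]
    linarith [key.1]
  · rw [Complex.add_im, Complex.add_im]
    linarith [key.2]

theorem chord {R h1 α1 h2 α2 θV θU : ℝ} {b : ℂ} (hR : OkR R) (a0 : 0 < h1) (a1 : h1 ≤ 0.76) (b0 : 0 < h2)
    (b1 : h2 ≤ 0.76) (hs : h1 + h2 ≤ 1.5) (L : Lobe h1 α1 h2 α2 θV θU) (hb : R - 1 ≤ ‖b‖) :
    ¬ (Sh b (bp h1 α1 θU) ∧ Sh b (bp h1 α1 θV)) := by
  rintro ⟨SU, SV⟩
  have hlt1 : h1 < 1 := by linarith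
  have hlt2 : h2 < 1 := by linarith
  have hb1 : 1 < ‖b‖ := by linarith [hR.1]
  have v1 := L.v1
  have u1 := L.u1
  have u2 := L.u2
  have v2 := L.v2
  have eU : bp h1 α1 θU = bp h2 α2 θU := by
    unfold bp
    rw [L.eU]
  have eV : bp h1 α1 θV = bp h2 α2 θV := by
    unfold bp
    rw [L.eV]
  have n1 : ‖bp h1 α1 θU - pt h1 α1‖ = 1 := bp_norm_sub a0.le hlt1 _ _
  have n2 : ‖bp h1 α1 θU - pt h2 α2‖ = 1 := by
    rw [eU]
    exact bp_norm_sub b0.le hlt2 _ _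
  have n3 : ‖bp h1 α1 θV - pt h1 α1‖ = 1 := bp_norm_sub a0.le hlt1 _ _
  have n4 : ‖bp h1 α1 θV - pt h2 α2‖ = 1 := by
    rw [eV]
    exact bp_norm_sub b0.le hlt2 _ _
  have hUV : bp h1 α1 θU ≠ bp h1 α1 θV := by
    intro h
    have hn : rd h1 (θU - α1) = rd h1 (θV - α1) := by
      have h5 := congrArg norm h
      rw [norm_bp a0.le hlt1, norm_bp a0.le hlt1] at h5
      exact h5
    unfold bp at h
    rw [hn] at h
    have h6 := pt_inj (rd_pos a0.le hlt1) h (by rw [abs_lt]; constructor <;> linarith [Real.pi_pos])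
    linarith
  have hac : pt h1 α1 ≠ pt h2 α2 := by
    intro h
    have hn : h1 = h2 := by
      have h5 := congrArg norm h
      rw [norm_pt a0.le, norm_pt b0.le] at h5
      exact h5
    rw [← hn] at h
    have h6 := pt_inj a0 h (by rw [abs_lt]; constructor <;> linarith [Real.pi_pos])
    linarith
  have hsum := four n1 n2 n3 n4 hUV hac
  have hM := (Sh_convex hb1) (show bp h1 α1 θU ∈ {x : ℂ | Sh b x} from SU)
    (show bp h1 α1 θV ∈ {x : ℂ | Sh b x} from SV) (by norm_num : (0 : ℝ) ≤ 1 / 2) (by norm_num : (0 : ℝ) ≤ 1 / 2)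
    (by norm_num)
  have hM2 : Sh b ((1 / 2 : ℝ) • bp h1 α1 θU + (1 / 2 : ℝ) • bp h1 α1 θV) := hM
  rw [← smul_add, hsum] at hM2
  have hM3 := Sh_norm hb1 hM2
  rw [norm_smul] at hM3
  have hM4 : ‖pt h1 α1 + pt h2 α2‖ ≤ h1 + h2 := by
    refine (norm_add_le _ _).trans ?_
    rw [norm_pt a0.le, norm_pt b0.le]
  have hM5 : ‖(1 / 2 : ℝ)‖ = 1 / 2 := by
    rw [Real.norm_of_nonneg (by norm_num)]
  rw [hM5] at hM3
  linarith [hR.1]

end Pool.Agent.TE25
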