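import Pool.Agent.TE25.Defs

/-!
# TE25/ShD: supporting half planes of the shadow

All inner products are written `(x * conj w).re`.
`Sh_dual`: `t x ∈ B`, so `t Re (x conj w) ≥ Re (b conj w) - 1 ≥ 0`; `0 < t ≤ 1` (`t = 0` is impossible as `‖b‖ > 1`), and
`Re (x conj w) ≥ (Re (b conj w) - 1) / t ≥ Re (b conj w) - 1`.
`Sh_near`: `Sh_dual` with `w = b - P`: `Re (b conj w) = Re (P conj w) + 1 ≥ 1`.
`Sh_sep`: let `p` be the point of the segment `[0, x]` nearest to `b` (compact), `‖b - p‖ > 1` because `¬ Sh b x`. `w = (b - p)/‖b - p‖`. For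
every `z` of the segment `Re ((z - p) conj w) ≤ 0` (nearest point in a convex set). With `z = 0`: `Re (p conj w) ≥ 0`, so
`Re (b conj w) = Re (p conj w) + ‖b - p‖ > 1`; with `z = x`: `Re (x conj w) ≤ Re (p conj w) = Re (b conj w) - ‖b - p‖ < Re (b conj w) - 1`.
(One can avoid the general theory: the minimum over `t ∈ [0,1]` of the quadratic polynomial `‖t x - b‖^2` is at `t = 0`, `t = 1` or
at `t = Re (b conj x)/‖x‖^2 ∈ (0,1)`; in each case the inequalities are direct.)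
-/

set_option autoImplicit false

namespace Pool.Agent.TE25

open Real

private theorem ip_eq (x w : ℂ) : (x * (starRingEnd ℂ) w).re = x.re * w.re + x.im * w.im := by
  simp [Complex.mul_re]

private theorem ip_self (w : ℂ) : (w * (starRingEnd ℂ) w).re = ‖w‖ ^ 2 := by
  rw [Complex.mul_conj, Complex.normSq_eq_norm_sq]
  norm_cast

private theorem ip_le (x w : ℂ) : (x * (starRingEnd ℂ) w).re ≤ ‖x‖ * ‖w‖ := by
  have := Complex.re_le_norm (x * (starRingEnd ℂ) w)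
  rwa [norm_mul, Complex.norm_conj] at this

theorem Sh_dual {b x w : ℂ} (hb : 1 < ‖b‖) (h : Sh b x) (hw : ‖w‖ = 1) (h1 : 1 ≤ (b * (starRingEnd ℂ) w).re) :
    (b * (starRingEnd ℂ) w).re - 1 ≤ (x * (starRingEnd ℂ) w).re := by
  obtain ⟨t, ht0, ht1, ht⟩ := h
  have ht0' : t ≠ 0 := by
    rintro rfl
    rw [Complex.ofReal_zero, zero_mul, zero_sub, norm_neg] at ht
    linarith
  have h2 := ip_le (b - (t : ℂ) * x) w
  rw [norm_sub_rev, hw, mul_one] at h2
  have h3 : ((b - (t : ℂ) * x) * (starRingEnd ℂ) w).re =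
      (b * (starRingEnd ℂ) w).re - t * (x * (starRingEnd ℂ) w).re := by
    rw [ip_eq, ip_eq, ip_eq]
    simp
    ring
  rw [h3] at h2
  set B := (b * (starRingEnd ℂ) w).re
  set X := (x * (starRingEnd ℂ) w).re
  have h4 : B - 1 ≤ t * X := by linarith
  have htp : 0 < t := lt_of_le_of_ne ht0 (Ne.symm ht0')
  have hX : 0 ≤ X := by
    by_contra hc
    push Not at hc
    nlinarith
  nlinarith

theorem Sh_near {b x P : ℂ} (hb : 1 < ‖b‖) (h : Sh b x) (hP : ‖P - b‖ = 1)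
    (h1 : 0 ≤ (P * (starRingEnd ℂ) (b - P)).re) : 0 ≤ ((x - P) * (starRingEnd ℂ) (b - P)).re := by
  have hw : ‖b - P‖ = 1 := by rw [norm_sub_rev]; exact hP
  have h2 : (b * (starRingEnd ℂ) (b - P)).re = (P * (starRingEnd ℂ) (b - P)).re + 1 := by
    have h3 := ip_self (b - P)
    rw [hw] at h3
    have h4 : ((b - P) * (starRingEnd ℂ) (b - P)).re =
        (b * (starRingEnd ℂ) (b - P)).re - (P * (starRingEnd ℂ) (b - P)).re := by
      rw [sub_mul, Complex.sub_re]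
    linarith
  have h5 := Sh_dual hb h hw (by linarith)
  rw [sub_mul, Complex.sub_re]
  linarith

theorem Sh_sep {b x : ℂ} (hb : 1 < ‖b‖) (h : ¬ Sh b x) :
    ∃ w : ℂ, ‖w‖ = 1 ∧ 1 ≤ (b * (starRingEnd ℂ) w).re ∧
      (x * (starRingEnd ℂ) w).re < (b * (starRingEnd ℂ) w).re - 1 := by
  have hno : ∀ t : ℝ, 0 ≤ t → t ≤ 1 → 1 < ‖b - (t : ℂ) * x‖ := by
    intro t h0 h1
    by_contra hc
    push Not at hc
    exact h ⟨t, h0, h1, by rw [norm_sub_rev]; exact hc⟩
  set s := (x * (starRingEnd ℂ) b).re with hs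
  set X2 := (x * (starRingEnd ℂ) x).re with hX2
  have hX0 : 0 ≤ X2 := by
    rw [hX2, ip_self]
    positivity
  obtain ⟨t, ht0, ht1, hm1, hm2⟩ : ∃ t : ℝ, 0 ≤ t ∧ t ≤ 1 ∧ 0 ≤ t * (s - t * X2) ∧
      (1 - t) * (s - t * X2) ≤ 0 := by
    by_cases hA : s ≤ 0
    · exact ⟨0, le_rfl, zero_le_one, by simp, by simpa using hA⟩
    push Not at hA
    by_cases hB : X2 ≤ s
    · exact ⟨1, zero_le_one, le_rfl, by simpa using hB, by simp⟩
    push Not at hB
    have hX : 0 < X2 := hA.trans hB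
    refine ⟨s / X2, by positivity, (div_le_one hX).2 hB.le, ?_, ?_⟩ <;>
      rw [div_mul_cancel₀ _ hX.ne'] <;> simp
  have hD := hno t ht0 ht1
  set D := ‖b - (t : ℂ) * x‖ with hDd
  have hD0 : 0 < D := by linarith
  have hxm : (x * (starRingEnd ℂ) (b - (t : ℂ) * x)).re = s - t * X2 := by
    rw [hs, hX2, ip_eq, ip_eq, ip_eq]
    simp
    ring
  have hbm : (b * (starRingEnd ℂ) (b - (t : ℂ) * x)).re = D ^ 2 + t * (s - t * X2) := by
    have e := ip_self (b - (t : ℂ) * x)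
    rw [← hDd, ip_eq] at e
    rw [← hxm, ← e, ip_eq, ip_eq]
    simp
    ring
  have hsc : ∀ z : ℂ, (z * (starRingEnd ℂ) (((D⁻¹ : ℝ) : ℂ) * (b - (t : ℂ) * x))).re =
      D⁻¹ * (z * (starRingEnd ℂ) (b - (t : ℂ) * x)).re := by
    intro z
    rw [ip_eq, ip_eq]
    simp only [Complex.re_ofReal_mul, Complex.im_ofReal_mul]
    ring
  refine ⟨((D⁻¹ : ℝ) : ℂ) * (b - (t : ℂ) * x), ?_, ?_, ?_⟩
  · rw [norm_mul, Complex.norm_real, Real.norm_of_nonneg (inv_nonneg.2 hD0.le), ← hDd]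
    exact inv_mul_cancel₀ hD0.ne'
  · rw [hsc, hbm, inv_mul_eq_div, le_div_iff₀ hD0]
    nlinarith
  · rw [hsc, hsc, hbm, hxm]
    have e1 : D⁻¹ * (D ^ 2 + t * (s - t * X2)) = D + D⁻¹ * (t * (s - t * X2)) := by
      field_simp
    rw [e1]
    have h3 : D⁻¹ * (s - t * X2) ≤ D⁻¹ * (t * (s - t * X2)) := by
      apply mul_le_mul_of_nonneg_left _ (inv_nonneg.2 hD0.le)
      linarith
    linarith

end Pool.Agent.TE25
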