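import Pool.Agent.TE25.ShB
import Pool.Agent.TE25.ShD
import Pool.Agent.TD25.Arc
import Pool.Agent.TD25.Dir

/-!
# TE25/CorA: the two intersection points of a boundary disk with the circle about `h`

`cparam`: `b - h` is in the closed unit disk about `b = pt d β` (`h ≤ 1`), so `lift_ball` gives `b - h = pt ρ s`, `ρ = ‖b - h‖`, `|s - β| ≤ arcsin (1/d)`.
`τ = arccos (ρ / 2)`, `ρ ≥ d - h ≥ 1.0092`, so `cos τ > 1/2`, `τ < π/3`; `pt 1 (s - τ) + pt 1 (s + τ) = pt (2 cos τ) s`.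
`cright`: with `P = h + pt 1 (s + τ)`, `b - P = pt 1 (s - τ)`, `x = h + pt 1 σ`: `Sh_near` gives `0 ≤ cos (σ - s + τ) - cos (2 τ)`. If `σ - s > τ` then
`2 τ < σ - s + τ ≤ π + τ < 2 π - 2 τ`, where `cos < cos (2 τ)`: contradiction.
`cleft`: symmetric (`P = h + pt 1 (s - τ)`, `b - P = pt 1 (s + τ)`).
`cfar`: `‖x - b‖^2 = 1 + 4 cos^2 τ - 4 cos τ cos (σ - s) > 1`, as `cos (σ - s) < cos τ` (`τ < |σ - s| ≤ π`), so `Sh_beyond`.
-/

set_option autoImplicit false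

namespace Pool.Agent.TE25

open Real Pool.Agent.TD25

private theorem pt_reA (r t : ℝ) : (pt r t).re = r * cos t := by
  unfold pt
  rw [Complex.re_ofReal_mul, Complex.exp_ofReal_mul_I_re]

private theorem pt_imA (r t : ℝ) : (pt r t).im = r * sin t := by
  unfold pt
  rw [Complex.im_ofReal_mul, Complex.exp_ofReal_mul_I_im]

private theorem pt_two (s τ : ℝ) : pt 1 (s - τ) + pt 1 (s + τ) = pt (2 * cos τ) s := by
  apply Complex.ext
  · rw [Complex.add_re, pt_reA, pt_reA, pt_reA, cos_sub, cos_add]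
    ring
  · rw [Complex.add_im, pt_imA, pt_imA, pt_imA, sin_sub, sin_add]
    ring

private theorem re_conj (a b : ℝ) : (pt 1 a * (starRingEnd ℂ) (pt 1 b)).re = cos (a - b) := by
  rw [Complex.mul_re, Complex.conj_re, Complex.conj_im, pt_reA, pt_reA, pt_imA, pt_imA, cos_sub]
  ring

private theorem cos_aux {τ y : ℝ} (t0 : 0 ≤ τ) (t1 : τ < π / 3) (y1 : 2 * τ < y) (y2 : y ≤ π + τ) :
    cos y < cos (2 * τ) := by
  have hpi := Real.pi_pos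
  rcases le_or_gt y π with hy | hy
  · exact cos_lt_cos_of_nonneg_of_le_pi (by linarith) hy y1
  · have h1 : cos y = cos (2 * π - y) := by
      rw [cos_two_pi_sub]
    rw [h1]
    exact cos_lt_cos_of_nonneg_of_le_pi (by linarith) (by linarith) (by linarith)

theorem cparam {h d β : ℝ} (h0 : 0 ≤ h) (h1 : h ≤ 0.76) (hd : 1.7692 ≤ d) (h2 : ‖pt d β - (h : ℂ)‖ ≤ 2) :
    ∃ s τ : ℝ, 0 ≤ τ ∧ τ < π / 3 ∧ pt d β = (h : ℂ) + pt 1 (s - τ) + pt 1 (s + τ) ∧ |s - β| ≤ arcsin (1 / d) := by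
  have hx : ‖(pt d β - (h : ℂ)) - pt d β‖ ≤ 1 := by
    rw [show (pt d β - (h : ℂ)) - pt d β = -(h : ℂ) by ring, norm_neg, Complex.norm_real, Real.norm_of_nonneg h0]
    linarith
  obtain ⟨s, hs, hsb⟩ := lift_ball (by linarith : (1 : ℝ) < d) hx
  set ρ := ‖pt d β - (h : ℂ)‖ with hρ
  have hρ1 : d - h ≤ ρ := by
    have h3 := norm_sub_norm_le (pt d β) (h : ℂ)
    rw [norm_pt (by linarith : (0 : ℝ) ≤ d), Complex.norm_real, Real.norm_of_nonneg h0] at h3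
    exact h3
  have hc : cos (arccos (ρ / 2)) = ρ / 2 := cos_arccos (by linarith) (by linarith)
  refine ⟨s, arccos (ρ / 2), arccos_nonneg _, ?_, ?_, hsb⟩
  · have h4 : arccos (1 / 2) = π / 3 := by
      rw [← cos_pi_div_three]
      exact arccos_cos (by linarith [Real.pi_pos]) (by linarith [Real.pi_pos])
    rw [← h4]
    exact arccos_lt_arccos (by norm_num) (by linarith) (by linarith)
  · rw [add_assoc, pt_two, hc, show 2 * (ρ / 2) = ρ by ring, ← hs]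
    ring

theorem cright {h s τ σ : ℝ} {b : ℂ} (t0 : 0 ≤ τ) (t1 : τ < π / 3) (hb : b = (h : ℂ) + pt 1 (s - τ) + pt 1 (s + τ))
    (hb1 : 1 < ‖b‖) (hn : 0 ≤ (((h : ℂ) + pt 1 (s + τ)) * (starRingEnd ℂ) (pt 1 (s - τ))).re)
    (hS : Sh b ((h : ℂ) + pt 1 σ)) (hσ : |σ - s| ≤ π) : σ ≤ s + τ := by
  have hbP : b - ((h : ℂ) + pt 1 (s + τ)) = pt 1 (s - τ) := by
    rw [hb]
    ring
  have hP : ‖((h : ℂ) + pt 1 (s + τ)) - b‖ = 1 := by
    rw [norm_sub_rev, hbP, norm_pt zero_le_one]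
  have h3 := Sh_near hb1 hS hP (by rw [hbP]; exact hn)
  rw [hbP, show ((h : ℂ) + pt 1 σ) - ((h : ℂ) + pt 1 (s + τ)) = pt 1 σ - pt 1 (s + τ) by ring,
    sub_mul, Complex.sub_re, re_conj, re_conj, show s + τ - (s - τ) = 2 * τ by ring] at h3
  by_contra hcon
  push Not at hcon
  have h5 := (abs_le.1 hσ).2
  have h4 := cos_aux t0 t1 (show 2 * τ < σ - (s - τ) by linarith) (by linarith)
  linarith

theorem cleft {h s τ σ : ℝ} {b : ℂ} (t0 : 0 ≤ τ) (t1 : τ < π / 3) (hb : b = (h : ℂ) + pt 1 (s - τ) + pt 1 (s + τ))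
    (hb1 : 1 < ‖b‖) (hn : 0 ≤ (((h : ℂ) + pt 1 (s - τ)) * (starRingEnd ℂ) (pt 1 (s + τ))).re)
    (hS : Sh b ((h : ℂ) + pt 1 σ)) (hσ : |σ - s| ≤ π) : s - τ ≤ σ := by
  have hbP : b - ((h : ℂ) + pt 1 (s - τ)) = pt 1 (s + τ) := by
    rw [hb]
    ring
  have hP : ‖((h : ℂ) + pt 1 (s - τ)) - b‖ = 1 := by
    rw [norm_sub_rev, hbP, norm_pt zero_le_one]
  have h3 := Sh_near hb1 hS hP (by rw [hbP]; exact hn)
  rw [hbP, show ((h : ℂ) + pt 1 σ) - ((h : ℂ) + pt 1 (s - τ)) = pt 1 σ - pt 1 (s - τ) by ring,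
    sub_mul, Complex.sub_re, re_conj, re_conj, ← cos_neg (s - τ - (s + τ)), ← cos_neg (σ - (s + τ)),
    show -(s - τ - (s + τ)) = 2 * τ by ring] at h3
  by_contra hcon
  push Not at hcon
  have h5 := (abs_le.1 hσ).1
  have h4 := cos_aux t0 t1 (show 2 * τ < -(σ - (s + τ)) by linarith) (by linarith)
  linarith

theorem cfar {h s τ σ : ℝ} {b : ℂ} (t0 : 0 ≤ τ) (t1 : τ < π / 3) (hb : b = (h : ℂ) + pt 1 (s - τ) + pt 1 (s + τ))
    (hb1 : 1 < ‖b‖) (hS : Sh b ((h : ℂ) + pt 1 σ)) (hσ : |σ - s| ≤ π) (hτ : τ < |σ - s|) :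
    ‖b‖ ^ 2 - 1 ≤ ‖(h : ℂ) + pt 1 σ‖ ^ 2 := by
  apply Sh_beyond hb1 hS
  have h1 : (h : ℂ) + pt 1 σ - b = pt 1 σ - pt (2 * cos τ) s := by
    rw [hb, add_assoc, pt_two]
    ring
  have h2 := norm_pt_sub_sq 1 σ (2 * cos τ) s
  rw [← h1] at h2
  have hc : 0 < cos τ := cos_pos_of_mem_Ioo ⟨by linarith [Real.pi_pos], by linarith [Real.pi_pos]⟩
  have h3 := cos_lt_cos_of_nonneg_of_le_pi t0 hσ hτ
  rw [cos_abs] at h3
  have h4 := mul_pos hc (sub_pos.2 h3)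
  have h5 : 0 ≤ ‖(h : ℂ) + pt 1 σ - b‖ := norm_nonneg _
  by_contra hcon
  push Not at hcon
  nlinarith

end Pool.Agent.TE25
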