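import Pool.Agent.TE25.Corner

/-!
# TE25/CorG: the corner inequality, general position

`b = pt ‖b‖ β0` (`exists_pt`). `XD b θ = ‖b‖ sin (θ - β0)`. `cornerR`: `corner` with `β = β0 - α`, `δe = θe - α`, `δU = θU - α`; `Sh_rot` with `e = pt 1 (-α)`:
`pt r θ * pt 1 (-α) = pt r (θ - α)`.
`cornerL`: `corner` with `β = -(β0 - α)`, `δe = -(θf - α)`, `δU = -(θU - α)`; `Sh_conj` (`conj (pt r t) = pt r (-t)`), `rd_neg`, `sg_neg`, `GG_neg`,
`sin (-x) = -sin x`.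
-/

set_option autoImplicit false

namespace Pool.Agent.TE25

open Real Pool.Agent.TD25

private theorem pt_re (r t : ℝ) : (pt r t).re = r * cos t := by
  unfold pt
  rw [Complex.re_ofReal_mul, Complex.exp_ofReal_mul_I_re]

private theorem pt_im (r t : ℝ) : (pt r t).im = r * sin t := by
  unfold pt
  rw [Complex.im_ofReal_mul, Complex.exp_ofReal_mul_I_im]

private theorem XD_pt (r β θ : ℝ) : XD (pt r β) θ = r * sin (θ - β) := by
  unfold XD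
  rw [Complex.mul_im, Complex.conj_re, Complex.conj_im, pt_re, pt_re, pt_im, pt_im, sin_sub]
  ring

private theorem pt_mul (r t u : ℝ) : pt r t * pt 1 u = pt r (t + u) := by
  apply Complex.ext
  · rw [Complex.mul_re, pt_re, pt_re, pt_re, pt_im, pt_im, cos_add]
    ring
  · rw [Complex.mul_im, pt_re, pt_re, pt_im, pt_im, pt_im, sin_add]
    ring

private theorem pt_conj (r t : ℝ) : (starRingEnd ℂ) (pt r t) = pt r (-t) := by
  apply Complex.ext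
  · rw [Complex.conj_re, pt_re, pt_re, cos_neg]
  · rw [Complex.conj_im, pt_im, pt_im, sin_neg]
    ring

theorem XD_add (b : ℂ) (θ : ℝ) (k : ℤ) : XD b (θ + 2 * π * k) = XD b θ := by
  unfold XD
  rw [pt_add_two_pi]

theorem cornerR {R h α θe θU : ℝ} {b : ℂ} (hR : OkR R) (h0 : 0.05 ≤ h) (h1 : h ≤ 0.76) (hb1 : R - 1 ≤ ‖b‖)
    (hb2 : ‖b‖ ^ 2 ≤ R ^ 2 - 1) (e1 : θe ≤ θU) (e2 : θU < θe + π) (u0 : α < θU) (u1 : θU < α + π)
    (se : Sh b (bp h α θe)) (sU : Sh b (bp h α θU)) :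
    1 / 2 * fi R (‖b‖ ^ 2) - GG h (sg h (θe - α)) + 0.37 * (θU - α) - 0.14 * XD b θU ≤
      π / 4 - 0.749 + 0.37 * (π / 2) := by
  obtain ⟨β0, hβ⟩ := exists_pt b
  obtain ⟨d, hd⟩ : ∃ d, d = ‖b‖ := ⟨_, rfl⟩
  rw [← hd] at hb1 hb2 hβ ⊢
  have hrot : ‖pt 1 (-α)‖ = 1 := norm_pt zero_le_one
  have key : ∀ θ : ℝ, Sh b (bp h α θ) → Sh (pt d (β0 - α)) (pt (rd h (θ - α)) (θ - α)) := by
    intro θ hS
    rw [← Sh_rot hrot, hβ] at hS
    unfold bp at hS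
    rw [pt_mul, pt_mul] at hS
    exact hS
  have h3 := corner hR h0 h1 hb1 hb2 (by linarith : θe - α ≤ θU - α) (by linarith) (by linarith)
    (by linarith) (key θe se) (key θU sU)
  have e : θU - α - (β0 - α) = θU - β0 := by ring
  rw [e] at h3
  rw [hβ, XD_pt]
  exact h3

theorem cornerL {R h α θf θU : ℝ} {b : ℂ} (hR : OkR R) (h0 : 0.05 ≤ h) (h1 : h ≤ 0.76) (hb1 : R - 1 ≤ ‖b‖)
    (hb2 : ‖b‖ ^ 2 ≤ R ^ 2 - 1) (e1 : θU ≤ θf) (e2 : θf < θU + π) (u0 : θU < α) (u1 : α - π < θU)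
    (sf : Sh b (bp h α θf)) (sU : Sh b (bp h α θU)) :
    1 / 2 * fi R (‖b‖ ^ 2) + GG h (sg h (θf - α)) - 0.37 * (θU - α) + 0.14 * XD b θU ≤
      π / 4 - 0.749 + 0.37 * (π / 2) := by
  obtain ⟨β0, hβ⟩ := exists_pt b
  obtain ⟨d, hd⟩ : ∃ d, d = ‖b‖ := ⟨_, rfl⟩
  rw [← hd] at hb1 hb2 hβ ⊢
  have hrot : ‖pt 1 (-α)‖ = 1 := norm_pt zero_le_one
  have key : ∀ θ : ℝ, Sh b (bp h α θ) → Sh (pt d (-(β0 - α))) (pt (rd h (-(θ - α))) (-(θ - α))) := by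
    intro θ hS
    rw [← Sh_rot hrot, hβ] at hS
    unfold bp at hS
    rw [pt_mul, pt_mul, ← Sh_conj, pt_conj, pt_conj] at hS
    rw [rd_neg]
    exact hS
  have h3 := corner hR h0 h1 hb1 hb2 (by linarith : -(θf - α) ≤ -(θU - α)) (by linarith) (by linarith)
    (by linarith) (key θf sf) (key θU sU)
  have e : -(θU - α) - -(β0 - α) = -(θU - β0) := by ring
  rw [e, sin_neg, sg_neg, GG_neg] at h3
  rw [hβ, XD_pt]
  linarith

end Pool.Agent.TE25
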