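import Pool.Agent.TE25.CorA
import Pool.Agent.TE25.Rad
import Pool.Agent.TE25.Sgm
import Pool.Agent.TE25.Rays

/-!
# TE25/CorS: the setting of the corner inequality

`pt (rd h δ) δ = bp h 0 δ = h + pt 1 (sg h δ)` (`bp_eq` with `α = 0`, `pt h 0 = h`).
`arcsin (1/d) ≤ arcsin (1/1.7692) ≤ 0.6009` (`sin 0.6009 ≥ 0.5653 ≥ 1/1.7692`; `sin_ge_of_chk` of `TD25/LemK`).
`cs_exists`: `Sh_dir` for the point of direction `δU`: `δU + 2πm` is within `arcsin (1/d)` of `β`; put `β' = β - 2πm` (`pt d β' = pt d β`). In the same way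
`|δe + 2πn - β'| ≤ arcsin (1/d)` for some integer `n`; as `0 ≤ δU - δe < π` and `2 * 0.6009 < π`, `n = 0`. `‖pt d β - h‖ ≤ 2` because a point `t x` (`x` on the circle
about `h`, `0 ≤ t ≤ 1`; so `t x` in the closed disk about `h`, which contains `0`) is in the closed disk about `pt d β`. Then `cparam` (for `β'`).
`cs_U`, `cs_e`: `|sg h δ - s| ≤ |sg h δ - δ| + |δ - β| + |β - s| ≤ 0.8634 + 2 * 0.6009 < π`.
`cs_Xr`: `P = pt (rd h δr) δr = h + pt 1 (s + τ)`, `pt d β = P + pt 1 (s - τ)`: multiply by `pt 1 (-δr)`: the imaginary part is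
`d sin (β - δr) = sin (s - τ - δr)` and `d^2 = rd^2 + 1 + 2 rd cos (δr - (s - τ))`.
`cs_nr`: `Re (P conj (pt 1 (s - τ))) = rd h δr cos (δr - (s - τ))`.
`cs_pi`: `between` with `θ1 = δU`, `θ = π`, `θ2 = δr`: `|δr - s| ≤ |sg h δr - δr| + τ ≤ 0.8634 + 1.0472`, so
`δr - δU ≤ 0.8634 + 1.0472 + 2 * 0.6009 = 3.1124 < π`; `h + pt 1 (s + τ)` has distance 1 from `pt d β`. So `Sh (pt d β) (pt (1 - h) π)` (`rd_pi`) and `Sh_norm`:
`d - 1 ≤ 1 - h`.
-/

set_option autoImplicit false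

namespace Pool.Agent.TE25

open Real Pool.Agent.TD25

/-- The setting: boundary disk about `pt d β`, circle about `h`, a corner in direction `δU`, and a point in direction `δe`. -/
structure CS (R h d β δe δU s τ : ℝ) : Prop where
  hR : OkR R
  h0 : 0.05 ≤ h
  h1 : h ≤ 0.76
  hd : R - 1 ≤ d
  hd2 : d ^ 2 ≤ R ^ 2 - 1
  e1 : δe ≤ δU
  e2 : δU < δe + π
  u0 : 0 < δU
  u1 : δU < π
  se : Sh (pt d β) (pt (rd h δe) δe)
  sU : Sh (pt d β) (pt (rd h δU) δU)
  t0 : 0 ≤ τ
  t1 : τ < π / 3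
  hb : pt d β = (h : ℂ) + pt 1 (s - τ) + pt 1 (s + τ)
  bU : |δU - β| ≤ 0.6009
  be : |δe - β| ≤ 0.6009
  bs : |s - β| ≤ 0.6009
  bd : arcsin (1 / d) ≤ 0.6009

private theorem pt_re (r t : ℝ) : (pt r t).re = r * cos t := by
  unfold pt
  rw [Complex.re_ofReal_mul, Complex.exp_ofReal_mul_I_re]

private theorem pt_im (r t : ℝ) : (pt r t).im = r * sin t := by
  unfold pt
  rw [Complex.im_ofReal_mul, Complex.exp_ofReal_mul_I_im]

private theorem pt_zero (h : ℝ) : pt h 0 = (h : ℂ) := by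
  simp [pt]

private theorem bp_zero (h θ : ℝ) : bp h 0 θ = pt (rd h θ) θ := by
  unfold bp
  rw [sub_zero]

private theorem pt_eq_imp {r t t' : ℝ} (hr : 0 < r) (h : pt r t = pt r t') : ∃ m : ℤ, t = t' + 2 * π * m := by
  unfold pt at h
  have hr' : (r : ℂ) ≠ 0 := by exact_mod_cast hr.ne'
  have h1 := mul_left_cancel₀ hr' h
  obtain ⟨n, hn⟩ := Complex.exp_eq_exp_iff_exists_int.1 h1
  refine ⟨n, ?_⟩
  have h2 := congrArg Complex.im hn
  simp at h2
  linarith

open Pool.Agent.SB19 in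
private theorem sin_num : 0.5653 ≤ sin 0.6009 := by
  have h : chk (.add (.sin (.num 6009 10000)) (.neg (.num 5653 10000))) .L 0 0 0 0 0 0 = true := by
    decide +kernel
  have h1 := nonneg_of_chk _ _ _ _ _ _ _ _ h 0 0 0 le_rfl le_rfl le_rfl (by simp) (by simp) (by simp)
  simp only [Ex.eval] at h1
  norm_num at h1 ⊢
  linarith

private theorem arcsin_d {R d : ℝ} (hR : OkR R) (hd : R - 1 ≤ d) : arcsin (1 / d) ≤ 0.6009 := by
  have b1 := hR.1
  have hpi := Real.pi_gt_three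
  have hd' : 1.7692 ≤ d := by linarith
  have h1 : 1 / d ≤ 0.5653 := by
    rw [div_le_iff₀ (by linarith)]
    nlinarith
  apply (arcsin_le_iff_le_sin' ?_).2 (h1.trans sin_num)
  constructor <;> linarith

theorem rd_h {h : ℝ} (h0 : 0 ≤ h) (h1 : h < 1) (δ : ℝ) : pt (rd h δ) δ = (h : ℂ) + pt 1 (sg h δ) := by
  have := bp_eq h0 h1 0 δ
  rw [bp_zero, pt_zero, sub_zero, zero_add] at this
  exact this

theorem cs_exists {R h d β δe δU : ℝ} (hR : OkR R) (h0 : 0.05 ≤ h) (h1 : h ≤ 0.76) (hd : R - 1 ≤ d)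
    (hd2 : d ^ 2 ≤ R ^ 2 - 1) (e1 : δe ≤ δU) (e2 : δU < δe + π) (u0 : 0 < δU) (u1 : δU < π)
    (se : Sh (pt d β) (pt (rd h δe) δe)) (sU : Sh (pt d β) (pt (rd h δU) δU)) :
    ∃ (β' s τ : ℝ) (m : ℤ), β' = β + 2 * π * m ∧ CS R h d β' δe δU s τ := by
  have b1 := hR.1
  have hpi := Real.pi_gt_three
  have h0' : 0 ≤ h := by linarith
  have h1' : h < 1 := by linarith
  have hd' : 1.7692 ≤ d := by linarith
  have hd1 : 1 < d := by linarith
  have had := arcsin_d hR hd
  have hrU := rd_pos (δ := δU) h0' h1'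
  have hre := rd_pos (δ := δe) h0' h1'
  obtain ⟨t, ht, hta⟩ := Sh_dir hd1 sU
  rw [norm_pt hrU.le] at ht
  obtain ⟨m, hm⟩ := pt_eq_imp hrU ht
  obtain ⟨t', ht', hta'⟩ := Sh_dir hd1 se
  rw [norm_pt hre.le] at ht'
  obtain ⟨n, hn⟩ := pt_eq_imp hre ht'
  have hb : pt d (β + 2 * π * m) = pt d β := pt_add_two_pi d β m
  have hUb : |δU - (β + 2 * π * m)| ≤ 0.6009 := by
    have : δU - (β + 2 * π * m) = t - β := by rw [hm]; ring
    rw [this]
    linarith
  have heb : |δe - (β + 2 * π * n)| ≤ 0.6009 := by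
    have : δe - (β + 2 * π * n) = t' - β := by rw [hn]; ring
    rw [this]
    linarith
  have hmn : n = m := by
    have a1 := abs_le.1 hUb
    have a2 := abs_le.1 heb
    have c1 : 2 * π * ((n : ℝ) - m) < 2 * π := by
      have : 2 * π * ((n : ℝ) - m) = (β + 2 * π * n) - (β + 2 * π * m) := by ring
      rw [this]
      linarith [a1.1, a1.2, a2.1, a2.2]
    have c2 : -(2 * π) < 2 * π * ((n : ℝ) - m) := by
      have : 2 * π * ((n : ℝ) - m) = (β + 2 * π * n) - (β + 2 * π * m) := by ring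
      rw [this]
      linarith [a1.1, a1.2, a2.1, a2.2]
    have c3 : (n : ℝ) - m < 1 := by
      by_contra hc
      push Not at hc
      nlinarith
    have c4 : -1 < (n : ℝ) - m := by
      by_contra hc
      push Not at hc
      nlinarith
    have c5 : n - m < 1 := by exact_mod_cast c3
    have c6 : -1 < n - m := by exact_mod_cast c4
    omega
  rw [hmn] at heb
  have hdist : ‖pt d (β + 2 * π * m) - (h : ℂ)‖ ≤ 2 := by
    rw [hb]
    obtain ⟨t0, p0, p1, p2⟩ := sU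
    have e : (t0 : ℂ) * pt (rd h δU) δU = pt (t0 * rd h δU) δU := by
      unfold pt
      push_cast
      ring
    rw [e] at p2
    have h3 : ‖pt (t0 * rd h δU) δU - pt h 0‖ ≤ 1 := by
      rw [bp_in_iff_le h0' h1' (mul_nonneg p0 hrU.le), sub_zero]
      nlinarith
    rw [pt_zero] at h3
    have h4 : pt d β - (h : ℂ) = -(pt (t0 * rd h δU) δU - pt d β) + (pt (t0 * rd h δU) δU - (h : ℂ)) := by
      ring
    rw [h4]
    refine (norm_add_le _ _).trans ?_
    rw [norm_neg]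
    linarith
  obtain ⟨s, τ, hτ0, hτ1, hbe, hs⟩ := cparam h0' h1 hd' hdist
  refine ⟨β + 2 * π * m, s, τ, m, rfl, ?_⟩
  exact
    { hR := hR, h0 := h0, h1 := h1, hd := hd, hd2 := hd2, e1 := e1, e2 := e2, u0 := u0, u1 := u1
      se := by rw [hb]; exact se
      sU := by rw [hb]; exact sU
      t0 := hτ0, t1 := hτ1, hb := hbe, bU := hUb, be := heb, bs := hs.trans had, bd := had }

theorem cs_U {R h d β δe δU s τ : ℝ} (C : CS R h d β δe δU s τ) : |sg h δU - s| ≤ π := by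
  have hpi := Real.pi_gt_three
  have h0 := C.h0
  have a1 := abs_le.1 (sg_dist (by linarith) C.h1 δU)
  have a2 := abs_le.1 C.bU
  have a3 := abs_le.1 C.bs
  rw [abs_le]
  constructor <;> linarith [a1.1, a1.2, a2.1, a2.2, a3.1, a3.2]

theorem cs_e {R h d β δe δU s τ : ℝ} (C : CS R h d β δe δU s τ) : |sg h δe - s| ≤ π := by
  have hpi := Real.pi_gt_three
  have h0 := C.h0
  have a1 := abs_le.1 (sg_dist (by linarith) C.h1 δe)
  have a2 := abs_le.1 C.be
  have a3 := abs_le.1 C.bs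
  rw [abs_le]
  constructor <;> linarith [a1.1, a1.2, a2.1, a2.2, a3.1, a3.2]

private theorem cs_P {R h d β δe δU s τ δr : ℝ} (C : CS R h d β δe δU s τ) (hr : sg h δr = s + τ) :
    (h : ℂ) + pt 1 (s + τ) = pt (rd h δr) δr := by
  have h0 := C.h0
  have h1 := C.h1
  rw [rd_h (by linarith) (by linarith) δr, hr]

private theorem cs_b {R h d β δe δU s τ δr : ℝ} (C : CS R h d β δe δU s τ) (hr : sg h δr = s + τ) :
    pt d β = pt (rd h δr) δr + pt 1 (s - τ) := by
  rw [C.hb, ← cs_P C hr]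
  ring

theorem cs_Xr {R h d β δe δU s τ δr : ℝ} (C : CS R h d β δe δU s τ) (hr : sg h δr = s + τ) :
    d * sin (δr - β) = sin (δr - (s - τ)) ∧
      d ^ 2 = rd h δr ^ 2 + 1 + 2 * rd h δr * cos (δr - (s - τ)) := by
  have h := cs_b C hr
  have hre := congrArg Complex.re h
  have him := congrArg Complex.im h
  rw [Complex.add_re, pt_re, pt_re, pt_re, one_mul] at hre
  rw [Complex.add_im, pt_im, pt_im, pt_im, one_mul] at him
  generalize s - τ = v at *
  constructor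
  · rw [sin_sub, sin_sub]
    have : d * (sin δr * cos β - cos δr * sin β) = sin δr * (d * cos β) - cos δr * (d * sin β) := by ring
    rw [this, hre, him]
    ring
  · have e1 : d ^ 2 = (d * cos β) ^ 2 + (d * sin β) ^ 2 := by
      have := sin_sq_add_cos_sq β
      linear_combination (-d ^ 2) * this
    rw [e1, hre, him, cos_sub]
    have f1 := sin_sq_add_cos_sq δr
    have f2 := sin_sq_add_cos_sq v
    generalize rd _ δr = ρ
    linear_combination ρ ^ 2 * f1 + f2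

theorem cs_nr {R h d β δe δU s τ δr : ℝ} (C : CS R h d β δe δU s τ) (hr : sg h δr = s + τ) :
    (((h : ℂ) + pt 1 (s + τ)) * (starRingEnd ℂ) (pt 1 (s - τ))).re = rd h δr * cos (δr - (s - τ)) := by
  rw [cs_P C hr, Complex.mul_re, Complex.conj_re, Complex.conj_im, pt_re, pt_re, pt_im, pt_im]
  generalize s - τ = v
  rw [cos_sub]
  ring

theorem cs_pi {R h d β δe δU s τ δr : ℝ} (C : CS R h d β δe δU s τ) (hr : sg h δr = s + τ) (hp : π ≤ δr) :
    d - 1 ≤ 1 - h := by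
  have h0 := C.h0
  have h1 := C.h1
  have h0' : 0 ≤ h := by linarith
  have h1' : h < 1 := by linarith
  have hR := C.hR.1
  have hd := C.hd
  have hd1 : 1 < d := by linarith
  have hpi := Real.pi_gt_d2
  have hpi2 := Real.pi_lt_d4
  have ht1 := C.t1
  have ht0 := C.t0
  have a1 := abs_le.1 (sg_dist h0' C.h1 δr)
  have a2 := abs_le.1 C.bU
  have a3 := abs_le.1 C.bs
  rw [hr] at a1
  have hlt : δr < δU + π := by linarith [a1.1, a1.2, a2.1, a2.2, a3.1, a3.2]
  have hb1 : 1 < ‖pt d β‖ := by rw [norm_pt (by linarith)]; exact hd1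
  have s1 : Sh (pt d β) (bp h 0 δU) := by rw [bp_zero]; exact C.sU
  have s2 : Sh (pt d β) (bp h 0 δr) := by
    rw [bp_zero]
    apply Sh_of_ball
    rw [cs_b C hr, sub_add_cancel_left, norm_neg, norm_pt zero_le_one]
  have s3 := between h0' h1' hb1 C.u1.le hp hlt s1 s2
  rw [bp_zero, rd_pi] at s3
  have := Sh_norm hb1 s3
  rwa [norm_pt (by linarith), norm_pt (by linarith)] at this

end Pool.Agent.TE25
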