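import Pool.Agent.TE25.NumDefs

/-!
# TE25/NumG: three upper bounds for the potential (verified Taylor models)

Proof. `numGs`: `of_box` at `(h, σ, 0)`, `oGs` contradicts `hy`. `numGa`: at `(h, 1.0453, 0)`. `numGb`: put `σ = sg h 1.2023`, `0 ≤ σ ≤ 2` (`sg_dist`
is not needed: `arcsin (h sin δ) ≤ arcsin 0.76 ≤ 0.79`, or any bound `≤ 0.797`, e.g. `arcsin x ≤ π / 2 * x`  is not enough; use
`h sin 1.2023 ≤ 0.76 * 0.9329 ≤ sin 0.79`; `sin_ge_of_chk` of `TD25/LemK`). The point `h + e^{iσ}` has direction `1.2023`: `sin σ = rd sin 1.2023`,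
`h + cos σ = rd cos 1.2023` (with `ε = arcsin (h sin δ)`: `sin σ = sin δ cos ε + cos δ h sin δ`, `cos σ = cos δ cos ε - h sin^2 δ`), so
`sin σ cos 1.2023 - (h + cos σ) sin 1.2023 = 0` and `oGb` is impossible.
-/

set_option autoImplicit false

namespace Pool.Agent.TE25

open Real Pool.Agent.SB19 Pool.Agent.TD25

theorem chkGs : chk2 [eGs] [oGs] (.Y (.Y .L (.X (.X (.Y (.Y .L (.X .D .L)) (.X .D (.Y (.Y .L (.X .D .L)) (.X .D (.Y (.X .D .L) .D))))) .L) .L)) (.X (.Y (.X .D (.Y (.X (.Y (.X (.Y (.X .D .L) .D) .L) .D) (.Y .L (.Y .L (.X (.X .D .L) .L)))) (.X .D (.Y (.X .D (.Y (.X .D .L) .D)) .D)))) .D) (.Y (.Y .L (.X (.Y .L (.X (.X .D (.X .D .L)) .L)) .L)) (.Y (.X (.Y (.X .D (.Y (.X .D .L) .D)) .D) (.X (.Y .L .D) .L)) .D))))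
    ((471859 + 796918) * 524288) ((796918 - 471859) * 524288) ((0 + 1468007) * 524288) ((1468007 - 0) * 524288)
    ((0 + 1) * 524288) ((1 - 0) * 524288) = true := by
  decide +kernel

theorem chkGa : chk2 [eGa2] [] .L
    ((471859 + 796918) * 524288) ((796918 - 471859) * 524288) ((1096076 + 1096077) * 524288) ((1096077 - 1096076) * 524288)
    ((0 + 1) * 524288) ((1 - 0) * 524288) = true := by
  decide +kernel

theorem chkGb : chk2 [eGb2] [oGb] (.Y .L (.Y .L (.Y (.X (.X (.Y .L (.Y (.X (.X (.X (.Z (.Y .L .D) (.Y .L .D)) .L) .L) .L) (.X .D (.X (.X .D .L) .L)))) .L) .L) (.X (.Y (.X .D (.Y (.X (.X .D (.X .D .L)) .L) .D)) .D) (.Y (.X .L .L) (.X (.Y (.X .D (.X .D .L)) .D) (.X (.Y .L (.X .D .L)) .L)))))))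
    ((471859 + 796918) * 524288) ((796918 - 471859) * 524288) ((0 + 2097152) * 524288) ((2097152 - 0) * 524288)
    ((0 + 1) * 524288) ((1 - 0) * 524288) = true := by
  decide +kernel

private theorem chkAs : chk2 [eSub (.sin .X) (.mul (.num 76 100) (.sin (.num 12023 10000)))] [] .L
    ((828375 + 828376) * 524288) ((828376 - 828375) * 524288) ((0 + 1) * 524288) ((1 - 0) * 524288)
    ((0 + 1) * 524288) ((1 - 0) * 524288) = true := by
  decide +kernel

theorem numGs {h σ : ℝ} (h0 : 0.45 ≤ h) (h1 : h ≤ 0.76) (s0 : 0 ≤ σ) (s1 : σ ≤ 1.4)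
    (hy : 2.13 < 1 + h ^ 2 + 2 * h * cos σ) : GG h σ ≤ 0.01 := by
  have v : (eG .X .Y (.sin .Y) (.cos .Y)).eval h σ 0 = GG h σ := by
    rw [ev_eG _ _ _ _ _ _ _ rfl rfl]
    rfl
  rcases of_box _ _ _ 471859 796918 0 1468007 0 1 (by norm_num) (by norm_num) (by norm_num) chkGs
      (x := h) (y := σ) (z := 0) (by norm_num; linarith) (by norm_num; linarith)
      (by norm_num; linarith) (by norm_num; linarith) (by norm_num) (by norm_num)
      with ⟨d, hd, hd'⟩ | k
  · simp only [List.mem_cons, List.not_mem_nil, or_false] at hd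
    subst hd
    exfalso
    simp only [oGs, ev_eSub, ev_eSq, Ex.eval] at hd'
    norm_num at hd' hy
    linarith
  · have := k eGs (by simp)
    rw [eGs, ev_eSub, v] at this
    simp only [Ex.eval] at this
    norm_num at this ⊢
    linarith

theorem numGa {h : ℝ} (h0 : 0.45 ≤ h) (h1 : h ≤ 0.76) : GG h 1.0453 ≤ 0.04 := by
  have v : (eG .X .Y (.sin .Y) (.cos .Y)).eval h 1.0453 0 = GG h 1.0453 := by
    rw [ev_eG _ _ _ _ _ _ _ rfl rfl]
    rfl
  rcases of_box _ _ _ 471859 796918 1096076 1096077 0 1 (by norm_num) (by norm_num) (by norm_num) chkGa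
      (x := h) (y := 1.0453) (z := 0) (by norm_num; linarith) (by norm_num; linarith)
      (by norm_num) (by norm_num) (by norm_num) (by norm_num)
      with ⟨d, hd, hd'⟩ | k
  · simp at hd
  · have := k eGa2 (by simp)
    rw [eGa2, ev_eSub, v] at this
    simp only [Ex.eval] at this
    norm_num at this ⊢
    linarith

private theorem as_le : 0.76 * sin 1.2023 ≤ sin 0.79 := by
  rcases of_box _ _ _ 828375 828376 0 1 0 1 (by norm_num) (by norm_num) (by norm_num) chkAs
      (x := 0.79) (y := 0) (z := 0) (by norm_num) (by norm_num)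
      (by norm_num) (by norm_num) (by norm_num) (by norm_num)
      with ⟨d, hd, hd'⟩ | k
  · simp at hd
  · have := k _ (List.mem_singleton.2 rfl)
    simp only [ev_eSub, Ex.eval] at this
    norm_num at this ⊢
    linarith

theorem numGb {h : ℝ} (h0 : 0.45 ≤ h) (h1 : h ≤ 0.76) : GG h (sg h 1.2023) ≤ 0.115 := by
  have hpi := Real.pi_gt_three
  have hs0 : 0 ≤ sin 1.2023 := sin_nonneg_of_nonneg_of_le_pi (by norm_num) (by linarith)
  have hs1 := Real.sin_le_one 1.2023
  set ε : ℝ := arcsin (h * sin 1.2023) with hε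
  have hε0 : 0 ≤ ε := arcsin_nonneg.2 (by positivity)
  have hε1 : ε ≤ 0.79 := by
    rw [hε, arcsin_le_iff_le_sin' ⟨by linarith, by linarith⟩]
    exact (mul_le_mul_of_nonneg_right h1 hs0).trans as_le
  have hsε : sin ε = h * sin 1.2023 := by
    rw [hε, sin_arcsin (by nlinarith) (by nlinarith)]
  have hσ : sg h 1.2023 = 1.2023 + ε := rfl
  rw [hσ]
  set σ : ℝ := 1.2023 + ε with hσ'
  have hd : sin σ * cos 1.2023 - (h + cos σ) * sin 1.2023 = 0 := by
    have e1 : sin (σ - 1.2023) = h * sin 1.2023 := by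
      rw [hσ', add_sub_cancel_left, hsε]
    rw [sin_sub] at e1
    linarith
  have v : (eG .X .Y (.sin .Y) (.cos .Y)).eval h σ 0 = GG h σ := by
    rw [ev_eG _ _ _ _ _ _ _ rfl rfl]
    rfl
  rcases of_box _ _ _ 471859 796918 0 2097152 0 1 (by norm_num) (by norm_num) (by norm_num) chkGb
      (x := h) (y := σ) (z := 0) (by norm_num; linarith) (by norm_num; linarith)
      (by norm_num; linarith) (by norm_num; linarith) (by norm_num) (by norm_num)
      with ⟨d, hd, hd'⟩ | k
  · simp only [List.mem_cons, List.not_mem_nil, or_false] at hd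
    subst hd
    exfalso
    have e : ((12023 : ℕ) : ℝ) / ((10000 : ℕ) : ℝ) = 1.2023 := by norm_num
    simp only [oGb, ev_eSub, Ex.eval, e] at hd'
    push_cast at hd'
    linarith
  · have := k eGb2 (by simp)
    rw [eGb2, ev_eSub, v] at this
    simp only [Ex.eval] at this
    norm_num at this ⊢
    linarith

end Pool.Agent.TE25
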