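import Pool.Agent.TE25.GM
import Pool.Agent.TE25.NumG
import Pool.Agent.TE25.CorS

/-!
# TE25/CorM: three auxiliary estimates for the corner inequality

`cs_d`: `d^2 ≤ R^2 - 1 ≤ 2.7694^2 - 1 < 2.583^2`.
`mono37`: `|sin (v - β) - sin (u - β)| ≤ v - u` and `0.14 * 2.583 < 0.37`.
`GG_lo`: if `0 ≤ σ`: `GG_mono`, `GG_zero`. Otherwise `x = -σ ∈ (0, π]`, `cos x = cos σ`. If `x > 1.4` then `cos x ≤ cos 1.4 < 0.2` and
`1 + h^2 + 2 h cos x < 1 + 0.5776 + 0.304 < 2.13`. So `x ≤ 1.4`, `numGs`, `GG_neg`.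
-/

set_option autoImplicit false

namespace Pool.Agent.TE25

open Real Pool.Agent.TD25

theorem cs_d {R d : ℝ} (hR : OkR R) (hd : d ^ 2 ≤ R ^ 2 - 1) : d ≤ 2.583 := by
  obtain ⟨h1, h2⟩ := hR
  by_contra hc
  push Not at hc
  nlinarith

theorem mono37 {d u v β : ℝ} (hd0 : 0 ≤ d) (hd : d ≤ 2.583) (huv : u ≤ v) :
    0.37 * u - 0.14 * (d * sin (u - β)) ≤ 0.37 * v - 0.14 * (d * sin (v - β)) := by
  have h1 := Real.abs_sin_sub_sin_le (v - β) (u - β)
  have e : v - β - (u - β) = v - u := by ring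
  rw [e, abs_of_nonneg (sub_nonneg.2 huv)] at h1
  have h2 := (abs_le.1 h1).2
  have h3 : d * (sin (v - β) - sin (u - β)) ≤ d * (v - u) := mul_le_mul_of_nonneg_left h2 hd0
  have h4 : d * (v - u) ≤ 2.583 * (v - u) := mul_le_mul_of_nonneg_right hd (sub_nonneg.2 huv)
  nlinarith

theorem GG_lo {h σ : ℝ} (h0 : 0.45 ≤ h) (h1 : h ≤ 0.76) (hσ : -π ≤ σ) (hy : 2.13 < 1 + h ^ 2 + 2 * h * cos σ) :
    -0.01 ≤ GG h σ := by
  have hpi := Real.pi_gt_three
  have hpi2 := Real.pi_lt_d4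
  rcases le_or_gt 0 σ with h2 | h2
  · have := GG_mono (by linarith : (0 : ℝ) ≤ h) h1 h2
    rw [GG_zero] at this
    linarith
  · have hx0 : 0 ≤ -σ := by linarith
    have hx1 : -σ ≤ π := by linarith
    have hx : -σ ≤ 1.4 := by
      by_contra hc
      push Not at hc
      have h3 : cos (-σ) ≤ cos 1.4 := cos_le_cos_of_nonneg_of_le_pi (by norm_num) hx1 hc.le
      have h4 : cos 1.4 ≤ 0.2 := by
        rw [← sin_pi_div_two_sub]
        have : sin (π / 2 - 1.4) ≤ π / 2 - 1.4 := sin_le (by linarith)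
        linarith
      rw [cos_neg] at h3
      nlinarith
    have h3 := numGs h0 h1 hx0 hx (by rw [cos_neg]; exact hy)
    rw [GG_neg] at h3
    linarith

end Pool.Agent.TE25
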