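import Pool.Agent.TE25.CorS

/-!
# TE25/CorN1: the corner inequality, the farther intersection point on the near side

Setting `CS`; `P = h + pt 1 (s + τ)` is the intersection point of the two circles in the direction `δr`, on the near side (as seen from 0)
of the circle about `pt d β` (hypothesis `hn`). Put `η = δr - (s - τ)`, `ε = arcsin (h sin δr) = sg h δr - δr = s + τ - δr`, so `η = 2 τ - ε`.
`near_U`: `cright` for `σ = sg h δU` (`rd_h`, `C.sU`, `cs_U`) gives `sg h δU ≤ s + τ = sg h δr`; `sg_mono`.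
`near_facts`: `0 < δU ≤ δr < π`, so `0 ≤ ε ≤ 0.8634` (`sg_dist`) and `-0.8634 ≤ η ≤ 2 τ < 2 π / 3`. By `cs_nr` and `hn`, `rd_pos`: `0 ≤ cos η`, hence `η ≤ π / 2`
(otherwise `π/2 < η < 2π/3`, `cos η < 0`). `sin η ≥ sin (-ε) = -(h sin δr)` because `-π/2 ≤ -ε ≤ η ≤ π/2` (`sin_sg_sub`).
`rd h δr = ‖P‖ ≥ ‖b‖ - ‖b - P‖ = d - 1 ≥ R - 2` (`b - P = pt 1 (s - τ)`).
-/

set_option autoImplicit false

namespace Pool.Agent.TE25

open Real Pool.Agent.TD25

private theorem d_pos {R h d β δe δU s τ : ℝ} (C : CS R h d β δe δU s τ) : 1 < d := by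
  have := C.hR.1
  linarith [C.hd]

theorem near_U {R h d β δe δU s τ δr : ℝ} (C : CS R h d β δe δU s τ) (hr : sg h δr = s + τ)
    (hn : 0 ≤ (((h : ℂ) + pt 1 (s + τ)) * (starRingEnd ℂ) (pt 1 (s - τ))).re) : δU ≤ δr := by
  have h0 : 0 ≤ h := by linarith [C.h0]
  have h1 : h < 1 := by linarith [C.h1]
  have hd := d_pos C
  have hb1 : 1 < ‖pt d β‖ := by rw [norm_pt (by linarith)]; exact hd
  have hS : Sh (pt d β) ((h : ℂ) + pt 1 (sg h δU)) := by
    rw [← rd_h h0 h1]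
    exact C.sU
  have key := cright C.t0 C.t1 C.hb hb1 hn hS (cs_U C)
  rw [← hr] at key
  exact (sg_mono h0 h1).le_iff_le.1 key

theorem near_facts {R h d β δe δU s τ δr : ℝ} (C : CS R h d β δe δU s τ) (hr : sg h δr = s + τ) (hp : δr < π)
    (hn : 0 ≤ (((h : ℂ) + pt 1 (s + τ)) * (starRingEnd ℂ) (pt 1 (s - τ))).re) :
    -0.87 ≤ δr - (s - τ) ∧ δr - (s - τ) ≤ π / 2 ∧ -(h * sin δr) ≤ sin (δr - (s - τ)) ∧ R - 2 ≤ rd h δr := by
  have h0 : 0 ≤ h := by linarith [C.h0]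
  have h1 : h < 1 := by linarith [C.h1]
  have hd := d_pos C
  have hpi := Real.pi_gt_three
  have hU := near_U C hr hn
  have hδ0 : 0 < δr := lt_of_lt_of_le C.u0 hU
  have hs0 : 0 ≤ sin δr := sin_nonneg_of_nonneg_of_le_pi hδ0.le hp.le
  have hε0 : 0 ≤ sg h δr - δr := by
    have : sg h δr - δr = arcsin (h * sin δr) := by unfold sg; ring
    rw [this]
    exact arcsin_nonneg.2 (by positivity)
  have hε1 := (abs_le.1 (sg_dist h0 C.h1 δr)).2
  have t0 := C.t0
  have t1 := C.t1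
  have hη : δr - (s - τ) = 2 * τ - (sg h δr - δr) := by rw [hr]; ring
  have hηhi : δr - (s - τ) ≤ π / 2 := by
    by_contra hc
    push Not at hc
    have hc2 : δr - (s - τ) < π + π / 2 := by rw [hη]; linarith
    have hneg : cos (δr - (s - τ)) < 0 := cos_neg_of_pi_div_two_lt_of_lt hc hc2
    rw [cs_nr C hr] at hn
    have := rd_pos (δ := δr) h0 h1
    nlinarith
  refine ⟨by rw [hη]; linarith, hηhi, ?_, ?_⟩
  · rw [← sin_sg_sub h0 h1 δr, ← sin_neg]
    exact sin_le_sin_of_le_of_le_pi_div_two (by linarith) hηhi (by rw [hη]; linarith)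
  · have e1 : ‖pt (rd h δr) δr‖ = rd h δr := norm_pt (rd_pos h0 h1).le
    have e2 : pt d β = pt (rd h δr) δr + pt 1 (s - τ) := by
      rw [rd_h h0 h1, hr, C.hb]
      ring
    have e3 : ‖pt d β‖ = d := norm_pt (by linarith)
    have e4 : ‖pt 1 (s - τ)‖ = 1 := norm_pt (by norm_num)
    have e5 := norm_add_le (pt (rd h δr) δr) (pt 1 (s - τ))
    rw [← e2, e1, e3, e4] at e5
    linarith [C.hd]

end Pool.Agent.TE25
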