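import Pool.Agent.TE25.Defs
import Pool.Agent.TD25.Fi

/-!
# TE25/FiN: upper bounds for `fi R D` from polynomial inequalities

`R0 = 2.7692 ≤ R`, `R0^2 - 1 = 6.66846864`, `4 R0^2 = 30.67387456`.
`fi_le_of_EE`: `fi_le_of_cos`. `0 ≤ EE D y` and `cos y ≥ 0` give `2 R0 √D cos y ≤ R0^2 - 1 + D` (`abs_le_of_sq_le`, `(√D)^2 = D`), so
`cos y ≤ (R0^2 - 1 + D) / (2 R0 √D) = (R0 + (D - 1)/R0) / (2 √D) ≤ (R + (D - 1)/R) / (2 √D)` because `R0 ≤ R` and `D - 1 ≤ R0 R`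
(`R + (D-1)/R - R0 - (D-1)/R0 = (R - R0) (1 - (D-1)/(R R0))`).
`fi_le_num`: if `0.3695 ≤ y`: `fi_le`, `phm_hi`. Otherwise `y ≤ 0.3695 ≤ π/2` and `fi_mono` (`D ≤ D'`), `fi_le_of_EE` for `D'`.
`fi_4`: `fi_le_of_EE`, `EE 4.0976 0.29 ≥ 0`: `cos 0.29 ≤ 0.9584` (`Real.cos_bound`).
-/

set_option autoImplicit false

namespace Pool.Agent.TE25

open Real Pool.Agent.TD25

theorem fi_le_of_EE {R D y : ℝ} (hR : OkR R) (h1 : (R - 1) ^ 2 ≤ D) (h2 : D ≤ 6.66846864) (y0 : 0 ≤ y) (y1 : y ≤ π / 2)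
    (hE : 0 ≤ EE D y) : fi R D ≤ y := by
  obtain ⟨ha, hb⟩ := hR
  have hD : 0 < D := by nlinarith
  have hs : 0 < √D := sqrt_pos.2 hD
  have hss : √D ^ 2 = D := sq_sqrt hD.le
  have hc0 : 0 ≤ cos y := cos_nonneg_of_neg_pi_div_two_le_of_le (by linarith [pi_pos]) y1
  refine fi_le_of_cos ⟨ha, hb⟩ hD (by nlinarith) y0 (by linarith [pi_pos]) ?_
  rw [le_div_iff₀ (by positivity)]
  have h3 : 5.5384 * (√D * cos y) ≤ 6.66846864 + D := by
    apply abs_le_of_sq_le_sq' _ (by linarith) |>.2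
    rw [EE] at hE
    have : (5.5384 * (√D * cos y)) ^ 2 = 30.67387456 * D * cos y ^ 2 := by
      rw [mul_pow, mul_pow, hss]; ring
    rw [this]; linarith
  have h4 : 2.7692 * (cos y * (2 * R * √D)) ≤ 2.7692 * (R ^ 2 - 1 + D) := by
    have e1 : 2.7692 * (cos y * (2 * R * √D)) = R * (5.5384 * (√D * cos y)) := by ring
    rw [e1]
    have e2 : R * (5.5384 * (√D * cos y)) ≤ R * (6.66846864 + D) := mul_le_mul_of_nonneg_left h3 (by linarith)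
    have e3 : 0 ≤ (R - 2.7692) * (2.7692 * R - (D - 1)) := mul_nonneg (by linarith) (by nlinarith)
    nlinarith
  linarith

theorem fi_le_num {R D D' y : ℝ} (hR : OkR R) (h1 : (R - 1) ^ 2 ≤ D) (h2 : D ≤ D')
    (h : 0.3695 ≤ y ∨ (0 ≤ y ∧ D' ≤ 6.66846864 ∧ 0 ≤ EE D' y)) : fi R D ≤ y := by
  have hD : 0 < D := by have := hR.1; nlinarith
  by_cases hy : 0.3695 ≤ y
  · exact (fi_le hR hD).trans ((phm_hi hR).le.trans hy)
  · rcases h with h | ⟨a, b, c⟩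
    · exact absurd h hy
    · exact (fi_mono hR hD h2).trans (fi_le_of_EE hR (h1.trans h2) b a (by linarith [pi_gt_three]) c)

theorem fi_4 {R D : ℝ} (hR : OkR R) (h1 : 0 < D) (h2 : D ≤ 4.0976) : fi R D ≤ 0.29 := by
  refine (fi_mono hR h1 h2).trans (fi_le_of_EE hR ?_ (by norm_num) (by norm_num) (by linarith [pi_gt_three]) ?_)
  · have := hR.2; have := hR.1; nlinarith
  · have hc := Real.cos_bound (x := 0.29) (by norm_num)
    have hc2 := (abs_le.1 hc).2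
    rw [abs_of_pos (by norm_num : (0 : ℝ) < 0.29)] at hc2
    have h3 : cos 0.29 ≤ 0.9584 := by norm_num at hc2 ⊢; linarith
    have h4 : 0 ≤ cos (0.29 : ℝ) := cos_nonneg_of_neg_pi_div_two_le_of_le (by linarith [pi_pos]) (by linarith [pi_gt_three])
    have h5 : cos (0.29 : ℝ) ^ 2 ≤ 0.9584 ^ 2 := pow_le_pow_left₀ h4 h3 2
    rw [EE]
    norm_num at h5 ⊢
    nlinarith

end Pool.Agent.TE25
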