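import Pool.Agent.TE25.NumDefs

/-!
# TE25/NumII4: the corner inequality, third numerical part (verified Taylor models)

Proof. `of_box` at the point `(h, y, z)`. `eD4` is `D` (`cos_add`), `eY4` is `Y` (`ev_eG` with `σ = π - y`, `sin (π - y) = sin y`,
`cos (π - y) = -cos y`).
-/

set_option autoImplicit false

namespace Pool.Agent.TE25

open Real Pool.Agent.SB19 Pool.Agent.TD25

theorem chkII4y : chk2 [eY4] [oLo4, oY4] (.Y (.Y (.Z (.X .L .L) (.Z (.X (.X .L .L) .L) .D)) (.Z (.Y (.X .L (.X .L .L)) (.Z (.X .L (.Z .L .D)) (.Z (.Y .D .D) .D))) .D)) (.Z (.Y (.Z (.X (.Y (.Z (.X .L (.Y .L .D)) (.Y .D .D)) (.Z (.Y (.Z .D .D) .D) .D)) (.Y (.Y .D .D) .D)) .D) .D) .D))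
    ((52428 + 242200) * 524288) ((242200 - 52428) * 524288) ((0 + 1468007) * 524288) ((1468007 - 0) * 524288)
    ((0 + 1468007) * 524288) ((1468007 - 0) * 524288) = true := by
  decide +kernel

theorem chkII4h : chk2 [oHi4] [oLo4, oY4] .L
    ((52428 + 242200) * 524288) ((242200 - 52428) * 524288) ((0 + 1468007) * 524288) ((1468007 - 0) * 524288)
    ((0 + 1468007) * 524288) ((1468007 - 0) * 524288) = true := by
  decide +kernel

theorem chkII4e : chk2 [eE eD4 eY4] [oLo4, oY4] (.Y (.Z (.Y (.X (.Y (.Z (.X (.X .L .L) .L) (.X (.Y .L .L) .L)) (.Z (.Y (.X .L .L) (.Z .L .L)) (.X (.X .L .L) .L))) (.Y (.Z .L .L) (.Z (.X .L .L) .L))) (.Z (.Y (.Y (.X (.Z .L .L) .L) (.X (.X .L .L) .L)) (.X (.Z (.X (.X .L .L) .L) (.X .L .L)) (.Z .L .D))) (.Y (.Z (.X .L .D) (.X .L .D)) (.Z (.X .L .D) .D)))) (.Z (.Y (.Y (.Z (.X (.X .L .L) .D) (.X .L .D)) (.X .L .D)) .D) .D)) (.Z (.Y (.Z (.Z (.Y (.X (.Z (.X (.X .L .L) (.X .L .L)) (.X .L .D)) .D) (.Y (.Z .D .D)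 .D)) (.Y (.Y .D .D) .D)) .D) .D) .D))
    ((52428 + 242200) * 524288) ((242200 - 52428) * 524288) ((0 + 1468007) * 524288) ((1468007 - 0) * 524288)
    ((0 + 1468007) * 524288) ((1468007 - 0) * 524288) = true := by
  decide +kernel

theorem numII4 {h y z D Y : ℝ} (h0 : 0.05 ≤ h) (h1 : h ≤ 0.2309) (y0 : 0 ≤ y) (y1 : y ≤ 1.4) (z0 : 0 ≤ z)
    (z1 : z ≤ 1.4) (hDd : D = h ^ 2 + 2 + 2 * cos (y + z) - 2 * h * (cos y + cos z))
    (hY : Y = 2 * (π / 4 - 0.749 + GG h (π - y) - 0.37 * (π / 2) + 0.14 * (sin y - sin z))) (hD : 3.13 < D) :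
    0.3695 ≤ Y ∨ (0 ≤ Y ∧ D ≤ 6.66846864 ∧ 0 ≤ EE D Y) := by
  have vD : eD4.eval h y z = D := by
    simp only [eD4, ev_eSub, ev_eSq, Ex.eval, hDd, cos_add]; push_cast; ring
  have vp : (eSub .pi .Y).eval h y z = π - y := by
    simp only [ev_eSub, Ex.eval]
  have vG : (eG .X (eSub .pi .Y) eS4 (.neg eC4)).eval h y z = GG h (π - y) := by
    rw [ev_eG _ _ _ _ _ _ _ (by rw [vp, sin_pi_sub]; rfl) (by rw [vp, cos_pi_sub]; rfl), vp]
    rfl
  have vY : eY4.eval h y z = Y := by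
    rw [hY, eY4]
    simp only [Ex.eval] at vG ⊢
    rw [vG, ev_eSub]
    simp only [Ex.eval]
    push_cast
    ring
  have key : ∀ (ps : List Ex) (t : Tr2), chk2 ps [oLo4, oY4] t
      ((52428 + 242200) * 524288) ((242200 - 52428) * 524288) ((0 + 1468007) * 524288) ((1468007 - 0) * 524288)
      ((0 + 1468007) * 524288) ((1468007 - 0) * 524288) = true →
      0.3695 ≤ Y ∨ ∀ p ∈ ps, 0 ≤ p.eval h y z := by
    intro ps t ht
    rcases of_box ps _ t 52428 242200 0 1468007 0 1468007 (by norm_num) (by norm_num) (by norm_num) ht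
      (x := h) (y := y) (z := z) (by norm_num; linarith) (by norm_num; linarith)
      (by norm_num; linarith) (by norm_num; linarith) (by norm_num; linarith) (by norm_num; linarith)
      with ⟨d, hd, hd'⟩ | h
    · simp only [List.mem_cons, List.not_mem_nil, or_false] at hd
      rcases hd with rfl | rfl
      · exfalso
        simp only [oLo4, ev_eSub, Ex.eval, vD] at hd'
        norm_num at hd'
        linarith
      · left
        simp only [oY4, ev_eSub, Ex.eval, vY] at hd'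
        norm_num at hd' ⊢
        linarith
    · exact Or.inr h
  rcases key _ _ chkII4y with k1 | k1
  · exact Or.inl k1
  rcases key _ _ chkII4h with k2 | k2
  · exact Or.inl k2
  rcases key _ _ chkII4e with k3 | k3
  · exact Or.inl k3
  right
  refine ⟨?_, ?_, ?_⟩
  · have := k1 eY4 (by simp)
    rwa [vY] at this
  · have := k2 oHi4 (by simp)
    simp only [oHi4, ev_eSub, Ex.eval, vD] at this
    norm_num at this ⊢
    linarith
  · have := k3 (eE eD4 eY4) (by simp)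
    rwa [ev_eE, vD, vY] at this

end Pool.Agent.TE25
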