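import Pool.Agent.TE25.NumDefs

/-!
# TE25/WB: the polynomial bound `wb` for the square root (verified Taylor models)

Proof. `of_box` at the point `(u, 0, 0)`: `1 - u ≤ (wb u)^2` and `(wb u - 0.0001)^2 ≤ 1 - u`. `wb u ≥ 0.3`, `0 ≤ u` by elementary estimates.
-/

set_option autoImplicit false

namespace Pool.Agent.TE25

open Real Pool.Agent.SB19 Pool.Agent.TD25

theorem chkW : chk2 [eWa, eWc] [] (.X (.X (.X .L .L) (.X .L .L)) (.X .L (.X .L (.X .L (.X .L .L)))))
    ((0 + 605700) * 524288) ((605700 - 0) * 524288) ((0 + 1) * 524288) ((1 - 0) * 524288)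
    ((0 + 1) * 524288) ((1 - 0) * 524288) = true := by
  decide +kernel

private theorem base {u : ℝ} (h0 : 0 ≤ u) (h1 : u ≤ 0.5776) :
    1 - u ≤ wb u ^ 2 ∧ (wb u - 0.0001) ^ 2 ≤ 1 - u := by
  rcases of_box _ _ _ 0 605700 0 1 0 1 (by norm_num) (by norm_num) (by norm_num) chkW (x := u) (y := 0)
    (z := 0) (by push_cast; linarith) (by push_cast; linarith) (by norm_num) (by norm_num)
    (by norm_num) (by norm_num) with ⟨d, hd, _⟩ | h
  · simp at hd
  · have a := h eWa (by simp)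
    have c := h eWc (by simp)
    simp only [eWa, eWc, ev_eSub, ev_eSq, ev_eW, Ex.eval] at a c
    push_cast at a c
    norm_num at a c ⊢
    constructor <;> linarith

private theorem wb_nonneg {u : ℝ} (h0 : 0 ≤ u) (h1 : u ≤ 0.5776) : 0 ≤ wb u := by
  unfold wb
  have a1 : -0.00558 + u * 0.14434 ≤ 1 := by linarith
  have a2 : u * (-0.00558 + u * 0.14434) ≤ 0.5776 := by nlinarith
  have a3 : u * (0.14068 + u * (-0.00558 + u * 0.14434)) ≤ 0.5776 * 0.72 := by nlinarith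
  nlinarith

theorem wb_lo {u : ℝ} (h0 : 0 ≤ u) (h1 : u ≤ 0.5776) : √(1 - u) ≤ wb u :=
  Real.sqrt_le_iff.2 ⟨wb_nonneg h0 h1, (base h0 h1).1⟩

theorem wb_hi {u : ℝ} (h0 : 0 ≤ u) (h1 : u ≤ 0.5776) : wb u ≤ √(1 - u) + 0.0001 := by
  have h2 := Real.abs_le_sqrt (base h0 h1).2
  linarith [le_abs_self (wb u - 0.0001)]

end Pool.Agent.TE25
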