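import Pool.Agent.TE25.NumII1
import Pool.Agent.TE25.NumII2
import Pool.Agent.TE25.NumII4
import Pool.Agent.TE25.WB
import Pool.Agent.TE25.FiN

/-!
# TE25/Half: the corner inequality for the two intersection points

`w = √(1 - (h sin δ)^2)`, `(h sin δ)^2 ≤ 0.5776`, `w ≤ wb ((h sin δ)^2) ≤ w + 0.0001` (`wb_lo`, `wb_hi`). `yU = h cos δ + wb ((h sin δ)^2)`, so
`rd h δ ≤ yU ≤ rd h δ + 0.0001`, and `D' = yU^2 + 1 + 2 yU cos η ≥ D = rd^2 + 1 + 2 rd cos η` as `cos η ≥ 0` (`-0.87 ≤ η ≤ π/2`), `rd > 0`.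
`D ≥ (R - 1)^2 > 3.13`, `yU ≥ R - 2 > 0.7691`. `half1`: `numII1` and `fi_le_num` with `y = Y`. `half2`: also
`D' ≤ D + 0.0001 (2 * 1.7601 + 2) < D + 0.001`, so `hT` of `numII2`. `half4`: `numII4`, `fi_le_num` with `D' = D`.
-/

set_option autoImplicit false

namespace Pool.Agent.TE25

open Real Pool.Agent.TD25

private theorem common {R h δ η D : ℝ} (hR : OkR R) (h0 : 0 ≤ h) (h1 : h ≤ 0.76) (e0 : -0.87 ≤ η)
    (e1 : η ≤ π / 2) (hU : R - 2 ≤ rd h δ)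
    (hDd : D = rd h δ ^ 2 + 1 + 2 * rd h δ * cos η) (hD : (R - 1) ^ 2 ≤ D) :
    let yU := h * cos δ + wb ((h * sin δ) ^ 2)
    let D' := yU ^ 2 + 1 + 2 * yU * cos η
    3.13 < D' ∧ 0.7691 < yU ∧ D ≤ D' ∧ D' < D + 0.001 := by
  intro yU D'
  have hpi := Real.pi_gt_three
  have hS : (h * sin δ) ^ 2 ≤ 0.5776 := by
    have e : (h * sin δ) ^ 2 = h ^ 2 * sin δ ^ 2 := by ring
    have := sin_sq_le_one δ
    have := sq_nonneg (sin δ)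
    rw [e]
    nlinarith
  have hS0 : 0 ≤ (h * sin δ) ^ 2 := sq_nonneg _
  have w1 := wb_lo hS0 hS
  have w2 := wb_hi hS0 hS
  have hrd : rd h δ = h * cos δ + √(1 - (h * sin δ) ^ 2) := rfl
  have hw : √(1 - (h * sin δ) ^ 2) ≤ 1 := by
    rw [Real.sqrt_le_one]
    linarith
  have hc : 0 ≤ cos η := cos_nonneg_of_neg_pi_div_two_le_of_le (by linarith) e1
  have hc1 := cos_le_one η
  have hcd := cos_le_one δ
  have a1 : rd h δ ≤ yU := by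
    show rd h δ ≤ h * cos δ + wb ((h * sin δ) ^ 2)
    linarith
  have a2 : yU ≤ rd h δ + 0.0001 := by
    show h * cos δ + wb ((h * sin δ) ^ 2) ≤ _
    linarith
  have a3 : rd h δ ≤ 1.76 := by
    rw [hrd]
    nlinarith
  have b1 := hR.1
  have a4 : 0.7692 ≤ rd h δ := by linarith
  clear_value yU
  have hDD : D' = yU ^ 2 + 1 + 2 * yU * cos η := rfl
  clear_value D'
  have a5 : D' - D = (yU - rd h δ) * (yU + rd h δ + 2 * cos η) := by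
    rw [hDD, hDd]
    ring
  have a6 : 0 ≤ D' - D := by
    rw [a5]
    apply mul_nonneg (by linarith)
    linarith
  have a7 : D' - D < 0.001 := by
    rw [a5]
    have : (yU - rd h δ) * (yU + rd h δ + 2 * cos η) ≤ 0.0001 * (yU + rd h δ + 2 * cos η) :=
      mul_le_mul_of_nonneg_right (by linarith) (by linarith)
    linarith
  refine ⟨?_, by linarith, by linarith, by linarith⟩
  have : (3.13 : ℝ) < (R - 1) ^ 2 := by nlinarith
  linarith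

theorem half1 {R h δ η D : ℝ} (hR : OkR R) (h0 : 0.05 ≤ h) (h1 : h ≤ 0.76) (d0 : 0 ≤ δ) (d1 : δ ≤ π) (e0 : -0.87 ≤ η)
    (e1 : η ≤ π / 2) (hE : -(h * sin δ) ≤ sin η) (hU : R - 2 ≤ rd h δ)
    (hDd : D = rd h δ ^ 2 + 1 + 2 * rd h δ * cos η) (hD : (R - 1) ^ 2 ≤ D) :
    1 / 2 * fi R D - GG h (δ - η) ≤ π / 4 - 0.749 + 0.37 * (π / 2 - δ) + 0.14 * sin η := by
  obtain ⟨c1, c2, c3, c4⟩ := common hR (by linarith) h1 e0 e1 hU hDd hD
  have h2 := numII1 h0 h1 d0 d1 e0 e1 rfl rfl rfl c1 c2 (by linarith)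
  have h3 := fi_le_num hR hD c3 h2
  linarith

theorem half2 {R h δ η D : ℝ} (hR : OkR R) (h0 : 0.45 ≤ h) (h1 : h ≤ 0.76) (d0 : 0 ≤ δ) (d1 : δ ≤ π) (e0 : -0.87 ≤ η)
    (e1 : η ≤ π / 2) (hE : -(h * sin δ) ≤ sin η) (hU : R - 2 ≤ rd h δ)
    (hDd : D = rd h δ ^ 2 + 1 + 2 * rd h δ * cos η) (hD : (R - 1) ^ 2 ≤ D)
    (hT : D ≤ 2 + h ^ 2 + 2 * h * cos (δ - η)) :
    1 / 2 * fi R D ≤ π / 4 - 0.759 + 0.37 * (π / 2 - δ) + 0.14 * sin η := by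
  obtain ⟨c1, c2, c3, c4⟩ := common hR (by linarith) h1 e0 e1 hU hDd hD
  have h2 := numII2 h0 h1 d0 d1 e0 e1 rfl rfl rfl c1 c2 (by linarith) (by linarith)
  have h3 := fi_le_num hR hD c3 h2
  linarith

theorem half4 {R h y z D : ℝ} (hR : OkR R) (h0 : 0.05 ≤ h) (h1 : h ≤ 0.2309) (y0 : 0 ≤ y) (y1 : y ≤ 1.4) (z0 : 0 ≤ z)
    (z1 : z ≤ 1.4) (hDd : D = h ^ 2 + 2 + 2 * cos (y + z) - 2 * h * (cos y + cos z)) (hD : (R - 1) ^ 2 ≤ D) :
    1 / 2 * fi R D ≤ π / 4 - 0.749 + GG h (π - y) - 0.37 * (π / 2) + 0.14 * (sin y - sin z) := by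
  have b1 := hR.1
  have c1 : 3.13 < D := by nlinarith
  have h2 := numII4 h0 h1 y0 y1 z0 z1 hDd rfl c1
  have h3 := fi_le_num hR hD le_rfl h2
  linarith

end Pool.Agent.TE25
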