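import Pool.Agent.TE25.CorN1
import Pool.Agent.TE25.CorM
import Pool.Agent.TE25.Half

/-!
# TE25/CorN2: the corner inequality, near side, conclusion

`near_e`: suppose `sg h δe < s - τ`. By `cleft` (contrapositive; `σ = sg h δe`, `rd_h`, `C.se`, `cs_e`) the point `Q = h + pt 1 (s - τ)`
satisfies `Re (Q conj (pt 1 (s + τ))) < 0`; as `pt d β = Q + pt 1 (s + τ)`, `d^2 = ‖Q‖^2 + 1 + 2 Re (Q conj (pt 1 (s + τ))) < ‖Q‖^2 + 1 =
2 + h^2 + 2 h cos (s - τ)`. So `(1 + h)^2 ≥ ‖Q‖^2 > (R - 1)^2 - 1 > 2.13` and `h ≥ 0.45`. By `cfar` (`|sg h δe - s| > τ`) the squared norm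
`1 + h^2 + 2 h cos (sg h δe)` (`rd_sq`) of the point of direction `δe` is `≥ d^2 - 1 > 2.13`; `GG_lo` with `-π ≤ sg h δe`
(`δe > δU - π > -π`, `sg_mono`, `sg_neg`, `sg_pi`).
`cor_near`: `mono37` with `u = δU ≤ v = δr` (`near_U`), `cs_d`; `cs_Xr`: `d sin (δr - β) = sin η`, `η = δr - (s - τ)`. So it is enough to show
`1/2 fi R (d^2) - GG h (sg h δe) + 0.37 δr - 0.14 sin η ≤ π/4 - 0.749 + 0.37 (π/2)`. If `s - τ ≤ sg h δe`: `half1` with `δ = δr`, `D = d^2`
(`near_facts`, `cs_Xr`), `δr - η = s - τ`, `GG_mono`. Otherwise `half2` and `-GG h (sg h δe) ≤ 0.01`.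
-/

set_option autoImplicit false

namespace Pool.Agent.TE25

open Real Pool.Agent.TD25

private theorem pt_re (r t : ℝ) : (pt r t).re = r * cos t := by
  unfold pt
  rw [Complex.re_ofReal_mul, Complex.exp_ofReal_mul_I_re]

private theorem pt_im (r t : ℝ) : (pt r t).im = r * sin t := by
  unfold pt
  rw [Complex.im_ofReal_mul, Complex.exp_ofReal_mul_I_im]

private theorem nsq (z : ℂ) : ‖z‖ ^ 2 = z.re ^ 2 + z.im ^ 2 := by
  rw [Complex.sq_norm, Complex.normSq_apply]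
  ring

private theorem nsq_h (h t : ℝ) : ‖(h : ℂ) + pt 1 t‖ ^ 2 = 1 + h ^ 2 + 2 * h * cos t := by
  rw [nsq, Complex.add_re, Complex.add_im, pt_re, pt_im, Complex.ofReal_re, Complex.ofReal_im]
  have := sin_sq_add_cos_sq t
  linear_combination this

private theorem nsq_add (x : ℂ) (t : ℝ) : ‖x + pt 1 t‖ ^ 2 =
    ‖x‖ ^ 2 + 1 + 2 * (x * (starRingEnd ℂ) (pt 1 t)).re := by
  rw [nsq, nsq, Complex.add_re, Complex.add_im, Complex.mul_re, Complex.conj_re, Complex.conj_im, pt_re, pt_im]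
  have := sin_sq_add_cos_sq t
  linear_combination this

theorem near_e {R h d β δe δU s τ : ℝ} (C : CS R h d β δe δU s τ) :
    s - τ ≤ sg h δe ∨ (0.45 ≤ h ∧ -0.01 ≤ GG h (sg h δe) ∧ d ^ 2 ≤ 2 + h ^ 2 + 2 * h * cos (s - τ)) := by
  rcases le_or_gt (s - τ) (sg h δe) with hc | hc
  · exact Or.inl hc
  right
  have h0 := C.h0
  have h1 := C.h1
  have h0' : 0 ≤ h := by linarith
  have h1' : h < 1 := by linarith
  have hR := C.hR.1
  have hd := C.hd
  have hd1 : 1 < d := by linarith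
  have hb1 : 1 < ‖pt d β‖ := by rw [norm_pt (by linarith)]; exact hd1
  have hS : Sh (pt d β) ((h : ℂ) + pt 1 (sg h δe)) := by
    rw [← rd_h h0' h1']
    exact C.se
  have hQ : (((h : ℂ) + pt 1 (s - τ)) * (starRingEnd ℂ) (pt 1 (s + τ))).re < 0 := by
    by_contra hcon
    push Not at hcon
    have := cleft C.t0 C.t1 C.hb hb1 hcon hS (cs_e C)
    linarith
  have hbn : d ^ 2 = ‖pt d β‖ ^ 2 := by rw [norm_pt (by linarith)]
  have hd2 : d ^ 2 ≤ 2 + h ^ 2 + 2 * h * cos (s - τ) := by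
    rw [hbn, C.hb, nsq_add, nsq_h]
    linarith
  have hdR : 3.13 < d ^ 2 := by nlinarith
  have hcs := cos_le_one (s - τ)
  have hh : 0.45 ≤ h := by
    by_contra hcon
    push Not at hcon
    nlinarith
  refine ⟨hh, ?_, hd2⟩
  have ht0 := C.t0
  have hτ : τ < |sg h δe - s| := by
    rw [abs_of_nonpos (by linarith)]
    linarith
  have hf := cfar C.t0 C.t1 C.hb hb1 hS (cs_e C) hτ
  rw [norm_pt (by linarith), nsq_h] at hf
  apply GG_lo hh h1 _ (by linarith)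
  have e2 := C.e2
  have u0 := C.u0
  have := (sg_mono h0' h1').monotone (by linarith : -π ≤ δe)
  rwa [sg_neg, sg_pi] at this

theorem cor_near {R h d β δe δU s τ δr : ℝ} (C : CS R h d β δe δU s τ) (hr : sg h δr = s + τ) (hp : δr < π)
    (hn : 0 ≤ (((h : ℂ) + pt 1 (s + τ)) * (starRingEnd ℂ) (pt 1 (s - τ))).re) :
    1 / 2 * fi R (d ^ 2) - GG h (sg h δe) + 0.37 * δU - 0.14 * (d * sin (δU - β)) ≤
      π / 4 - 0.749 + 0.37 * (π / 2) := by
  have h0 := C.h0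
  have h1 := C.h1
  have h0' : 0 ≤ h := by linarith
  have hR := C.hR
  have hR1 := hR.1
  have hd := C.hd
  have hU := near_U C hr hn
  obtain ⟨f1, f2, f3, f4⟩ := near_facts C hr hp hn
  obtain ⟨x1, x2⟩ := cs_Xr C hr
  have hm := mono37 (β := β) (by linarith : (0 : ℝ) ≤ d) (cs_d hR C.hd2) hU
  rw [x1] at hm
  have hu0 := C.u0
  have hdd : (R - 1) ^ 2 ≤ d ^ 2 := by
    apply pow_le_pow_left₀ (by linarith) hd
  rcases near_e C with hc | ⟨hh, hg, hT⟩
  · have h3 := half1 hR h0 h1 (by linarith) hp.le f1 f2 f3 f4 x2 hdd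
    have e : δr - (δr - (s - τ)) = s - τ := by ring
    rw [e] at h3
    have h4 := GG_mono h0' h1 hc
    linarith
  · have h3 := half2 hR hh h1 (by linarith) hp.le f1 f2 f3 f4 x2 hdd (by
      have e : δr - (δr - (s - τ)) = s - τ := by ring
      rw [e]
      exact hT)
    linarith

end Pool.Agent.TE25
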