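import Pool.Agent.TE25.CorM
import Pool.Agent.TE25.Half

/-!
# TE25/CorP: the corner inequality, the farther intersection point behind the opposite direction

`cs_pi`: `d - 1 ≤ 1 - h`, so `h ≤ 2 - d ≤ 3 - R ≤ 0.2308`.
`s - τ ≤ sg h δe`: otherwise by `cleft` (`σ = sg h δe`, `rd_h`, `C.se`, `cs_e`) the point `Q = h + pt 1 (s - τ)` satisfies `Re (Q conj (pt 1 (s + τ))) < 0`, and
`d^2 = ‖Q‖^2 + 1 + 2 Re (Q conj (pt 1 (s + τ))) < (1 + h)^2 + 1 < 2.6`, but `d^2 ≥ 3.13`.
`s - τ ≤ sg h δe ≤ sg h δU < sg h π = π` (`sg_mono`). `τ ≤ 0.7`: `2 cos τ = ‖pt d β - h‖ ≥ d - h ≥ 1.5384`, so `cos τ ≥ 0.7692 > cos 0.7`.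
`y = π - (s - τ) > 0`, `z = (s + τ) - π ≥ 0` (`sg_mono`, `sg_pi`, `hp`), `y + z = 2 τ ≤ 1.4`.
`pt d β = h + pt 1 (s - τ) + pt 1 (s + τ) = h - pt 1 (-y) - pt 1 z`: imaginary part `d sin β = sin y - sin z`, squared norm
`d^2 = h^2 + 2 + 2 cos (y + z) - 2 h (cos y + cos z)`. `mono37` with `u = δU`, `v = π`: `0.37 δU - 0.14 d sin (δU - β) ≤ 0.37 π - 0.14 d sin β`
(`sin (π - β) = sin β`). `half4` (`GG h (π - y) = GG h (s - τ) ≤ GG h (sg h δe)` by `GG_mono`).
-/

set_option autoImplicit false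

namespace Pool.Agent.TE25

open Real Pool.Agent.TD25

private theorem pt_re (r t : ℝ) : (pt r t).re = r * cos t := by
  unfold pt
  rw [Complex.re_ofReal_mul, Complex.exp_ofReal_mul_I_re]

private theorem pt_im (r t : ℝ) : (pt r t).im = r * sin t := by
  unfold pt
  rw [Complex.im_ofReal_mul, Complex.exp_ofReal_mul_I_im]

private theorem nsq (z : ℂ) : ‖z‖ ^ 2 = z.re ^ 2 + z.im ^ 2 := by
  rw [Complex.sq_norm, Complex.normSq_apply]
  ring

private theorem nsq_h (h t : ℝ) : ‖(h : ℂ) + pt 1 t‖ ^ 2 = 1 + h ^ 2 + 2 * h * cos t := by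
  rw [nsq, Complex.add_re, Complex.add_im, pt_re, pt_im, Complex.ofReal_re, Complex.ofReal_im]
  have := sin_sq_add_cos_sq t
  linear_combination this

private theorem nsq_add (x : ℂ) (t : ℝ) : ‖x + pt 1 t‖ ^ 2 =
    ‖x‖ ^ 2 + 1 + 2 * (x * (starRingEnd ℂ) (pt 1 t)).re := by
  rw [nsq, nsq, Complex.add_re, Complex.add_im, Complex.mul_re, Complex.conj_re, Complex.conj_im, pt_re, pt_im]
  have := sin_sq_add_cos_sq t
  linear_combination this

private theorem cos07 : cos 0.7 ≤ 0.768 := by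
  have h := Real.cos_bound (x := 0.7) (by norm_num [abs_le])
  have := (abs_le.1 h).2
  norm_num [abs_of_pos] at this ⊢
  linarith

theorem cor_pi {R h d β δe δU s τ δr : ℝ} (C : CS R h d β δe δU s τ) (hr : sg h δr = s + τ) (hp : π ≤ δr) :
    1 / 2 * fi R (d ^ 2) - GG h (sg h δe) + 0.37 * δU - 0.14 * (d * sin (δU - β)) ≤
      π / 4 - 0.749 + 0.37 * (π / 2) := by
  have hpi := Real.pi_gt_three
  have hpi4 := Real.pi_lt_d4
  have h0 := C.h0
  have h1 := C.h1
  have h0' : 0 ≤ h := by linarith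
  have h1' : h < 1 := by linarith
  have hR := C.hR
  have hR1 := hR.1
  have hd := C.hd
  have hd1 : 1 < d := by linarith
  have hb1 : 1 < ‖pt d β‖ := by rw [norm_pt (by linarith)]; exact hd1
  have hcp := cs_pi C hr hp
  have hh : h ≤ 0.2308 := by linarith
  have hbn : d ^ 2 = ‖pt d β‖ ^ 2 := by rw [norm_pt (by linarith)]
  have hdR : 3.13 < d ^ 2 := by nlinarith
  have hS : Sh (pt d β) ((h : ℂ) + pt 1 (sg h δe)) := by
    rw [← rd_h h0' h1']
    exact C.se
  have hse : s - τ ≤ sg h δe := by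
    apply cleft C.t0 C.t1 C.hb hb1 _ hS (cs_e C)
    by_contra hcon
    push Not at hcon
    have hcs := cos_le_one (s - τ)
    have hd2 : d ^ 2 ≤ 2 + h ^ 2 + 2 * h * cos (s - τ) := by
      rw [hbn, C.hb, nsq_add, nsq_h]
      linarith
    nlinarith
  have hmono := sg_mono h0' h1'
  have a1 : sg h δe ≤ sg h δU := hmono.monotone C.e1
  have a2 : sg h δU < π := by
    have := hmono C.u1
    rwa [sg_pi] at this
  have a3 : π ≤ s + τ := by
    have := hmono.monotone hp
    rwa [sg_pi, hr] at this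
  have ht0 := C.t0
  have ht1 := C.t1
  have hre := congrArg Complex.re C.hb
  have him := congrArg Complex.im C.hb
  rw [Complex.add_re, Complex.add_re, pt_re, pt_re, pt_re, one_mul, one_mul, Complex.ofReal_re] at hre
  rw [Complex.add_im, Complex.add_im, pt_im, pt_im, pt_im, one_mul, one_mul, Complex.ofReal_im] at him
  obtain ⟨y, hy⟩ : ∃ y, y = π - (s - τ) := ⟨_, rfl⟩
  obtain ⟨z, hz⟩ : ∃ z, z = (s + τ) - π := ⟨_, rfl⟩
  have ey : s - τ = π - y := by linarith
  have ez : s + τ = z + π := by linarith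
  have eyz : y + z = 2 * τ := by linarith
  have hdsq : d ^ 2 = (d * cos β) ^ 2 + (d * sin β) ^ 2 := by
    have := sin_sq_add_cos_sq β
    linear_combination (-d ^ 2) * this
  rw [ey, ez, cos_pi_sub, cos_add_pi] at hre
  rw [ey, ez, sin_pi_sub, sin_add_pi] at him
  have f1 := sin_sq_add_cos_sq y
  have f2 := sin_sq_add_cos_sq z
  have hD : d ^ 2 = h ^ 2 + 2 + 2 * cos (y + z) - 2 * h * (cos y + cos z) := by
    rw [hdsq, hre, him, cos_add]
    linear_combination f1 + f2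
  have hτ : τ ≤ 0.7 := by
    by_contra hcon
    push Not at hcon
    have g1 : cos τ ≤ cos 0.7 := cos_le_cos_of_nonneg_of_le_pi (by norm_num) (by linarith) hcon.le
    have g2 := cos07
    have g3 : (d * cos β - h) ^ 2 + (d * sin β) ^ 2 = (2 * cos τ) ^ 2 := by
      have : (2 * cos τ) ^ 2 = 2 + 2 * cos (2 * τ) := by
        rw [cos_two_mul]
        ring
      rw [this, ← eyz, hre, him, cos_add]
      linear_combination f1 + f2
    have g4 : (d - h) ^ 2 ≤ (d * cos β - h) ^ 2 + (d * sin β) ^ 2 := by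
      have c1 := cos_le_one β
      have : (d * cos β - h) ^ 2 + (d * sin β) ^ 2 = d ^ 2 + h ^ 2 - 2 * d * h * cos β := by
        linear_combination (-1 : ℝ) * hdsq
      rw [this]
      have : 0 ≤ d * h * (1 - cos β) := mul_nonneg (mul_nonneg (by linarith) h0') (by linarith)
      nlinarith
    have g5 : 0 ≤ cos τ := cos_nonneg_of_neg_pi_div_two_le_of_le (by linarith) (by linarith)
    have g6 : d - h ≤ 2 * cos τ := by
      apply abs_le_of_sq_le_sq' (by rw [← g3]; exact g4) (by linarith) |>.2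
    linarith
  have hm := mono37 (β := β) (by linarith : (0 : ℝ) ≤ d) (cs_d hR C.hd2) C.u1.le
  rw [sin_pi_sub, him] at hm
  have hdd : (R - 1) ^ 2 ≤ d ^ 2 := by
    apply pow_le_pow_left₀ (by linarith) hd
  have h4 := half4 hR h0 (by linarith : h ≤ 0.2309) (by linarith : 0 ≤ y) (by linarith : y ≤ 1.4)
    (by linarith : 0 ≤ z) (by linarith : z ≤ 1.4) hD hdd
  have h5 := GG_mono h0' h1 hse
  rw [ey] at h5
  linarith

end Pool.Agent.TE25
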