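import Pool.Agent.TE25.Pick
import Pool.Agent.TE25.Chord
import Pool.Agent.TE25.CorG
import Pool.Agent.TE25.Rays

/-!
# TE25/CorSum: the sum of the two corner inequalities at a corner

`cor_sumU`: `chord` gives `hUV`; `width` (lobe 1: `θ1 = e`, `θ2 = θU`) gives `θU < e + π`, `width` for the circle 2 (`θV := θU`, `θU := θV + 2π`, with
`bp h2 α2 θU = bp h1 α1 θU`, `bp h2 α2 (θV + 2π) = bp h2 α2 θV = bp h1 α1 θV`; `L.eU`, `L.eV`, `bp_add`) gives `f < θU + π`. `cornerR` for circle 1 (`e`, `θU`;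
`L.u1`, `L.p1`) plus `cornerL` for circle 2 (`f`, `θU`; `L.u2`, `L.p2`): the terms `XD` cancel.
`cor_sumV`: `cornerL` for circle 1 (`f'`, `θV`; `L.v1`, `L.q1`) plus `cornerR` for circle 2 (`e'`, `θV + 2π`; `L.v2`, `L.q2`), `XD_add`.
-/

set_option autoImplicit false

namespace Pool.Agent.TE25

open Real Pool.Agent.TD25

theorem cor_sumU {R h1 α1 h2 α2 θV θU : ℝ} (hR : OkR R) (a0 : 0.05 ≤ h1) (a1 : h1 ≤ 0.76) (b0 : 0.05 ≤ h2)
    (b1 : h2 ≤ 0.76) (hs : h1 + h2 ≤ 1.5) (L : Lobe h1 α1 h2 α2 θV θU) {ι : Type} {b : ι → ℂ}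
    (hb1 : ∀ i, R - 1 ≤ ‖b i‖) (hb2 : ∀ i, ‖b i‖ ^ 2 ≤ R ^ 2 - 1) {k : ι} {e f : ℝ}
    (P : PU h1 α1 h2 α2 θV θU b k e f) :
    fi R (‖b k‖ ^ 2) - GG h1 (sg h1 (e - α1)) + GG h2 (sg h2 (f - α2)) + 0.37 * (α2 - α1) ≤
      π / 2 - 1.498 + 0.37 * π := by
  have hbk : 1 < ‖b k‖ := by linarith [hR.1, hb1 k]
  have v1 := L.v1
  have u1 := L.u1
  have u2 := L.u2
  have v2 := L.v2
  have eU : bp h1 α1 θU = bp h2 α2 θU := by
    unfold bp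
    rw [L.eU]
  have eV : bp h1 α1 θV = bp h2 α2 (θV + 2 * π) := by
    have h3 := bp_add h2 α2 θV 1
    push_cast at h3
    rw [mul_one] at h3
    rw [h3]
    unfold bp
    rw [L.eV]
  have hch := chord hR (by linarith) a1 (by linarith) b1 hs L (hb1 k)
  have w1 : θU < e + π :=
    width (by linarith) (by linarith) hbk hch (by linarith) P.e1 P.e2 le_rfl P.se P.sU
  have hch2 : ¬ (Sh (b k) (bp h2 α2 (θV + 2 * π)) ∧ Sh (b k) (bp h2 α2 θU)) := by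
    rw [← eU, ← eV]
    exact fun h => hch ⟨h.2, h.1⟩
  have sU2 : Sh (b k) (bp h2 α2 θU) := by
    rw [← eU]
    exact P.sU
  have w2 : f < θU + π :=
    width (by linarith) (by linarith) hbk hch2 (by linarith) le_rfl P.f1 P.f2 sU2 P.sf
  have c1 := cornerR hR a0 a1 (hb1 k) (hb2 k) P.e2 w1 L.u1 L.p1 P.se P.sU
  have c2 := cornerL hR b0 b1 (hb1 k) (hb2 k) P.f1 w2 L.u2 L.p2 P.sf sU2
  linarith

theorem cor_sumV {R h1 α1 h2 α2 θV θU : ℝ} (hR : OkR R) (a0 : 0.05 ≤ h1) (a1 : h1 ≤ 0.76) (b0 : 0.05 ≤ h2)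
    (b1 : h2 ≤ 0.76) (hs : h1 + h2 ≤ 1.5) (L : Lobe h1 α1 h2 α2 θV θU) {ι : Type} {b : ι → ℂ}
    (hb1 : ∀ i, R - 1 ≤ ‖b i‖) (hb2 : ∀ i, ‖b i‖ ^ 2 ≤ R ^ 2 - 1) {k : ι} {f' e' : ℝ}
    (Q : PV h1 α1 h2 α2 θV θU b k f' e') :
    fi R (‖b k‖ ^ 2) + GG h1 (sg h1 (f' - α1)) - GG h2 (sg h2 (e' - α2)) + 0.37 * (α1 + 2 * π - α2) ≤
      π / 2 - 1.498 + 0.37 * π := by
  have hbk : 1 < ‖b k‖ := by linarith [hR.1, hb1 k]
  have v1 := L.v1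
  have u1 := L.u1
  have u2 := L.u2
  have v2 := L.v2
  have eU : bp h1 α1 θU = bp h2 α2 θU := by
    unfold bp
    rw [L.eU]
  have eV : bp h1 α1 θV = bp h2 α2 (θV + 2 * π) := by
    have h3 := bp_add h2 α2 θV 1
    push_cast at h3
    rw [mul_one] at h3
    rw [h3]
    unfold bp
    rw [L.eV]
  have hch := chord hR (by linarith) a1 (by linarith) b1 hs L (hb1 k)
  have w1 : f' < θV + π :=
    width (by linarith) (by linarith) hbk hch (by linarith) le_rfl Q.f1 Q.f2 Q.sV Q.sf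
  have hch2 : ¬ (Sh (b k) (bp h2 α2 (θV + 2 * π)) ∧ Sh (b k) (bp h2 α2 θU)) := by
    rw [← eU, ← eV]
    exact fun h => hch ⟨h.2, h.1⟩
  have sV2 : Sh (b k) (bp h2 α2 (θV + 2 * π)) := by
    rw [← eV]
    exact Q.sV
  have w2 : θV + 2 * π < e' + π :=
    width (by linarith) (by linarith) hbk hch2 (by linarith) Q.e1 Q.e2 le_rfl Q.se sV2
  have c1 := cornerL hR a0 a1 (hb1 k) (hb2 k) Q.f1 w1 L.v1 L.q1 Q.sf Q.sV
  have c2 := cornerR hR b0 b1 (hb1 k) (hb2 k) Q.e2 w2 L.v2 L.q2 Q.se sV2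
  have c3 := XD_add (b k) θV 1
  rw [Int.cast_one, mul_one] at c3
  rw [c3] at c2
  linarith

end Pool.Agent.TE25
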