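import Pool.Agent.TE25.CorM
import Pool.Agent.TE25.FiN

/-!
# TE25/CorT: the corner inequality, the farther intersection point on the far side

(1) `P = h + pt 1 (s + τ) = pt (rd h δr) δr`, `d^2 = ‖P‖^2 + 1 + 2 Re (P conj (pt 1 (s - τ))) < rd h δr^2 + 1`, so `rd h δr^2 > d^2 - 1 ≥ (R - 1)^2 - 1 > 2.13`.
(2) `rd h δU^2 ≥ d^2 - 1`: if `sg h δU > s + τ` by `cfar` (`σ = sg h δU`, `rd_h`, `C.sU`, `cs_U`); otherwise `sg h δU ≤ sg h δr`, `0 < δU ≤ δr < π`
(`sg_mono`) and `rd_anti`.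
(3) Let `r = rd h δU`, `r^2 > 2.13`, `r ≤ 1 + h` (`rd_le`), so `h ≥ 0.459` and `r ≥ 1.459`; `r^2 + h^2 - 2 r h cos δU = 1` (definition of `rd`). So
`cos δU = (r^2 + h^2 - 1) / (2 r h) ≥ 0.769 > cos 0.7` (`= 0.7648...`; `r^2 + h^2 - 1 - 2 r h * 0.769 ≥ 0`: the left side is increasing in `r` for
`r ≥ 0.769 h`, at `r^2 = 2.13` it is `1.13 + h^2 - 2.2446 h > 0` for `h ≤ 0.76`), so `δU ≤ 0.7`.
(4) `d^2 ≤ 1 + (1.76)^2 = 4.0976`, `fi_4`: `fi R (d^2) ≤ 0.29`.
(5) `u = δU - β`, `|u| ≤ 0.6009`, `d |sin u| ≤ 1` (`Sh_dir` gives `|u| ≤ arcsin (1/d)` modulo `2π`; or `|u| ≤ 0.6009`, `C.bU`, and the distance of `pt d β` from the ray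
of direction `δU` is at most 1: `t x` in the disk, imaginary part of `(t x - b) e^{-i δU}`).
Case `u ≤ 0`: `δe ≥ β - 0.6009 ≥ δU - 0.6009 ≥ -0.6009` (`C.be`), `sg h δe ≥ -sg h 0.6009 ≥ -1.0453` (`sg_mono`, `sg_neg`;
`sg h 0.6009 = 0.6009 + arcsin (h sin 0.6009)`, `0.76 sin 0.6009 ≤ 0.4298 ≤ sin 0.4444`), `GG_mono`, `GG_neg`, `numGa`: `GG h (sg h δe) ≥ -0.04`. Sum:
`0.145 + 0.04 + 0.37 * 0.7 + 0.14 = 0.584 < 0.6175 < π/4 - 0.749 + 0.37 π/2`.
Case `u > 0`: `sin u ≥ 0`; `δe ≥ β - 0.6009 ≥ δU - 1.2018 ≥ -1.2023`, `sg h δe ≥ -sg h 1.2023`, `numGb`: `GG h (sg h δe) ≥ -0.115`. Sum: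
`0.145 + 0.115 + 0.259 = 0.519`.
-/

set_option autoImplicit false

namespace Pool.Agent.TE25

open Real Pool.Agent.TD25

private theorem cos07 : cos 0.7 ≤ 0.768 := by
  have h := Real.cos_bound (x := 0.7) (by norm_num [abs_le])
  have := (abs_le.1 h).2
  norm_num [abs_of_pos] at this ⊢
  linarith

open Pool.Agent.SB19 in
private theorem sin_num2 : 0.76 * sin 0.6009 ≤ sin 0.4444 := by
  have h : chk (.add (.sin (.num 4444 10000)) (.neg (.mul (.num 76 100) (.sin (.num 6009 10000))))) .L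
      0 0 0 0 0 0 = true := by
    decide +kernel
  have h1 := nonneg_of_chk _ _ _ _ _ _ _ _ h 0 0 0 le_rfl le_rfl le_rfl (by simp) (by simp) (by simp)
  simp only [Ex.eval] at h1
  norm_num at h1 ⊢
  linarith

private theorem sg_num {h : ℝ} (h0 : 0 ≤ h) (h1 : h ≤ 0.76) : sg h 0.6009 ≤ 1.0453 := by
  have hpi := Real.pi_gt_three
  unfold sg
  have hs : 0 ≤ sin 0.6009 := sin_nonneg_of_nonneg_of_le_pi (by norm_num) (by linarith)
  have h2 : h * sin 0.6009 ≤ sin 0.4444 := (mul_le_mul_of_nonneg_right h1 hs).trans sin_num2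
  have h3 : arcsin (h * sin 0.6009) ≤ 0.4444 := by
    apply (arcsin_le_iff_le_sin' ?_).2 h2
    constructor <;> linarith
  linarith

theorem cor_far {R h d β δe δU s τ δr : ℝ} (C : CS R h d β δe δU s τ) (hr : sg h δr = s + τ) (hp : δr < π)
    (hn : (((h : ℂ) + pt 1 (s + τ)) * (starRingEnd ℂ) (pt 1 (s - τ))).re < 0) :
    1 / 2 * fi R (d ^ 2) - GG h (sg h δe) + 0.37 * δU - 0.14 * (d * sin (δU - β)) ≤
      π / 4 - 0.749 + 0.37 * (π / 2) := by
  have hpi := Real.pi_gt_d4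
  have hpi4 := Real.pi_lt_d4
  have h0 := C.h0
  have h1 := C.h1
  have h0' : 0 ≤ h := by linarith
  have h1' : h < 1 := by linarith
  have hR := C.hR
  have hR1 := hR.1
  have hd := C.hd
  have hd1 : 1 < d := by linarith
  have hb1 : 1 < ‖pt d β‖ := by rw [norm_pt (by linarith)]; exact hd1
  have hu0 := C.u0
  have hu1 := C.u1
  have hmono := sg_mono h0' h1'
  have hdR : 3.13 < d ^ 2 := by nlinarith
  obtain ⟨x1, x2⟩ := cs_Xr C hr
  have hn' := cs_nr C hr
  rw [hn'] at hn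
  have hrr : d ^ 2 - 1 < rd h δr ^ 2 := by linarith
  -- step 2
  have hrU := rd_pos (δ := δU) h0' h1'
  have h2 : d ^ 2 - 1 ≤ rd h δU ^ 2 := by
    rcases lt_or_ge (s + τ) (sg h δU) with hc | hc
    · have hS : Sh (pt d β) ((h : ℂ) + pt 1 (sg h δU)) := by
        rw [← rd_h h0' h1']
        exact C.sU
      have ht0 := C.t0
      have := cfar C.t0 C.t1 C.hb hb1 hS (cs_U C) (by
        rw [abs_of_nonneg (by linarith)]
        linarith)
      rw [norm_pt (by linarith), ← rd_h h0' h1', norm_pt hrU.le] at this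
      exact this
    · rw [← hr] at hc
      have hU : δU ≤ δr := hmono.le_iff_le.1 hc
      have h3 := rd_anti h0' h1' hu0.le hU hp.le
      have h4 := rd_pos (δ := δr) h0' h1'
      nlinarith
  -- step 3
  have hrle := rd_le h0' h1' δU
  have hquad : rd h δU ^ 2 + h ^ 2 - 2 * rd h δU * h * cos δU = 1 := by
    have hS : 0 ≤ 1 - (h * sin δU) ^ 2 := by
      have := sin_sq_le_one δU
      have h5 := sq_nonneg (sin δU)
      have : (h * sin δU) ^ 2 = h ^ 2 * sin δU ^ 2 := by ring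
      rw [this]
      nlinarith
    have h6 := Real.sq_sqrt hS
    have h7 : rd h δU = h * cos δU + √(1 - (h * sin δU) ^ 2) := rfl
    have h8 := sin_sq_add_cos_sq δU
    rw [h7]
    linear_combination h6 - h ^ 2 * h8
  obtain ⟨r, hrd⟩ : ∃ r, r = rd h δU := ⟨_, rfl⟩
  rw [← hrd] at h2 hrle hquad hrU
  have hr1 : 1.459 ≤ r := by
    by_contra hc
    push Not at hc
    nlinarith
  have hh : 0.459 ≤ h := by linarith
  have hcU : 0.769 ≤ cos δU := by
    by_contra hc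
    push Not at hc
    have k1 : 0 < r * h := by positivity
    have k2 : 2 * r * h * cos δU ≤ 2 * r * h * 0.769 := by nlinarith
    have k3 : 0 ≤ (r - 1.459) * (r + 1.459 - 1.538 * h) := mul_nonneg (by linarith) (by linarith)
    have k4 : 0 ≤ (0.76 - h) * (1.48 - h) := mul_nonneg (by linarith) (by linarith)
    nlinarith
  have hU7 : δU ≤ 0.7 := by
    by_contra hc
    push Not at hc
    have := cos_le_cos_of_nonneg_of_le_pi (by norm_num) hu1.le hc.le
    have := cos07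
    linarith
  -- step 4
  have hd2 : d ^ 2 ≤ 4.0976 := by nlinarith
  have hf := fi_4 hR (by positivity) hd2
  -- step 5
  have bU := abs_le.1 C.bU
  have be := abs_le.1 C.be
  have hds : (d * sin (δU - β)) ^ 2 ≤ 1 := by
    obtain ⟨t0, p0, p1, p2⟩ := C.sU
    have e : (t0 : ℂ) * pt (rd h δU) δU = pt (t0 * rd h δU) δU := by
      unfold pt
      push_cast
      ring
    rw [e] at p2
    have p3 : ‖pt (t0 * rd h δU) δU - pt d β‖ ^ 2 ≤ 1 := by
      have := norm_nonneg (pt (t0 * rd h δU) δU - pt d β)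
      nlinarith
    rw [norm_pt_sub_sq] at p3
    have p4 := sin_sq_add_cos_sq (δU - β)
    have p5 := sq_nonneg (t0 * rd h δU - d * cos (δU - β))
    nlinarith
  have hds' := abs_le_of_sq_le_sq' (by linarith : (d * sin (δU - β)) ^ 2 ≤ 1 ^ 2) zero_le_one
  rcases le_or_gt (δU - β) 0 with hu | hu
  · have k1 : -0.6009 ≤ δe := by linarith [be.1]
    have k2 : sg h (-0.6009) ≤ sg h δe := hmono.monotone k1
    rw [sg_neg] at k2
    have k3 := sg_num h0' h1
    have k4 : GG h (-1.0453) ≤ GG h (sg h δe) := GG_mono h0' h1 (by linarith)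
    rw [GG_neg] at k4
    have k5 := numGa (by linarith : (0.45 : ℝ) ≤ h) h1
    linarith [hds'.1]
  · have k1 : -1.2023 ≤ δe := by linarith [be.1, bU.2]
    have k2 : sg h (-1.2023) ≤ sg h δe := hmono.monotone k1
    rw [sg_neg] at k2
    have k4 : GG h (-(sg h 1.2023)) ≤ GG h (sg h δe) := GG_mono h0' h1 k2
    rw [GG_neg] at k4
    have k5 := numGb (by linarith : (0.45 : ℝ) ≤ h) h1
    have k6 : 0 ≤ sin (δU - β) := sin_nonneg_of_nonneg_of_le_pi hu.le (by linarith [bU.2])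
    have k7 : 0 ≤ d * sin (δU - β) := mul_nonneg (by linarith) k6
    linarith

end Pool.Agent.TE25
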