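import Pool.Agent.TE25.CorN2
import Pool.Agent.TE25.CorP
import Pool.Agent.TE25.CorT

/-!
# TE25/Corner: the corner inequality for a circle about `h` on the positive real axis

`cs_exists` (`sin (δU - β') = sin (δU - β)`), `sg_surj` for `s + τ`; `cor_pi` if `π ≤ δr`, otherwise `cor_near` or `cor_far`.
-/

set_option autoImplicit false

namespace Pool.Agent.TE25

open Real Pool.Agent.TD25

theorem corner {R h d β δe δU : ℝ} (hR : OkR R) (h0 : 0.05 ≤ h) (h1 : h ≤ 0.76) (hd : R - 1 ≤ d)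
    (hd2 : d ^ 2 ≤ R ^ 2 - 1) (e1 : δe ≤ δU) (e2 : δU < δe + π) (u0 : 0 < δU) (u1 : δU < π)
    (se : Sh (pt d β) (pt (rd h δe) δe)) (sU : Sh (pt d β) (pt (rd h δU) δU)) :
    1 / 2 * fi R (d ^ 2) - GG h (sg h δe) + 0.37 * δU - 0.14 * (d * sin (δU - β)) ≤
      π / 4 - 0.749 + 0.37 * (π / 2) := by
  obtain ⟨β', s, τ, m, hm, C⟩ := cs_exists hR h0 h1 hd hd2 e1 e2 u0 u1 se sU
  have hs : sin (δU - β) = sin (δU - β') := by
    rw [hm, show δU - (β + 2 * π * m) = δU - β - m * (2 * π) by ring, sin_sub_int_mul_two_pi]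
  rw [hs]
  obtain ⟨δr, hr⟩ := sg_surj (by linarith : (0 : ℝ) ≤ h) (by linarith) (s + τ)
  rcases le_or_gt π δr with hp | hp
  · exact cor_pi C hr hp
  · rcases le_or_gt 0 (((h : ℂ) + pt 1 (s + τ)) * (starRingEnd ℂ) (pt 1 (s - τ))).re with hn | hn
    · exact cor_near C hr hp hn
    · exact cor_far C hr hp hn

end Pool.Agent.TE25
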