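import Mathlib

/-!
# TE25/CovSum: finitely many sets of small diameter that cover an interval

Proof. `volume (Ioo p q) ≤ ∑ volume (S i)` (`MeasureTheory.measure_biUnion_finset_le`), and `volume (S i) ≤ ofReal (r i)`: `S i` is empty or
contained in `Icc (sInf (S i)) (sInf (S i) + r i)` (for `y ∈ S i` the set is bounded; or `Real.volume_le_diam`).
-/

set_option autoImplicit false

namespace Pool.Agent.TE25

theorem cov_sum {ι : Type} (s : Finset ι) (S : ι → Set ℝ) (r : ι → ℝ) (hr : ∀ i ∈ s, 0 ≤ r i)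
    (hS : ∀ i ∈ s, ∀ y ∈ S i, ∀ y' ∈ S i, y' - y ≤ r i) {p q : ℝ} (hpq : p ≤ q)
    (hc : ∀ y : ℝ, p < y → y < q → ∃ i ∈ s, y ∈ S i) : q - p ≤ ∑ i ∈ s, r i := by
  have h1 : Set.Ioo p q ⊆ ⋃ i ∈ s, S i := by
    intro y hy
    obtain ⟨i, hi, hy'⟩ := hc y hy.1 hy.2
    exact Set.mem_biUnion hi hy'
  have h2 : MeasureTheory.volume (Set.Ioo p q) ≤ ∑ i ∈ s, MeasureTheory.volume (S i) :=
    (MeasureTheory.measure_mono h1).trans (MeasureTheory.measure_biUnion_finset_le s S)
  have h3 : ∀ i ∈ s, MeasureTheory.volume (S i) ≤ ENNReal.ofReal (r i) := by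
    intro i hi
    rcases (S i).eq_empty_or_nonempty with he | ⟨y0, hy0⟩
    · simp [he]
    have hbb : BddBelow (S i) := ⟨y0 - r i, fun y hy => by
      have := hS i hi y hy y0 hy0
      linarith⟩
    have hsub : S i ⊆ Set.Icc (sInf (S i)) (sInf (S i) + r i) := by
      intro y hy
      refine ⟨csInf_le hbb hy, ?_⟩
      have : y - r i ≤ sInf (S i) := by
        apply le_csInf ⟨y0, hy0⟩
        intro z hz
        have := hS i hi z hz y hy
        linarith
      linarith
    calc MeasureTheory.volume (S i) ≤ MeasureTheory.volume (Set.Icc (sInf (S i)) (sInf (S i) + r i)) :=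
          MeasureTheory.measure_mono hsub
      _ = ENNReal.ofReal (r i) := by
          rw [Real.volume_Icc]
          congr 1
          ring
  have h4 : ENNReal.ofReal (q - p) ≤ ENNReal.ofReal (∑ i ∈ s, r i) := by
    rw [← Real.volume_Ioo, ENNReal.ofReal_sum_of_nonneg hr]
    exact h2.trans (Finset.sum_le_sum h3)
  exact (ENNReal.ofReal_le_ofReal_iff (Finset.sum_nonneg hr)).1 h4

end Pool.Agent.TE25
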