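import Pool.Agent.TE25.ShD

/-!
# TE25/DC: two shadows cannot alternate

`x1, x2` in the shadow of `b`, not in the shadow of `b'`; `u = p x1 + q x2` (`p, q > 0`) in the shadow of `b'`, not in the shadow
of `b`: impossible. Write `⟨x, w⟩ = Re (x conj w)`.

Proof. `Sh_sep`: unit vectors `w1, w2` with `⟨b', wi⟩ ≥ 1`, `⟨xi, wi⟩ < ⟨b', wi⟩ - 1`, and `w0` with `⟨b, w0⟩ ≥ 1`, `⟨u, w0⟩ < ⟨b, w0⟩ - 1`.
`Sh_dual`: `⟨u, wi⟩ ≥ ⟨b', wi⟩ - 1 ≥ 0`, so `⟨xi, wi⟩ < ⟨u, wi⟩` (1); `⟨xi, w0⟩ ≥ ⟨b, w0⟩ - 1 ≥ 0`, so `⟨u, w0⟩ < ⟨xi, w0⟩` (2).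
With `v = b' - b`: `⟨v, wi⟩ > 0` for `i = 1, 2` (if `⟨b, wi⟩ < 1` clear; otherwise `⟨b, wi⟩ - 1 ≤ ⟨xi, wi⟩ < ⟨b', wi⟩ - 1`) (3), and
`⟨v, w0⟩ < 0` (if `⟨b', w0⟩ < 1` clear; otherwise `⟨b', w0⟩ - 1 ≤ ⟨u, w0⟩ < ⟨b, w0⟩ - 1`) (4).
Put `ai = ⟨x1, wi⟩`, `bi = ⟨x2, wi⟩` (`i = 0, 1, 2`), so `⟨u, wi⟩ = p ai + q bi`.
From (2): `0 ≤ a0`, `0 ≤ b0`, `p a0 + q b0 < a0`, `p a0 + q b0 < b0`; hence `a0, b0 > 0`, `p < 1`, `q < 1`.
From (1): `a1 < p a1 + q b1`, `0 ≤ p a1 + q b1`: if `b1 ≤ 0` then `(1 - p) a1 < q b1 ≤ 0`, so `a1 < 0` and `p a1 + q b1 < 0`, contradiction. So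
`b1 > 0`, and `a0 b1 - b0 a1 > 0` because `(1 - p) a0 > q b0`, `(1 - p) a1 < q b1`. In the same way `a2 > 0` and `a2 b0 - b2 a0 > 0`
(`b2 < p a2 + q b2`).
The three vectors `wi` of the plane satisfy `D w0 = E w2 + F w1` for any area form, in particular with
`D = a2 b1 - b2 a1`, `E = a0 b1 - b0 a1 > 0`, `F = a2 b0 - b2 a0 > 0`: indeed this is true for the vectors `(ai, bi)`, and `wi ↦ (ai, bi)` is
linear; it is injective because `x1, x2` are linearly independent: if `x2 = s x1` (real `s`), then `bi = s ai` for all `i`, which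
contradicts `E > 0`; or use `ai bj - aj bi = (x1 × x2) (wi × wj)` where `×` is the determinant, and `x1 × x2 ≠ 0` as `E ≠ 0`.
Apply `⟨u, ·⟩`: `D (p a0 + q b0) = E (p a2 + q b2) + F (p a1 + q b1) ≥ 0` and `p a0 + q b0 > 0`, so `D ≥ 0`. Apply `⟨v, ·⟩`:
`D ⟨v, w0⟩ = E ⟨v, w2⟩ + F ⟨v, w1⟩ > 0`, so `⟨v, w0⟩ > 0` (`D ≥ 0`): contradiction to (4).
-/

set_option autoImplicit false

namespace Pool.Agent.TE25

open Real

private theorem ip_eq (x w : ℂ) : (x * (starRingEnd ℂ) w).re = x.re * w.re + x.im * w.im := by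
  simp [Complex.mul_re]

theorem DC {b b' x1 x2 u : ℂ} (hb : 1 < ‖b‖) (hb' : 1 < ‖b'‖) (h1 : Sh b x1) (h2 : Sh b x2) (h1' : ¬ Sh b' x1)
    (h2' : ¬ Sh b' x2) (hu' : Sh b' u) (hu : ¬ Sh b u) {p q : ℝ} (hp : 0 < p) (hq : 0 < q)
    (hc : u = (p : ℂ) * x1 + (q : ℂ) * x2) : False := by
  obtain ⟨w1, hw1, hb1, hx1⟩ := Sh_sep hb' h1'
  obtain ⟨w2, hw2, hb2, hx2⟩ := Sh_sep hb' h2'
  obtain ⟨w0, hw0, hb0, hx0⟩ := Sh_sep hb hu
  have k1 := Sh_dual hb' hu' hw1 hb1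
  have k2 := Sh_dual hb' hu' hw2 hb2
  have l1 := Sh_dual hb h1 hw0 hb0
  have l2 := Sh_dual hb h2 hw0 hb0
  have v1 : (b * (starRingEnd ℂ) w1).re < (b' * (starRingEnd ℂ) w1).re := by
    by_contra hcon
    push Not at hcon
    have := Sh_dual hb h1 hw1 (by linarith)
    linarith
  have v2 : (b * (starRingEnd ℂ) w2).re < (b' * (starRingEnd ℂ) w2).re := by
    by_contra hcon
    push Not at hcon
    have := Sh_dual hb h2 hw2 (by linarith)
    linarith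
  have v0 : (b' * (starRingEnd ℂ) w0).re < (b * (starRingEnd ℂ) w0).re := by
    by_contra hcon
    push Not at hcon
    have := Sh_dual hb' hu' hw0 (by linarith)
    linarith
  have hur : u.re = p * x1.re + q * x2.re := by rw [hc]; simp
  have hui : u.im = p * x1.im + q * x2.im := by rw [hc]; simp
  simp only [ip_eq] at *
  clear hc hu hu' h1 h2 h1' h2' hw0 hw1 hw2 hb hb'
  obtain ⟨a0, ha0⟩ : ∃ a, a = x1.re * w0.re + x1.im * w0.im := ⟨_, rfl⟩
  obtain ⟨a1, ha1⟩ : ∃ a, a = x1.re * w1.re + x1.im * w1.im := ⟨_, rfl⟩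
  obtain ⟨a2, ha2⟩ : ∃ a, a = x1.re * w2.re + x1.im * w2.im := ⟨_, rfl⟩
  obtain ⟨b0, hb0'⟩ : ∃ a, a = x2.re * w0.re + x2.im * w0.im := ⟨_, rfl⟩
  obtain ⟨b1, hb1'⟩ : ∃ a, a = x2.re * w1.re + x2.im * w1.im := ⟨_, rfl⟩
  obtain ⟨b2, hb2'⟩ : ∃ a, a = x2.re * w2.re + x2.im * w2.im := ⟨_, rfl⟩
  have u0 : u.re * w0.re + u.im * w0.im = p * a0 + q * b0 := by rw [hur, hui, ha0, hb0']; ring
  have u1 : u.re * w1.re + u.im * w1.im = p * a1 + q * b1 := by rw [hur, hui, ha1, hb1']; ring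
  have u2 : u.re * w2.re + u.im * w2.im = p * a2 + q * b2 := by rw [hur, hui, ha2, hb2']; ring
  have idv : (a2 * b1 - b2 * a1) * ((b'.re * w0.re + b'.im * w0.im) - (b.re * w0.re + b.im * w0.im)) =
      (a0 * b1 - b0 * a1) * ((b'.re * w2.re + b'.im * w2.im) - (b.re * w2.re + b.im * w2.im)) +
      (a2 * b0 - b2 * a0) * ((b'.re * w1.re + b'.im * w1.im) - (b.re * w1.re + b.im * w1.im)) := by
    rw [ha0, ha1, ha2, hb0', hb1', hb2']
    ring
  rw [u0] at hx0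
  rw [u1] at k1
  rw [u2] at k2
  rw [← ha0] at l1
  rw [← hb0'] at l2
  rw [← ha1] at hx1
  rw [← hb2'] at hx2
  -- the basic inequalities
  have A1 : a1 < p * a1 + q * b1 := by linarith
  have A2 : b2 < p * a2 + q * b2 := by linarith
  have A3 : 0 ≤ p * a1 + q * b1 := by linarith
  have A4 : 0 ≤ p * a2 + q * b2 := by linarith
  have A5 : p * a0 + q * b0 < a0 := by linarith
  have A6 : p * a0 + q * b0 < b0 := by linarith
  have A7 : 0 ≤ a0 := by linarith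
  have A8 : 0 ≤ b0 := by linarith
  have P0 : 0 ≤ p * a0 := by positivity
  have Q0 : 0 ≤ q * b0 := by positivity
  have a0p : 0 < a0 := by linarith
  have b0p : 0 < b0 := by linarith
  have P0' : 0 < p * a0 := by positivity
  have Q0' : 0 < q * b0 := by positivity
  have p1 : p < 1 := by
    by_contra hcon
    push Not at hcon
    nlinarith
  have q1 : q < 1 := by
    by_contra hcon
    push Not at hcon
    nlinarith
  have b1p : 0 < b1 := by
    by_contra hcon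
    push Not at hcon
    have : (1 - p) * a1 < 0 := by nlinarith
    have ha : a1 < 0 := by
      by_contra h'
      push Not at h'
      nlinarith
    nlinarith
  have a2p : 0 < a2 := by
    by_contra hcon
    push Not at hcon
    have : (1 - q) * b2 < 0 := by nlinarith
    have hb : b2 < 0 := by
      by_contra h'
      push Not at h'
      nlinarith
    nlinarith
  have E : 0 < a0 * b1 - b0 * a1 := by
    have e1 : 0 < ((1 - p) * a0 - q * b0) * b1 := mul_pos (by linarith) b1p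
    have e2 : 0 < b0 * (q * b1 - (1 - p) * a1) := mul_pos b0p (by linarith)
    have e3 : 0 < (1 - p) * (a0 * b1 - b0 * a1) := by nlinarith
    exact (mul_pos_iff_of_pos_left (by linarith)).1 e3
  have F : 0 < a2 * b0 - b2 * a0 := by
    have e1 : 0 < ((1 - q) * b0 - p * a0) * a2 := mul_pos (by linarith) a2p
    have e2 : 0 < a0 * (p * a2 - (1 - q) * b2) := mul_pos a0p (by linarith)
    have e3 : 0 < (1 - q) * (a2 * b0 - b2 * a0) := by nlinarith
    exact (mul_pos_iff_of_pos_left (by linarith)).1 e3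
  have idu : (a2 * b1 - b2 * a1) * (p * a0 + q * b0) =
      (a0 * b1 - b0 * a1) * (p * a2 + q * b2) + (a2 * b0 - b2 * a0) * (p * a1 + q * b1) := by
    ring
  have D0 : 0 ≤ a2 * b1 - b2 * a1 := by
    by_contra hcon
    push Not at hcon
    have e1 := mul_neg_of_neg_of_pos hcon (by linarith : 0 < p * a0 + q * b0)
    have e2 := mul_nonneg E.le A4
    have e3 := mul_nonneg F.le A3
    linarith
  have e1 := mul_pos E (sub_pos.2 v2)
  have e2 := mul_pos F (sub_pos.2 v1)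
  have e3 := mul_nonneg D0 (sub_pos.2 v0).le
  have e4 : (a2 * b1 - b2 * a1) * ((b'.re * w0.re + b'.im * w0.im) - (b.re * w0.re + b.im * w0.im)) =
      -((a2 * b1 - b2 * a1) * ((b.re * w0.re + b.im * w0.im) - (b'.re * w0.re + b'.im * w0.im))) := by
    ring
  linarith

end Pool.Agent.TE25
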