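import Pool.Agent.TD25.Defs

/-!
# TE25/Defs: covering a disk by twelve unit disks, the cases of at most two inner disks (MP_7121fa_co)

Notation as in `TD25/Defs`: all disks have radius 1, the big disk has radius `R` (`OkR R`) and centre 0, `pt d b` is the
point with norm `d` and argument `b`, `fi R D` is half of the arc of the circle of radius `R` in a unit disk whose centre
has squared norm `D`.

For a unit circle with centre `pt h α`, `0 ≤ h < 1` (so that 0 is inside):
`bp h α θ` is its point in the direction `θ`, of norm `rd h (θ - α)`; the outer normal at this point has the direction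
`α + sg h (θ - α)`.
`Sh b x`: the point `x` is in the closed unit disk about `b` or behind it (as seen from 0): the segment from `0` to `x`
meets the closed unit disk about `b`.
`GG h σ` is the potential (a measure on the circle): it is increasing in `σ` and odd.
-/

set_option autoImplicit false

namespace Pool.Agent.TE25

open Real Pool.Agent.TD25

/-- The norm of the point in direction `δ` of the unit circle with centre `h` on the positive real axis. -/
noncomputable def rd (h δ : ℝ) : ℝ := h * cos δ + √(1 - (h * sin δ) ^ 2)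

/-- The direction of the outer normal at this point. -/
noncomputable def sg (h δ : ℝ) : ℝ := δ + arcsin (h * sin δ)

/-- The point in direction `θ` of the unit circle with centre `pt h α`. -/
noncomputable def bp (h α θ : ℝ) : ℂ := pt (rd h (θ - α)) θ

/-- The segment from `0` to `x` meets the closed unit disk about `b`. -/
def Sh (b x : ℂ) : Prop := ∃ t : ℝ, 0 ≤ t ∧ t ≤ 1 ∧ ‖(t : ℂ) * x - b‖ ≤ 1

/-- `‖b‖ sin (θ - arg b)`. -/
noncomputable def XD (b : ℂ) (θ : ℝ) : ℝ := (pt 1 θ * (starRingEnd ℂ) b).im

/-- Coefficients of the potential. -/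
noncomputable def gb (h : ℝ) : ℝ := 0.2354 + h * (0.1000 + h * (1.0572 + h * (-1.7584)))

noncomputable def ga1 (h : ℝ) : ℝ := -0.0011 + h * (-1.1453 + h * (-0.7530 + h * 2.4937))

noncomputable def ga2 (h : ℝ) : ℝ := -0.0051 + h * (0.1426 + h * (0.3984 + h * (-0.6789)))

noncomputable def ga3 (h : ℝ) : ℝ := 0.0006 + h * (-0.0242 + h * (-0.0355 + h * 0.0830))

/-- The potential. -/
noncomputable def GG (h σ : ℝ) : ℝ := gb h * σ + ga1 h * sin σ + ga2 h * sin (2 * σ) + ga3 h * sin (3 * σ)

/-- Half of the mass `GG h (s + τ) - GG h (s - τ)` of an arc, with `u = cos s`. -/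
noncomputable def MM (h τ u : ℝ) : ℝ :=
  gb h * τ + sin τ * (ga1 h * u + 2 * ga2 h * cos τ * (2 * u ^ 2 - 1) +
    ga3 h * (4 * cos τ ^ 2 - 1) * (u * (4 * u ^ 2 - 3)))

/-- `(R0^2 - 1 + D)^2 - 4 R0^2 D cos^2 y` with `R0 = 2.7692`. -/
noncomputable def EE (D y : ℝ) : ℝ := (6.66846864 + D) ^ 2 - 30.67387456 * D * cos y ^ 2

end Pool.Agent.TE25
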