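import Pool.Agent.TE25.NumDefs

/-!
# TE25/NumSL: numerical inequalities for one inner disk (verified Taylor models)

Proof. `of_box` at the point `(h, τ, s)` (`(h, 0, 0)` for `numT`); `cos s = -sin (s - π/2)`, `sin s = cos (s - π/2)`. `eM5` is `MM h τ (cos s)`, `eD5` is
`D = h^2 + 4 cos^2 τ + 4 h cos τ cos s`. The alternatives contradict the hypotheses (`oC5`: `s + τ - π - 0.0001`; `oA5`: `0.5775 - D`; `oB5`: `D - 3.131`;
`oD5`; `oE5`, `oF5`).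
-/

set_option autoImplicit false

namespace Pool.Agent.TE25

open Real Pool.Agent.SB19 Pool.Agent.TD25

theorem chkT : chk2 [eT11] [] .L
    ((0 + 242200) * 524288) ((242200 - 0) * 524288) ((0 + 1) * 524288) ((1 - 0) * 524288)
    ((0 + 1) * 524288) ((1 - 0) * 524288) = true := by
  decide +kernel

theorem chkSb : chk2 [eSL] [] (.Z (.Z .L .L) (.Y .L (.Z .L (.Y .L .L))))
    ((0 + 52429) * 524288) ((52429 - 0) * 524288) ((0 + 1647200) * 524288) ((1647200 - 0) * 524288)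
    ((0 + 3294400) * 524288) ((3294400 - 0) * 524288) = true := by
  decide +kernel

theorem chkSa : chk2 [eSL] [oC5] (.Z (.Z (.X .L .L) (.Y .L (.X (.X .L .L) .L))) (.Y (.Z .L (.Y .L .L)) (.Z (.Y (.X .L .L) (.Z (.X .L .L) .D)) .D)))
    ((52427 + 242200) * 524288) ((242200 - 52427) * 524288) ((0 + 1647200) * 524288) ((1647200 - 0) * 524288)
    ((0 + 3294400) * 524288) ((3294400 - 0) * 524288) = true := by
  decide +kernel

theorem chkSc1 : chk2 [eSL] [oA5, oB5] (.Z (.Y .L (.Z (.X .L .L) (.X (.X .L .L) (.X .L .L)))) (.Y (.Z .L (.Y .L .L)) (.Y (.Z (.X .L .L) (.X .L (.Z (.Y .L (.X .L .L)) (.Y .L (.X .L (.Z (.Y .L (.Y .L .D)) (.Y .L (.X .L .D)))))))) (.Z (.Y (.Z .L (.X .L .D)) .D) (.X (.X (.X .L .L) .D) .D)))))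
    ((0 + 242100) * 524288) ((242100 - 0) * 524288) ((0 + 1647200) * 524288) ((1647200 - 0) * 524288)
    ((0 + 3294400) * 524288) ((3294400 - 0) * 524288) = true := by
  decide +kernel

theorem chkSc2 : chk2 [eSL] [oA5, oB5, oD5, oE5, oF5] (.Z (.Y (.Z .D (.X .D .D)) (.Z (.X .L (.X .L .L)) (.X (.X .L .L) (.X .L (.Y .D (.Y .D .D)))))) (.X (.X (.Y (.Z .L (.Y .L (.Y .L .L))) (.Y (.Z (.X .L .L) (.Z (.Y .L (.Z .L (.Y .L (.X (.X .L .D) .D)))) (.Y (.Z .L (.X .L .L)) (.Y (.Z (.X (.X .L .L) (.Y (.Z .L (.Z .L .L)) (.X (.Z .L .D) .D))) (.X (.Y .L (.Y .L (.X .L .D))) (.Y (.X (.Z .L .L) (.Y (.Z .L .L) .D)) .D))) .D)))) (.Z (.Z (.X .L .D) (.X .D .D)) .D))) (.Y (.Z .L (.Z .L (.Y .D .L))) (.Z (.X (.Y .L (.Y .D .D)) (.Y (.X .L .L) (.Y .D .D))) (.Y (.Z (.Z .D (.Y .D (.Y (.X .D .D) .D))) (.Y (.Z (.X (.Y .D (.Z .D (.Y .L (.Z .L .L)))) (.X .D .D)) (.Y .L (.Y (.X .L (.Y (.Z .L (.Z .L .L)) (.X (.Z .L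 (.Z .L .L)) (.Z (.X (.X (.Z .D .L) .D) .D) (.X (.Y (.Z .L .L) .D) .D))))) (.X (.Y (.Z .L (.Z .L .L)) (.X (.Z .L (.Z .L .L)) (.X (.Z (.Y .L .D) .D) .D))) (.X (.X (.Y (.Y (.Z .L (.X .L .D)) .D) .D) .D) .D))))) (.X (.Y (.Z (.Y (.Z (.X .L .D) (.X (.Y (.X .L .D) .D) .D)) .D) (.X .D .D)) .D) .D))) .D)))) (.Z (.Y (.Z .D (.Y .D (.X .L .D))) (.X (.X (.X (.X .D .D) .D) (.X .D .D)) (.X (.X .D .D) .D))) (.Y (.X (.X (.X (.X .D .D) .D) (.X .D .D)) (.X (.X .D .D) .D)) (.Y (.Z (.X (.X .D .D) .D) (.Y (.Z (.X .D .D) (.Y (.Z .D (.X (.Z (.X .D .D) (.Y .D (.X (.X (.Y .L (.X .L .L)) (.Z .D (.Y .D (.Y (.X (.Z .D (.Y .L (.X .L (.X .L .D)))) (.Y .D .D)) .D)))) (.Y .D .D)))) (.Y .D .D))) (.X (.X (.X (.Y (.Z .D (.Y (.Y (.X (.Z .D .L) (.Z .D .D)) .D) .D)) .D) .D) .D) .D))) .D)) (.Y .D (.Y .D (.X .D .D))))))))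
    ((242000 + 796918) * 524288) ((796918 - 242000) * 524288) ((0 + 1647200) * 524288) ((1647200 - 0) * 524288)
    ((0 + 3294400) * 524288) ((3294400 - 0) * 524288) = true := by
  decide +kernel

private theorem ev_Cs (x y z : ℝ) : eCs.eval x y z = cos z := by
  have h : z - π / ((2 : ℕ) : ℝ) = z - π / 2 := by push_cast; rfl
  simp only [eCs, eZp, ev_eSub, Ex.eval]
  rw [h, sin_sub_pi_div_two, neg_neg]

private theorem ev_Ss (x y z : ℝ) : eSs.eval x y z = sin z := by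
  have h : z - π / ((2 : ℕ) : ℝ) = z - π / 2 := by push_cast; rfl
  simp only [eSs, eZp, ev_eSub, Ex.eval]
  rw [h, cos_sub_pi_div_two]

private theorem ev_M5 (x y z : ℝ) : eM5.eval x y z = MM x y (cos z) := by
  simp only [eM5, eS1, eC1, MM, ev_eSub, ev_eSq, Ex.eval, ev_Cs, ev_eB, ev_eA1, ev_eA2, ev_eA3]
  push_cast
  ring

private theorem ev_D5 (x y z : ℝ) :
    eD5.eval x y z = x ^ 2 + 4 * cos y ^ 2 + 4 * x * cos y * cos z := by
  simp only [eD5, eC1, ev_eSq, Ex.eval, ev_Cs]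
  push_cast
  ring

private theorem ev_SL (x y z : ℝ) :
    eSL.eval x y z = 2 * π * gb x - 2 * MM x y (cos z) - (3.741 - π) := by
  simp only [eSL, ev_eSub, Ex.eval, ev_M5, ev_eB]
  push_cast
  ring

theorem numT {h : ℝ} (h0 : 0 ≤ h) (h1 : h ≤ 0.2309) : 4.115 - π ≤ 2 * π * gb h := by
  have bx1 : ((0 : ℕ) : ℝ) ≤ 1048576 * h := by push_cast; positivity
  have bx2 : 1048576 * h ≤ ((242200 : ℕ) : ℝ) := by push_cast; norm_num at h1; linarith
  have b1 : ((0 : ℕ) : ℝ) ≤ 1048576 * (0 : ℝ) := by simp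
  have b2 : 1048576 * (0 : ℝ) ≤ ((1 : ℕ) : ℝ) := by simp
  rcases of_box [eT11] [] .L 0 242200 0 1 0 1 (by norm_num) (by norm_num) (by norm_num)
      chkT bx1 bx2 b1 b2 b1 b2 with ⟨d, hd, hd0⟩ | hp
  · exact absurd hd (List.not_mem_nil)
  · have h2 := hp eT11 (List.mem_cons_self)
    simp only [eT11, ev_eSub, Ex.eval, ev_eB] at h2
    push_cast at h2
    norm_num at h2 ⊢
    linarith

private theorem boxy {τ : ℝ} (t0 : 0 ≤ τ) (t1 : τ ≤ π / 2) :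
    ((0 : ℕ) : ℝ) ≤ 1048576 * τ ∧ 1048576 * τ ≤ ((1647200 : ℕ) : ℝ) := by
  have hpi := pi_lt_d4
  constructor
  · push_cast; positivity
  · push_cast; norm_num at hpi; linarith

private theorem boxz {s : ℝ} (s0 : 0 ≤ s) (s1 : s ≤ π) :
    ((0 : ℕ) : ℝ) ≤ 1048576 * s ∧ 1048576 * s ≤ ((3294400 : ℕ) : ℝ) := by
  have hpi := pi_lt_d4
  constructor
  · push_cast; positivity
  · push_cast; norm_num at hpi; linarith

private theorem conc {h τ s : ℝ} (hp : ∀ p ∈ [eSL], 0 ≤ p.eval h τ s) :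
    3.741 - π ≤ 2 * π * gb h - 2 * MM h τ (cos s) := by
  have h2 := hp eSL (List.mem_cons_self)
  rw [ev_SL] at h2
  linarith

theorem numSb {h τ s : ℝ} (h0 : 0 ≤ h) (h1 : h ≤ 0.05) (t0 : 0 ≤ τ) (t1 : τ ≤ π / 2) (s0 : 0 ≤ s) (s1 : s ≤ π) :
    3.741 - π ≤ 2 * π * gb h - 2 * MM h τ (cos s) := by
  have bx1 : ((0 : ℕ) : ℝ) ≤ 1048576 * h := by push_cast; positivity
  have bx2 : 1048576 * h ≤ ((52429 : ℕ) : ℝ) := by push_cast; norm_num at h1; linarith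
  rcases of_box [eSL] [] _ 0 52429 0 1647200 0 3294400 (by norm_num) (by norm_num) (by norm_num)
      chkSb bx1 bx2 (boxy t0 t1).1 (boxy t0 t1).2 (boxz s0 s1).1 (boxz s0 s1).2 with ⟨d, hd, hd0⟩ | hp
  · exact absurd hd (List.not_mem_nil)
  · exact conc hp

theorem numSa {h τ s : ℝ} (h0 : 0.05 ≤ h) (h1 : h ≤ 0.2309) (t0 : 0 ≤ τ) (t1 : τ ≤ π / 2) (s0 : 0 ≤ s)
    (s1 : s + τ ≤ π) : 3.741 - π ≤ 2 * π * gb h - 2 * MM h τ (cos s) := by
  have bx1 : ((52427 : ℕ) : ℝ) ≤ 1048576 * h := by push_cast; norm_num at h0; linarith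
  have bx2 : 1048576 * h ≤ ((242200 : ℕ) : ℝ) := by push_cast; norm_num at h1; linarith
  have s1' : s ≤ π := by linarith
  rcases of_box [eSL] [oC5] _ 52427 242200 0 1647200 0 3294400 (by norm_num) (by norm_num) (by norm_num)
      chkSa bx1 bx2 (boxy t0 t1).1 (boxy t0 t1).2 (boxz s0 s1').1 (boxz s0 s1').2 with ⟨d, hd, hd0⟩ | hp
  · rw [List.mem_singleton] at hd
    rw [hd] at hd0
    simp only [oC5, ev_eSub, Ex.eval] at hd0
    push_cast at hd0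
    norm_num at hd0
    linarith
  · exact conc hp

theorem numSc1 {h τ s D : ℝ} (h0 : 0 ≤ h) (h1 : h ≤ 0.23088) (t0 : 0 ≤ τ) (t1 : τ ≤ π / 2) (s0 : 0 ≤ s) (s1 : s ≤ π)
    (hDd : D = h ^ 2 + 4 * cos τ ^ 2 + 4 * h * cos τ * cos s) (hD1 : 0.5775 < D) (hD2 : D < 3.131) :
    3.741 - π ≤ 2 * π * gb h - 2 * MM h τ (cos s) := by
  have bx1 : ((0 : ℕ) : ℝ) ≤ 1048576 * h := by push_cast; positivity
  have bx2 : 1048576 * h ≤ ((242100 : ℕ) : ℝ) := by push_cast; norm_num at h1; linarith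
  rcases of_box [eSL] [oA5, oB5] _ 0 242100 0 1647200 0 3294400 (by norm_num) (by norm_num) (by norm_num)
      chkSc1 bx1 bx2 (boxy t0 t1).1 (boxy t0 t1).2 (boxz s0 s1).1 (boxz s0 s1).2 with ⟨d, hd, hd0⟩ | hp
  · exfalso
    rw [List.mem_cons, List.mem_singleton] at hd
    rcases hd with rfl | rfl
    · simp only [oA5, ev_eSub, Ex.eval, ev_D5] at hd0
      rw [← hDd] at hd0
      push_cast at hd0
      norm_num at hd0 hD1
      linarith
    · simp only [oB5, ev_eSub, Ex.eval, ev_D5] at hd0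
      rw [← hDd] at hd0
      push_cast at hd0
      norm_num at hd0 hD2
      linarith
  · exact conc hp

theorem numSc2 {h τ s D : ℝ} (h0 : 0.2308 ≤ h) (h1 : h ≤ 0.76) (t0 : 0 ≤ τ) (t1 : τ ≤ π / 2) (s0 : 0 ≤ s) (s1 : s ≤ π)
    (hDd : D = h ^ 2 + 4 * cos τ ^ 2 + 4 * h * cos τ * cos s) (hD1 : 0.5775 < D) (hD2 : D < 3.131)
    (hA : D + 2 * 0.7692 * (h + 2 * cos τ * cos s) + 0.59166864 < 1.001)
    (hU : 0.5915 < 1 + h ^ 2 + 2 * h * (cos s * cos τ + sin s * sin τ))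
    (hV : 0.5915 < 1 + h ^ 2 + 2 * h * (cos s * cos τ - sin s * sin τ)) :
    3.741 - π ≤ 2 * π * gb h - 2 * MM h τ (cos s) := by
  have bx1 : ((242000 : ℕ) : ℝ) ≤ 1048576 * h := by push_cast; norm_num at h0; linarith
  have bx2 : 1048576 * h ≤ ((796918 : ℕ) : ℝ) := by push_cast; norm_num at h1; linarith
  rcases of_box [eSL] [oA5, oB5, oD5, oE5, oF5] _ 242000 796918 0 1647200 0 3294400
      (by norm_num) (by norm_num) (by norm_num)
      chkSc2 bx1 bx2 (boxy t0 t1).1 (boxy t0 t1).2 (boxz s0 s1).1 (boxz s0 s1).2 with ⟨d, hd, hd0⟩ | hp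
  · exfalso
    rw [List.mem_cons, List.mem_cons, List.mem_cons, List.mem_cons, List.mem_singleton] at hd
    rcases hd with rfl | rfl | rfl | rfl | rfl
    · simp only [oA5, ev_eSub, Ex.eval, ev_D5] at hd0
      rw [← hDd] at hd0
      push_cast at hd0
      norm_num at hd0 hD1
      linarith
    · simp only [oB5, ev_eSub, Ex.eval, ev_D5] at hd0
      rw [← hDd] at hd0
      push_cast at hd0
      norm_num at hd0 hD2
      linarith
    · simp only [oD5, eC1, ev_eSub, Ex.eval, ev_D5, ev_Cs] at hd0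
      rw [← hDd] at hd0
      push_cast at hd0
      norm_num at hd0 hA
      linarith
    · simp only [oE5, eC1, eS1, ev_eSub, ev_eSq, Ex.eval, ev_Cs, ev_Ss] at hd0
      push_cast at hd0
      norm_num at hd0 hU
      linarith
    · simp only [oF5, eC1, eS1, ev_eSub, ev_eSq, Ex.eval, ev_Cs, ev_Ss] at hd0
      push_cast at hd0
      norm_num at hd0 hV
      linarith
  · exact conc hp

end Pool.Agent.TE25
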