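import Pool.Agent.TE25.MassI
import Pool.Agent.TE25.ArcP
import Pool.Agent.TE25.CovSum

/-!
# TE25/OneLobe: the total mass of the circle about `pt h α`

Let `Γ = GG h` (continuous, monotone, `Γ (σ + 2πk) = Γ σ + 2π (gb h) k`).
(1) `piece`: for each `i` there are `s ∈ [-π, π]`, `τ ∈ [0, π/2]` such that every `σ` with `‖pt h α + pt 1 (α + σ) - b i‖ < 1` has `|σ - s - 2πk| < τ` for some integer `k`, and
`Γ (s + τ) - Γ (s - τ) ≤ 0.374 - fi R (‖b i‖^2)`: if `‖b i - pt h α‖ ≤ 2` by `polar2`, `arc_lt`, `massI`; otherwise `s = τ = 0`: no such `σ` exists (triangle inequality: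
`‖pt h α + pt 1 (α + σ) - b i‖ ≥ ‖b i - pt h α‖ - 1 > 1`) and the right side is positive (`fi_le`, `phm_hi`).
(2) `one_lobe`: for a natural number `N ≥ 1` use `cov_sum` on the interval from `Γ 0 = 0` to `Γ (2πN) = 2πN gb h` with the index set
`Option (Fin n) × {k : -1 ≤ k ≤ N + 1}` (`Finset.univ ×ˢ Finset.Icc (-1) (N + 1)`, integers `k`) and the sets
`S (i, k) = {Γ σ | |σ - s i - 2πk| < τ i}`, of diameter at most `r (i, k) = Γ (s i + τ i) - Γ (s i - τ i) ≥ 0` (`GG_add`, `GG_mono`); here `s none = s`, `τ none = τ`, reduced so that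
`|s| ≤ π` (replace `s` by `s - 2πm`; `GG_add`). Every `y` between `Γ 0` and `Γ (2πN)` is `Γ σ` with `0 < σ < 2πN` (intermediate values), and if `|σ - s i - 2πk| < τ i ≤ π/2`
then `-1 ≤ k ≤ N + 1`. So `2πN gb h ≤ (N + 3) T`, `T = ∑_i (0.374 - fi R (‖b i‖^2)) + 2 MM h τ (cos s)` (`GG_diff`), for all `N`; hence `2π gb h ≤ T`
(`T ≥ 0`; if `2π gb h > T` take `N > 3 T / (2π gb h - T)`).
-/

set_option autoImplicit false

namespace Pool.Agent.TE25

open Real Pool.Agent.TD25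

private theorem mass_avg {ι : Type} [Fintype ι] (Γ : ℝ → ℝ) (hm : Monotone Γ) (hc : Continuous Γ) (g : ℝ)
    (hg : ∀ (σ : ℝ) (k : ℤ), Γ (σ + 2 * π * k) = Γ σ + 2 * π * g * k) (S0 T0 : ι → ℝ) (hS : ∀ j, |S0 j| ≤ π)
    (hT0 : ∀ j, 0 ≤ T0 j) (hT1 : ∀ j, T0 j ≤ π / 2)
    (cov : ∀ σ : ℝ, ∃ (j : ι) (k : ℤ), |σ - S0 j - 2 * π * k| < T0 j) :
    2 * π * g ≤ ∑ j, (Γ (S0 j + T0 j) - Γ (S0 j - T0 j)) := by
  have hpi := Real.pi_pos
  set r : ι → ℝ := fun j => Γ (S0 j + T0 j) - Γ (S0 j - T0 j) with hr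
  have hr0 : ∀ j, 0 ≤ r j := fun j => sub_nonneg.2 (hm (by linarith [hT0 j]))
  have hN : ∀ N : ℕ, 2 * π * g * N ≤ (N + 1) * ∑ j, r j := by
    intro N
    have key := cov_sum (Finset.univ ×ˢ Finset.Icc (0 : ℤ) N) (fun x : ι × ℤ => Γ '' {σ | |σ - S0 x.1 - 2 * π * x.2| < T0 x.1})
      (fun x => r x.1) (fun x _ => hr0 x.1) (by
        rintro ⟨j, k⟩ _ y ⟨σ, hσ, rfl⟩ y' ⟨σ', hσ', rfl⟩
        simp only [Set.mem_setOf_eq, abs_lt] at hσ hσ'
        have a1 : Γ σ' ≤ Γ (S0 j + T0 j + 2 * π * k) := hm (by linarith [hσ'.2])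
        have a2 : Γ (S0 j - T0 j + 2 * π * k) ≤ Γ σ := hm (by linarith [hσ.1])
        rw [hg] at a1 a2
        show Γ σ' - Γ σ ≤ Γ (S0 j + T0 j) - Γ (S0 j - T0 j)
        linarith) (p := Γ 0) (q := Γ (2 * π * N)) (hm (by positivity)) (by
        intro y hy1 hy2
        obtain ⟨σ, hσ, rfl⟩ := intermediate_value_Icc (show (0 : ℝ) ≤ 2 * π * N by positivity) hc.continuousOn
          ⟨hy1.le, hy2.le⟩
        have s1 : 0 ≤ σ := hσ.1
        have s2 : σ ≤ 2 * π * N := hσ.2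
        obtain ⟨j, k, hk⟩ := cov σ
        refine ⟨(j, k), ?_, σ, hk, rfl⟩
        rw [Finset.mem_product]
        refine ⟨Finset.mem_univ _, ?_⟩
        rw [abs_lt] at hk
        have b1 := abs_le.1 (hS j)
        have b2 := hT1 j
        rw [Finset.mem_Icc]
        constructor
        · by_contra hcon
          push Not at hcon
          have c1 : k ≤ -1 := by
            have : k < 0 := hcon
            omega
          have c2 : (k : ℝ) ≤ -1 := by exact_mod_cast c1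
          nlinarith [hk.1, hk.2]
        · by_contra hcon
          push Not at hcon
          have c1 : (N : ℤ) + 1 ≤ k := by
            have : (N : ℤ) < k := hcon
            omega
          have c2 : (N : ℝ) + 1 ≤ k := by exact_mod_cast c1
          nlinarith [hk.1, hk.2])
    have e1 : Γ (2 * π * N) = Γ 0 + 2 * π * g * N := by
      have := hg 0 (N : ℤ)
      rw [zero_add] at this
      exact_mod_cast this
    rw [e1, Finset.sum_product] at key
    simp only [Finset.sum_const, Int.card_Icc] at key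
    have e2 : ((N : ℤ) + 1 - 0).toNat = N + 1 := by omega
    rw [e2, ← Finset.smul_sum, nsmul_eq_mul] at key
    push_cast at key
    linarith
  by_contra hcon
  push Not at hcon
  have hδ : 0 < 2 * π * g - ∑ j, r j := by linarith
  obtain ⟨N, hN'⟩ := exists_nat_gt ((∑ j, r j) / (2 * π * g - ∑ j, r j))
  rw [div_lt_iff₀ hδ] at hN'
  have := hN N
  nlinarith

theorem piece {R h α : ℝ} (hR : OkR R) (h0 : 0 ≤ h) (h1 : h ≤ 0.76) {b : ℂ} (hb1 : R - 1 ≤ ‖b‖) :
    ∃ s τ : ℝ, -π ≤ s ∧ s ≤ π ∧ 0 ≤ τ ∧ τ ≤ π / 2 ∧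
      (∀ σ : ℝ, ‖pt h α + pt 1 (α + σ) - b‖ < 1 → ∃ k : ℤ, |σ - s - 2 * π * k| < τ) ∧
      GG h (s + τ) - GG h (s - τ) ≤ 0.374 - fi R (‖b‖ ^ 2) := by
  have hpi := Real.pi_pos
  rcases le_or_gt ‖b - pt h α‖ 2 with hc | hc
  · obtain ⟨s, τ, s1, s2, t0, t1, hbe, _⟩ := polar2 hc
    refine ⟨s, τ, s1, s2, t0, t1, fun σ hσ => arc_lt t0 t1 hbe hσ, ?_⟩
    have := massI hR h0 h1 t0 t1 hbe hb1
    linarith
  · refine ⟨0, 0, by linarith, by linarith, le_rfl, by linarith, ?_, ?_⟩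
    · intro σ hσ
      exfalso
      have e1 : b - pt h α = pt 1 (α + σ) - (pt h α + pt 1 (α + σ) - b) := by ring
      have e2 := norm_sub_le (pt 1 (α + σ)) (pt h α + pt 1 (α + σ) - b)
      rw [← e1, norm_pt zero_le_one] at e2
      linarith
    · have h3 : 0 < ‖b‖ := by linarith [hR.1]
      have h4 := fi_le hR (pow_pos h3 2)
      have h5 := phm_hi hR
      rw [add_zero, sub_zero, sub_self]
      norm_num at h5 ⊢
      linarith

theorem one_lobe {R h α : ℝ} (hR : OkR R) (h0 : 0 ≤ h) (h1 : h ≤ 0.76) {n : ℕ} (b : Fin n → ℂ)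
    (hb1 : ∀ i, R - 1 ≤ ‖b i‖) {s τ : ℝ} (t0 : 0 ≤ τ) (t1 : τ ≤ π / 2)
    (cov : ∀ σ : ℝ, (∃ i, ‖pt h α + pt 1 (α + σ) - b i‖ < 1) ∨ ∃ k : ℤ, |σ - s - 2 * π * k| < τ) :
    2 * π * gb h ≤ ∑ i, (0.374 - fi R (‖b i‖ ^ 2)) + 2 * MM h τ (cos s) := by
  have hpi := Real.pi_pos
  choose S T p1 p2 p3 p4 p5 p6 using fun i => piece (α := α) hR h0 h1 (hb1 i)
  set m : ℤ := round (s / (2 * π)) with hm
  have hs : |s - 2 * π * m| ≤ π := by
    have h2 := abs_sub_round (s / (2 * π))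
    have e : s - 2 * π * (round (s / (2 * π)) : ℤ) =
        (2 * π) * (s / (2 * π) - (round (s / (2 * π)) : ℤ)) := by
      field_simp
    rw [hm, e, abs_mul, abs_of_pos (by positivity)]
    nlinarith
  have hcs : cos (s - 2 * π * m) = cos s := by
    rw [show s - 2 * π * m = s - m * (2 * π) by ring, cos_sub_int_mul_two_pi]
  have key := mass_avg (ι := Option (Fin n)) (GG h) (GG_mono h0 h1) (GG_cont h) (gb h) (fun σ k => GG_add h σ k)
    (fun j => j.elim (s - 2 * π * m) S) (fun j => j.elim τ T) (by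
      rintro (_ | i)
      · exact hs
      · exact abs_le.2 ⟨p1 i, p2 i⟩) (by
      rintro (_ | i)
      · exact t0
      · exact p3 i) (by
      rintro (_ | i)
      · exact t1
      · exact p4 i) (by
      intro σ
      rcases cov σ with ⟨i, hi⟩ | ⟨k, hk⟩
      · obtain ⟨k, hk⟩ := p5 i σ hi
        exact ⟨some i, k, hk⟩
      · refine ⟨none, k + m, ?_⟩
        show |σ - (s - 2 * π * m) - 2 * π * ((k + m : ℤ) : ℝ)| < τ
        have e : σ - (s - 2 * π * m) - 2 * π * ((k + m : ℤ) : ℝ) = σ - s - 2 * π * k := by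
          push_cast
          ring
        rw [e]
        exact hk)
  rw [Fintype.sum_option] at key
  simp only [Option.elim] at key
  rw [GG_diff, hcs] at key
  have h2 : ∑ i, (GG h (S i + T i) - GG h (S i - T i)) ≤ ∑ i, (0.374 - fi R (‖b i‖ ^ 2)) :=
    Finset.sum_le_sum fun i _ => p6 i
  linarith

end Pool.Agent.TE25
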