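import Pool.Agent.TE25.PhiSum
import Pool.Agent.TE25.OneLobe
import Pool.Agent.TE25.NumSL

/-!
# TE25/Eleven: eleven outer disks and one inner disk do not cover

`a = pt h α`, `h = ‖a‖` (`exists_pt`). The point `x = pt (R - 2) (α + π)` is in no disk `b i` (`‖x - b i‖ ≥ ‖b i‖ - (R - 2) > 1`), so `1 > ‖x - a‖ = R - 2 + h`, `h < 3 - R ≤ 0.2308`.
`phi_sum`: the points of norm `R` are not in the disk about `a`. `one_lobe` with `s = τ = 0` (the point `pt h α + pt 1 (α + σ)` has norm `≤ R` and distance 1 from `a`;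
`MM h 0 u = 0`): `2π gb h ≤ 11 * 0.374 - ∑ fi ≤ 4.114 - π`, contradiction to `numT`.
-/

set_option autoImplicit false

namespace Pool.Agent.TE25

open Real Pool.Agent.TD25

theorem eleven {R : ℝ} (hR : OkR R) (b : Fin 11 → ℂ) (hb1 : ∀ i, R - 1 < ‖b i‖) (hb2 : ∀ i, ‖b i‖ ^ 2 ≤ R ^ 2 - 1)
    (a : ℂ) (ha : ‖a‖ ≤ R - 1) (cov : ∀ x : ℂ, ‖x‖ ≤ R → (∃ i, ‖x - b i‖ < 1) ∨ ‖x - a‖ < 1) : False := by
  obtain ⟨hR1, hR2⟩ := hR
  obtain ⟨α, hα⟩ := exists_pt a
  set h : ℝ := ‖a‖ with hh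
  have h0 : 0 ≤ h := norm_nonneg a
  have hsmall : h < 3 - R := by
    have hx1 : ‖pt (R - 2) (α + π)‖ = R - 2 := norm_pt (by linarith)
    rcases cov (pt (R - 2) (α + π)) (by rw [hx1]; linarith) with ⟨i, hi⟩ | hi
    · exfalso
      have h1 := norm_sub_le (pt (R - 2) (α + π)) (pt (R - 2) (α + π) - b i)
      rw [sub_sub_cancel, hx1] at h1
      have h2 := hb1 i
      linarith
    · rw [hα] at hi
      have e2 := norm_pt_sub_sq (R - 2) (α + π) h α
      rw [add_sub_cancel_left, cos_pi] at e2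
      have e3 : ‖pt (R - 2) (α + π) - pt h α‖ ^ 2 = (R - 2 + h) ^ 2 := by
        rw [e2]; ring
      have e4 : ‖pt (R - 2) (α + π) - pt h α‖ = R - 2 + h := by
        rw [← abs_of_nonneg (norm_nonneg (pt (R - 2) (α + π) - pt h α)),
          ← abs_of_nonneg (by linarith : (0 : ℝ) ≤ R - 2 + h)]
        exact (sq_eq_sq_iff_abs_eq_abs _ _).1 e3
      rw [e4] at hi
      linarith
  have hsum : π ≤ ∑ i, fi R (‖b i‖ ^ 2) := by
    refine phi_sum ⟨hR1, hR2⟩ b (fun i => (hb1 i).le) hb2 fun t => ?_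
    have hn : ‖pt R t‖ = R := norm_pt (by linarith)
    rcases cov (pt R t) (by rw [hn]) with h | h
    · exact h
    · exfalso
      have h1 := norm_sub_norm_le (pt R t) a
      rw [hn] at h1
      linarith
  have key := one_lobe (α := α) ⟨hR1, hR2⟩ h0 (by linarith) b (fun i => (hb1 i).le) (s := 0) (τ := 0) le_rfl
    (by positivity) fun σ => by
      have e1 : ‖pt h α‖ = h := norm_pt h0
      have e2 : ‖pt 1 (α + σ)‖ = 1 := norm_pt (by norm_num)
      have h2 := norm_add_le (pt h α) (pt 1 (α + σ))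
      rw [e1, e2] at h2
      rcases cov (pt h α + pt 1 (α + σ)) (by linarith) with h3 | h3
      · exact Or.inl h3
      · rw [hα, add_sub_cancel_left, e2] at h3
        exact absurd h3 (lt_irrefl _)
  have hM : MM h 0 (cos 0) = 0 := by
    unfold MM
    rw [sin_zero]
    ring
  have hT := numT h0 (by linarith)
  rw [Finset.sum_sub_distrib, hM] at key
  simp only [Finset.sum_const, Finset.card_univ, Fintype.card_fin, nsmul_eq_mul] at key
  push_cast at key
  linarith

end Pool.Agent.TE25
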