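import Pool.Agent.TE25.Rad
import Pool.Agent.TE25.ShB

/-!
# TE25/Extr: extreme directions of a shadow on a lobe

The set `{θ ∈ [p, q] | Sh b (bp h α θ)}` is closed (`Sh_closed`, `bp_cont`), hence compact, and not empty: `IsCompact.exists_isLeast`,
`IsCompact.exists_isGreatest`.
-/

set_option autoImplicit false

namespace Pool.Agent.TE25

open Real Pool.Agent.TD25

private theorem cpt (h α p q : ℝ) (b : ℂ) : IsCompact {θ : ℝ | θ ∈ Set.Icc p q ∧ Sh b (bp h α θ)} := by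
  have h1 : IsClosed {θ : ℝ | Sh b (bp h α θ)} := by
    have h2 : {θ : ℝ | Sh b (bp h α θ)} = (bp h α) ⁻¹' {x : ℂ | Sh b x} := rfl
    rw [h2]
    exact Sh_closed.preimage (bp_cont h α)
  exact isCompact_Icc.inter_right h1

theorem ext_min {h α p q x : ℝ} {b : ℂ} (hp : p ≤ x) (hq : x ≤ q) (hx : Sh b (bp h α x)) :
    ∃ e : ℝ, p ≤ e ∧ e ≤ q ∧ Sh b (bp h α e) ∧ ∀ θ : ℝ, p ≤ θ → θ ≤ q → Sh b (bp h α θ) → e ≤ θ := by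
  obtain ⟨e, he, hm⟩ := (cpt h α p q b).exists_isLeast ⟨x, ⟨hp, hq⟩, hx⟩
  exact ⟨e, he.1.1, he.1.2, he.2, fun θ a1 a2 a3 => hm ⟨⟨a1, a2⟩, a3⟩⟩

theorem ext_max {h α p q x : ℝ} {b : ℂ} (hp : p ≤ x) (hq : x ≤ q) (hx : Sh b (bp h α x)) :
    ∃ f : ℝ, p ≤ f ∧ f ≤ q ∧ Sh b (bp h α f) ∧ ∀ θ : ℝ, p ≤ θ → θ ≤ q → Sh b (bp h α θ) → θ ≤ f := by
  obtain ⟨f, hf, hm⟩ := (cpt h α p q b).exists_isGreatest ⟨x, ⟨hp, hq⟩, hx⟩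
  exact ⟨f, hf.1.1, hf.1.2, hf.2, fun θ a1 a2 a3 => hm ⟨⟨a1, a2⟩, a3⟩⟩

end Pool.Agent.TE25
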