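import Pool.Agent.TE25.NumP

/-!
# TE25/GM: the potential is increasing, odd and quasi-periodic

`GG_mono`: the derivative of `GG h` is `gb h + ga1 h cos σ + 2 ga2 h cos (2 σ) + 3 ga3 h cos (3 σ) ≥ 0` (`gder_nonneg`), `monotone_of_deriv_nonneg`.
`GG_add`: `sin (σ + 2πk) = sin σ` etc. `GG_diff`: `sin (a + b) - sin (a - b) = 2 cos a sin b` for the multiples 1, 2, 3 and
`cos (2 s) = 2 u^2 - 1`, `cos (3 s) = 4 u^3 - 3 u`, `sin (2 τ) = 2 sin τ cos τ`, `sin (3 τ) = sin τ (4 cos^2 τ - 1)` (`u = cos s`).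
`gb_pos`: cubic polynomial on `[0, 0.76]` (minimum `0.1501` at `0.76`... use `nlinarith` or `h^3 ≤ 0.76 h^2`).
-/

set_option autoImplicit false

namespace Pool.Agent.TE25

open Real Pool.Agent.TD25

theorem GG_hasDeriv (h σ : ℝ) : HasDerivAt (GG h)
    (gb h + ga1 h * cos σ + 2 * ga2 h * cos (2 * σ) + 3 * ga3 h * cos (3 * σ)) σ := by
  have e1 : HasDerivAt (fun σ : ℝ => gb h * σ) (gb h * 1) σ := (hasDerivAt_id σ).const_mul _
  have e2 : HasDerivAt (fun σ : ℝ => ga1 h * sin σ) (ga1 h * cos σ) σ :=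
    (hasDerivAt_sin σ).const_mul _
  have e3 : HasDerivAt (fun σ : ℝ => ga2 h * sin (2 * σ)) (ga2 h * (cos (2 * σ) * (2 * 1))) σ :=
    (((hasDerivAt_id σ).const_mul 2).sin).const_mul _
  have e4 : HasDerivAt (fun σ : ℝ => ga3 h * sin (3 * σ)) (ga3 h * (cos (3 * σ) * (3 * 1))) σ :=
    (((hasDerivAt_id σ).const_mul 3).sin).const_mul _
  have e5 := ((e1.add e2).add e3).add e4
  refine e5.congr_deriv ?_
  ring

theorem GG_mono {h : ℝ} (h0 : 0 ≤ h) (h1 : h ≤ 0.76) : Monotone (GG h) := by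
  refine monotone_of_deriv_nonneg (fun σ => (GG_hasDeriv h σ).differentiableAt) fun σ => ?_
  rw [(GG_hasDeriv h σ).deriv]
  exact gder_nonneg h0 h1 σ

theorem GG_cont (h : ℝ) : Continuous (GG h) :=
  continuous_iff_continuousAt.2 fun σ => (GG_hasDeriv h σ).continuousAt

theorem GG_zero (h : ℝ) : GG h 0 = 0 := by
  simp [GG]

theorem GG_neg (h σ : ℝ) : GG h (-σ) = -GG h σ := by
  unfold GG
  rw [mul_neg, mul_neg, mul_neg, sin_neg, sin_neg, sin_neg]
  ring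

theorem GG_add (h σ : ℝ) (k : ℤ) : GG h (σ + 2 * π * k) = GG h σ + 2 * π * gb h * k := by
  unfold GG
  have e1 : sin (σ + 2 * π * k) = sin σ := by
    rw [show σ + 2 * π * k = σ + k * (2 * π) by ring]
    exact sin_add_int_mul_two_pi σ k
  have e2 : sin (2 * (σ + 2 * π * k)) = sin (2 * σ) := by
    rw [show 2 * (σ + 2 * π * k) = 2 * σ + ((2 * k : ℤ) : ℝ) * (2 * π) by push_cast; ring]
    exact sin_add_int_mul_two_pi _ _
  have e3 : sin (3 * (σ + 2 * π * k)) = sin (3 * σ) := by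
    rw [show 3 * (σ + 2 * π * k) = 3 * σ + ((3 * k : ℤ) : ℝ) * (2 * π) by push_cast; ring]
    exact sin_add_int_mul_two_pi _ _
  rw [e1, e2, e3]
  ring

theorem GG_diff (h s τ : ℝ) : GG h (s + τ) - GG h (s - τ) = 2 * MM h τ (cos s) := by
  have d : ∀ a b : ℝ, sin (a + b) - sin (a - b) = 2 * cos a * sin b := by
    intro a b
    rw [sin_add, sin_sub]
    ring
  have e1 := d s τ
  have e2 := d (2 * s) (2 * τ)
  have e3 := d (3 * s) (3 * τ)
  have c2 : cos (2 * s) = 2 * cos s ^ 2 - 1 := cos_two_mul s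
  have c3 : cos (3 * s) = 4 * cos s ^ 3 - 3 * cos s := cos_three_mul s
  have s2 : sin (2 * τ) = 2 * sin τ * cos τ := sin_two_mul τ
  have s3 : sin (3 * τ) = sin τ * (4 * cos τ ^ 2 - 1) := by
    rw [sin_three_mul]
    have h1 := sin_sq_add_cos_sq τ
    linear_combination -4 * sin τ * h1
  have h2 : 2 * (s + τ) = 2 * s + 2 * τ := by ring
  have h2' : 2 * (s - τ) = 2 * s - 2 * τ := by ring
  have h3 : 3 * (s + τ) = 3 * s + 3 * τ := by ring
  have h3' : 3 * (s - τ) = 3 * s - 3 * τ := by ring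
  rw [c2, s2] at e2
  rw [c3, s3] at e3
  unfold GG MM
  rw [h2, h2', h3, h3']
  linear_combination ga1 h * e1 + ga2 h * e2 + ga3 h * e3

theorem gb_pos {h : ℝ} (h0 : 0 ≤ h) (h1 : h ≤ 0.76) : 0 < gb h := by
  unfold gb
  have h2 : 0 ≤ h ^ 2 * (0.76 - h) := mul_nonneg (sq_nonneg h) (by linarith)
  nlinarith [sq_nonneg h]

end Pool.Agent.TE25
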