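import Pool.Agent.TE25.Defs

/-!
# TE25/LobeD: the two lobes of the union of two unit disks (definition)

Circles about `pt h1 α1`, `pt h2 α2`. The corners `U`, `V` have the directions `θU`, `θV`. The first circle is outside the second disk for the directions
in `[θV, θU]` (lobe 1, contains `α1`), the second circle is outside the first disk for the directions in `[θU, θV + 2π]` (lobe 2, contains `α2`).
-/

set_option autoImplicit false

namespace Pool.Agent.TE25

open Real

structure Lobe (h1 α1 h2 α2 θV θU : ℝ) : Prop where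
  v1 : θV < α1
  u1 : α1 < θU
  u2 : θU < α2
  v2 : α2 < θV + 2 * π
  p1 : θU < α1 + π
  q1 : α1 - π < θV
  p2 : α2 - π < θU
  q2 : θV + 2 * π < α2 + π
  eU : rd h1 (θU - α1) = rd h2 (θU - α2)
  eV : rd h1 (θV - α1) = rd h2 (θV - α2)
  l1 : ∀ θ : ℝ, θV ≤ θ → θ ≤ θU → rd h2 (θ - α2) ≤ rd h1 (θ - α1)
  l2 : ∀ θ : ℝ, θU ≤ θ → θ ≤ θV + 2 * π → rd h1 (θ - α1) ≤ rd h2 (θ - α2)

end Pool.Agent.TE25
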