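import Pool.Agent.TE25.ArcD
import Pool.Agent.TE25.CovSum

/-!
# TE25/LobeM: the mass of a part of a lobe

Proof. Let `Γ θ = GG h (sg h (θ - α))`, continuous and monotone (`GG_cont`, `sg_cont`, `GG_mono`, `sg_mono`). If `e ≤ f` the left side is `≤ 0` and the
right side is `≥ 0` (`fi_le`, `phm_hi`). Otherwise `cov_sum` with `S i = Γ '' {θ | f < θ < e, ‖bp h α θ - b i‖ ≤ 1}`, `r i = 0.374 - fi R (‖b i‖^2)`:
for `θ ≤ θ'` in this set `θ' < θ + π` by `width` (`Sh_of_ball`), so `arcD` (and for `θ' ≤ θ` the difference is `≤ 0`). For `Γ f < y < Γ e` there is `θ ∈ (f, e)` with `Γ θ = y`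
(intermediate value theorem).
-/

set_option autoImplicit false

namespace Pool.Agent.TE25

open Real Pool.Agent.TD25

theorem lobe_mass {R h α θV θU f e : ℝ} (hR : OkR R) (h0 : 0 ≤ h) (h1 : h ≤ 0.76) {ι : Type} (b : ι → ℂ)
    (hb1 : ∀ i, R - 1 ≤ ‖b i‖) (hV : θV ≤ f) (hU : e ≤ θU) (hw : θU ≤ θV + 2 * π)
    (hUV : ∀ i, ¬ (Sh (b i) (bp h α θU) ∧ Sh (b i) (bp h α θV))) (s : Finset ι)
    (cov : ∀ θ : ℝ, f < θ → θ < e → ∃ i ∈ s, ‖bp h α θ - b i‖ < 1) :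
    GG h (sg h (e - α)) - GG h (sg h (f - α)) ≤ ∑ i ∈ s, (0.374 - fi R (‖b i‖ ^ 2)) := by
  have hh : h < 1 := by norm_num at h1; linarith
  have hb : ∀ i, 1 < ‖b i‖ := fun i => by
    have := hb1 i
    have := hR.1
    norm_num at this
    linarith
  have hr : ∀ i, 0 ≤ 0.374 - fi R (‖b i‖ ^ 2) := fun i => by
    have h2 := fi_le (D := ‖b i‖ ^ 2) hR (by have := hb i; positivity)
    have h3 := phm_hi hR
    norm_num at h3 ⊢
    linarith
  obtain ⟨Γ, hΓ⟩ : ∃ Γ : ℝ → ℝ, Γ = fun θ => GG h (sg h (θ - α)) := ⟨_, rfl⟩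
  have hmono : Monotone Γ := by
    intro x y hxy
    rw [hΓ]
    exact GG_mono h0 h1 ((sg_mono h0 hh).monotone (by linarith))
  have hcont : Continuous Γ := by
    rw [hΓ]
    exact (GG_cont h).comp ((sg_cont h).comp (continuous_id.sub continuous_const))
  have goal : Γ e - Γ f ≤ ∑ i ∈ s, (0.374 - fi R (‖b i‖ ^ 2)) := by
    rcases le_or_gt e f with hef | hef
    · have h2 := hmono hef
      have h3 : 0 ≤ ∑ i ∈ s, (0.374 - fi R (‖b i‖ ^ 2)) := Finset.sum_nonneg fun i _ => hr i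
      linarith
    · refine cov_sum s (fun i => Γ '' {θ | f < θ ∧ θ < e ∧ ‖bp h α θ - b i‖ ≤ 1})
        (fun i => 0.374 - fi R (‖b i‖ ^ 2)) (fun i _ => hr i) ?_ (hmono hef.le) ?_
      · rintro i _ y ⟨θ, ⟨ha1, ha2, ha3⟩, rfl⟩ y' ⟨θ', ⟨hc1, hc2, hc3⟩, rfl⟩
        rcases le_total θ' θ with hle | hle
        · have h2 := hmono hle
          have h3 := hr i
          linarith
        · have h2 := width h0 hh (hb i) (hUV i) hw (by linarith : θV ≤ θ) hle (by linarith)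
            (Sh_of_ball ha3) (Sh_of_ball hc3)
          have h3 := arcD hR h0 h1 (hb1 i) hle h2 ha3 hc3
          rw [hΓ]
          linarith
      · intro y hy1 hy2
        obtain ⟨θ, ⟨hθ1, hθ2⟩, hθ⟩ := intermediate_value_Ioo hef.le hcont.continuousOn ⟨hy1, hy2⟩
        obtain ⟨i, hi, hlt⟩ := cov θ hθ1 hθ2
        exact ⟨i, hi, θ, ⟨hθ1, hθ2, hlt.le⟩, hθ⟩
  rw [hΓ] at goal
  exact goal

end Pool.Agent.TE25
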