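import Pool.Agent.TE25.LobeD
import Pool.Agent.TE25.Rad
import Pool.Agent.TE25.Sgm
import Pool.Agent.TD25.Dir

/-!
# TE25/Lobes: existence of the two lobes

Let `a1 = pt h1 α1`, `a2 = pt h2 α2`. `k1`: the point of the first circle nearest to 0 is in the open second disk; `k2` the same with 1, 2 exchanged.
(1) `a1 ≠ a2` (otherwise the norm in `k1` is 1), `a1 - a2 = pt D ψ`, `D > 0` (`exists_pt`). For `x = a1 + pt 1 ω`:
`‖x - a2‖^2 = 1 + D^2 + 2 D cos (ω - ψ)` (`norm_pt_sub_sq` with `pt D (ψ + π)`), so `‖x - a2‖ ≥ 1` iff `cos (ω - ψ) ≥ -D/2`.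
`k1` (`ω = α1 + π`: `pt (1 - h1) (α1 + π) = a1 + pt 1 (α1 + π)`) gives `cos (α1 - ψ) > D/2`; so `D < 2`. Put `μ = arccos (-D/2)`, `π/2 < μ < π`, `cos μ = -D/2`. There is a lift
`α1' = α1 + 2π m1` with `|α1' - ψ| ≤ π`, so `|α1' - ψ| < π - μ` (`cos (π - μ) = D/2`). In the same way `k2` gives a lift `α2'` with
`|α2' - (ψ + π)| < π - μ` (`a2 - a1 = pt D (ψ + π)`).
(2) `sg_surj`: `θU, θV` with `α1' + sg h1 (θU - α1') = ψ + μ`, `α1' + sg h1 (θV - α1') = ψ - μ`, and `θU', θV'` with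
`α2' + sg h2 (θU' - α2') = ψ + π - μ`, `α2' + sg h2 (θV' - α2') = ψ + π + μ`.
As `ψ - μ < α1' < ψ + μ < α1' + π` and `α1' - π < ψ - μ` (`π - μ < μ`), `sg_mono`, `sg_zero`, `sg_pi` give `θV < α1' < θU < α1' + π`, `α1' - π < θV`. In the same way
`θU' < α2' < θV'`, `α2' - π < θU'`, `θV' < α2' + π`.
(3) `U = a1 + pt 1 (ψ + μ) = a2 + pt 1 (ψ + π - μ)` since `a1 - a2 = pt D ψ` and `D = -2 cos μ`. So `bp h1 α1' θU = bp h2 α2' θU'` (`bp_eq`): the norms agree (`norm_bp`) and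
`θU' = θU` by `pt_inj`: `|θU' - θU| < 2π`, since `θU ∈ (α1', α1' + π)`, `θU' ∈ (α2' - π, α2')` and `|α2' - π - α1'| < 2 (π - μ) < π`.
In the same way `V = a1 + pt 1 (ψ - μ) = a2 + pt 1 (ψ + π + μ)` gives `θV' = θV + 2π`.
(4) `l1`: for `θV ≤ θ ≤ θU` the angle `ω = α1' + sg h1 (θ - α1')` is in `[ψ - μ, ψ + μ]`, so the point `bp h1 α1' θ` is not in the open second disk (1), and
`bp_in_iff`. `l2` in the same way.
-/

set_option autoImplicit false

namespace Pool.Agent.TE25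

open Real Pool.Agent.TD25

private theorem lpt_re (d b : ℝ) : (pt d b).re = d * cos b := by
  unfold pt
  rw [Complex.re_ofReal_mul, Complex.exp_ofReal_mul_I_re]

private theorem lpt_im (d b : ℝ) : (pt d b).im = d * sin b := by
  unfold pt
  rw [Complex.im_ofReal_mul, Complex.exp_ofReal_mul_I_im]

private theorem lift_cos {c x : ℝ} (h0 : 0 ≤ c) (h1 : c ≤ π) (h : cos c < cos x) :
    ∃ m : ℤ, |x + 2 * π * m| < c := by
  have hpi := pi_pos
  refine ⟨-(round (x / (2 * π))), ?_⟩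
  have e : x + 2 * π * ((-(round (x / (2 * π))) : ℤ) : ℝ) =
      x - (round (x / (2 * π)) : ℤ) * (2 * π) := by
    push_cast
    ring
  rw [e]
  set y : ℝ := x - (round (x / (2 * π)) : ℤ) * (2 * π) with hy
  have h2 : |y| ≤ π := by
    have h3 := abs_sub_round (x / (2 * π))
    have h4 : y = (x / (2 * π) - round (x / (2 * π))) * (2 * π) := by
      rw [hy]
      field_simp
    rw [h4, abs_mul, abs_of_pos (by linarith : (0 : ℝ) < 2 * π)]
    have := mul_le_mul_of_nonneg_right h3 (by linarith : (0 : ℝ) ≤ 2 * π)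
    linarith
  have h5 : cos x = cos |y| := by
    rw [cos_abs, hy, cos_sub_int_mul_two_pi]
  rw [h5] at h
  exact (strictAntiOn_cos.lt_iff_gt ⟨h0, h1⟩ ⟨abs_nonneg y, h2⟩).1 h

theorem lobes {h1 α1 h2 α2 : ℝ} (a0 : 0 ≤ h1) (a1 : h1 < 1) (b0 : 0 ≤ h2) (b1 : h2 < 1)
    (k1 : ‖pt (1 - h1) (α1 + π) - pt h2 α2‖ < 1) (k2 : ‖pt (1 - h2) (α2 + π) - pt h1 α1‖ < 1) :
    ∃ (α1' α2' θV θU : ℝ) (m1 m2 : ℤ), α1' = α1 + 2 * π * m1 ∧ α2' = α2 + 2 * π * m2 ∧
      Lobe h1 α1' h2 α2' θV θU := by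
  have hpi := pi_pos
  have near : ∀ h α : ℝ, pt (1 - h) (α + π) = pt h α + pt 1 (α + π) := by
    intro h α
    apply Complex.ext
    · rw [Complex.add_re, lpt_re, lpt_re, lpt_re, cos_add_pi]
      ring
    · rw [Complex.add_im, lpt_im, lpt_im, lpt_im, sin_add_pi]
      ring
  obtain ⟨ψ, hψ⟩ := exists_pt (pt h1 α1 - pt h2 α2)
  set D : ℝ := ‖pt h1 α1 - pt h2 α2‖ with hDdef
  have hD0 : 0 ≤ D := norm_nonneg _
  have nA : ∀ ω : ℝ, ‖pt h1 α1 + pt 1 ω - pt h2 α2‖ ^ 2 = 1 + D ^ 2 + 2 * D * cos (ω - ψ) := by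
    intro ω
    have e : pt h1 α1 + pt 1 ω - pt h2 α2 = pt 1 ω + pt D ψ := by
      rw [← hψ]
      ring
    rw [e, Complex.sq_norm, Complex.normSq_apply, Complex.add_re, Complex.add_im, lpt_re, lpt_re,
      lpt_im, lpt_im, cos_sub]
    have g1 := sin_sq_add_cos_sq ω
    have g2 := sin_sq_add_cos_sq ψ
    linear_combination g1 + D ^ 2 * g2
  have nB : ∀ ω : ℝ, ‖pt h2 α2 + pt 1 ω - pt h1 α1‖ ^ 2 = 1 + D ^ 2 - 2 * D * cos (ω - ψ) := by
    intro ω
    have e : pt h2 α2 + pt 1 ω - pt h1 α1 = pt 1 ω - pt D ψ := by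
      rw [← hψ]
      ring
    rw [e, norm_pt_sub_sq]
    ring
  have sq1 : ∀ x : ℂ, ‖x‖ < 1 → ‖x‖ ^ 2 < 1 := by
    intro x hx
    have := norm_nonneg x
    nlinarith
  have c1 : 2 * D * (D / 2) < 2 * D * cos (α1 - ψ) := by
    have g1 := sq1 _ k1
    rw [near, nA] at g1
    have g2 : cos (α1 + π - ψ) = -cos (α1 - ψ) := by
      rw [show α1 + π - ψ = (α1 - ψ) + π by ring, cos_add_pi]
    rw [g2] at g1
    linarith
  have c2 : 2 * D * (D / 2) < 2 * D * cos (α2 - (ψ + π)) := by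
    have g1 := sq1 _ k2
    rw [near, nB] at g1
    have g2 : cos (α2 + π - ψ) = cos (α2 - (ψ + π)) := by
      rw [show α2 + π - ψ = (α2 - (ψ + π)) + 2 * π by ring, cos_add_two_pi]
    rw [g2] at g1
    linarith
  have hDpos : 0 < D := by
    rcases eq_or_lt_of_le hD0 with g | g
    · rw [← g] at c1
      simp at c1
    · exact g
  have c1' : D / 2 < cos (α1 - ψ) := lt_of_mul_lt_mul_left c1 (by linarith)
  have c2' : D / 2 < cos (α2 - (ψ + π)) := lt_of_mul_lt_mul_left c2 (by linarith)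
  have hD2 : D / 2 < 1 := c1'.trans_le (cos_le_one _)
  obtain ⟨μ, hμ⟩ : ∃ μ : ℝ, μ = arccos (-(D / 2)) := ⟨_, rfl⟩
  have cμ : cos μ = -(D / 2) := by
    rw [hμ]
    exact cos_arccos (by linarith) (by linarith)
  have μ0 : 0 ≤ μ := by rw [hμ]; exact arccos_nonneg _
  have μ1 : μ < π := by
    rcases lt_or_eq_of_le (by rw [hμ]; exact arccos_le_pi _ : μ ≤ π) with g | g
    · exact g
    · rw [g, cos_pi] at cμ
      linarith
  have μ2 : π / 2 < μ := by
    by_contra hc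
    rw [not_lt] at hc
    have := cos_nonneg_of_neg_pi_div_two_le_of_le (x := μ) (by linarith) hc
    linarith
  have cε : cos (π - μ) = D / 2 := by
    rw [cos_pi_sub, cμ, neg_neg]
  obtain ⟨m1, hm1⟩ := lift_cos (c := π - μ) (x := α1 - ψ) (by linarith) (by linarith)
    (by rw [cε]; exact c1')
  obtain ⟨m2, hm2⟩ := lift_cos (c := π - μ) (x := α2 - (ψ + π)) (by linarith) (by linarith)
    (by rw [cε]; exact c2')
  obtain ⟨β1, hβ1⟩ : ∃ β : ℝ, β = α1 + 2 * π * m1 := ⟨_, rfl⟩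
  obtain ⟨β2, hβ2⟩ : ∃ β : ℝ, β = α2 + 2 * π * m2 := ⟨_, rfl⟩
  rw [show α1 - ψ + 2 * π * m1 = β1 - ψ by rw [hβ1]; ring, abs_lt] at hm1
  rw [show α2 - (ψ + π) + 2 * π * m2 = β2 - (ψ + π) by rw [hβ2]; ring, abs_lt] at hm2
  obtain ⟨l1, u1⟩ := hm1
  obtain ⟨l2, u2⟩ := hm2
  have p1 : pt h1 β1 = pt h1 α1 := by rw [hβ1]; exact pt_add_two_pi h1 α1 m1
  have p2 : pt h2 β2 = pt h2 α2 := by rw [hβ2]; exact pt_add_two_pi h2 α2 m2
  have s1 := sg_mono a0 a1
  have s2 := sg_mono b0 b1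
  have negpi : ∀ h : ℝ, sg h (-π) = -π := fun h => by rw [sg_neg, sg_pi]
  obtain ⟨δU, hδU⟩ := sg_surj a0 a1 (ψ + μ - β1)
  obtain ⟨δV, hδV⟩ := sg_surj a0 a1 (ψ - μ - β1)
  obtain ⟨δU', hδU'⟩ := sg_surj b0 b1 (ψ + π - μ - β2)
  obtain ⟨δV', hδV'⟩ := sg_surj b0 b1 (ψ + π + μ - β2)
  have U1 : 0 < δU := s1.lt_iff_lt.1 (by rw [sg_zero, hδU]; linarith)
  have U2 : δU < π := s1.lt_iff_lt.1 (by rw [sg_pi, hδU]; linarith)
  have V1 : δV < 0 := s1.lt_iff_lt.1 (by rw [sg_zero, hδV]; linarith)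
  have V2 : -π < δV := s1.lt_iff_lt.1 (by rw [negpi, hδV]; linarith)
  have U1' : δU' < 0 := s2.lt_iff_lt.1 (by rw [sg_zero, hδU']; linarith)
  have U2' : -π < δU' := s2.lt_iff_lt.1 (by rw [negpi, hδU']; linarith)
  have V1' : 0 < δV' := s2.lt_iff_lt.1 (by rw [sg_zero, hδV']; linarith)
  have V2' : δV' < π := s2.lt_iff_lt.1 (by rw [sg_pi, hδV']; linarith)
  have bU : bp h1 β1 (β1 + δU) = pt h1 α1 + pt 1 (ψ + μ) := by
    rw [bp_eq a0 a1, p1, add_sub_cancel_left, hδU, add_sub_cancel]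
  have bV : bp h1 β1 (β1 + δV) = pt h1 α1 + pt 1 (ψ - μ) := by
    rw [bp_eq a0 a1, p1, add_sub_cancel_left, hδV, add_sub_cancel]
  have bU' : bp h2 β2 (β2 + δU') = pt h2 α2 + pt 1 (ψ + π - μ) := by
    rw [bp_eq b0 b1, p2, add_sub_cancel_left, hδU', add_sub_cancel]
  have bV' : bp h2 β2 (β2 + δV') = pt h2 α2 + pt 1 (ψ + π + μ) := by
    rw [bp_eq b0 b1, p2, add_sub_cancel_left, hδV', add_sub_cancel]
  have eqU : bp h1 β1 (β1 + δU) = bp h2 β2 (β2 + δU') := by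
    rw [bU, bU']
    have e : pt h1 α1 = pt h2 α2 + pt D ψ := by rw [← hψ]; ring
    rw [e]
    apply Complex.ext
    · simp only [Complex.add_re, lpt_re]
      rw [show ψ + π - μ = (ψ - μ) + π by ring, cos_add_pi, cos_add, cos_sub, cμ]
      ring
    · simp only [Complex.add_im, lpt_im]
      rw [show ψ + π - μ = (ψ - μ) + π by ring, sin_add_pi, sin_add, sin_sub, cμ]
      ring
  have eqV : bp h1 β1 (β1 + δV) = bp h2 β2 (β2 + δV') := by
    rw [bV, bV']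
    have e : pt h1 α1 = pt h2 α2 + pt D ψ := by rw [← hψ]; ring
    rw [e]
    apply Complex.ext
    · simp only [Complex.add_re, lpt_re]
      rw [show ψ + π + μ = (ψ + μ) + π by ring, cos_add_pi, cos_add, cos_sub, cμ]
      ring
    · simp only [Complex.add_im, lpt_im]
      rw [show ψ + π + μ = (ψ + μ) + π by ring, sin_add_pi, sin_add, sin_sub, cμ]
      ring
  have rU : rd h1 δU = rd h2 δU' := by
    have g := congrArg norm eqU
    rw [norm_bp a0 a1, norm_bp b0 b1, add_sub_cancel_left, add_sub_cancel_left] at g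
    exact g
  have rV : rd h1 δV = rd h2 δV' := by
    have g := congrArg norm eqV
    rw [norm_bp a0 a1, norm_bp b0 b1, add_sub_cancel_left, add_sub_cancel_left] at g
    exact g
  have tU : β1 + δU = β2 + δU' := by
    refine pt_inj (r := rd h1 δU) (rd_pos a0 a1) ?_ ?_
    · have g := eqU
      unfold bp at g
      rw [add_sub_cancel_left, add_sub_cancel_left, ← rU] at g
      exact g
    · rw [abs_lt]
      constructor <;> linarith
  have tV : β1 + δV + 2 * π = β2 + δV' := by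
    refine pt_inj (r := rd h1 δV) (rd_pos a0 a1) ?_ ?_
    · have g := eqV
      unfold bp at g
      rw [add_sub_cancel_left, add_sub_cancel_left, ← rV] at g
      have g2 := pt_add_two_pi (rd h1 δV) (β1 + δV) 1
      rw [Int.cast_one, mul_one] at g2
      rw [g2]
      exact g
    · rw [abs_lt]
      constructor <;> linarith
  refine ⟨β1, β2, β1 + δV, β1 + δU, m1, m2, hβ1, hβ2, ?_⟩
  have outA : ∀ θ : ℝ, β1 + δV ≤ θ → θ ≤ β1 + δU → rd h2 (θ - β2) ≤ rd h1 (θ - β1) := by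
    intro θ g1 g2
    have g3 : sg h1 δV ≤ sg h1 (θ - β1) := s1.monotone (by linarith)
    have g4 : sg h1 (θ - β1) ≤ sg h1 δU := s1.monotone (by linarith)
    rw [hδV] at g3
    rw [hδU] at g4
    obtain ⟨ω, hω⟩ : ∃ ω : ℝ, ω = β1 + sg h1 (θ - β1) := ⟨_, rfl⟩
    have g5 : |ω - ψ| ≤ μ := by
      rw [abs_le, hω]
      constructor <;> linarith
    have g6 : cos μ ≤ cos (ω - ψ) := by
      rw [← cos_abs (ω - ψ)]
      exact cos_le_cos_of_nonneg_of_le_pi (abs_nonneg _) μ1.le g5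
    have g7 : bp h1 β1 θ = pt h1 α1 + pt 1 ω := by
      rw [bp_eq a0 a1, p1, hω]
    have g8 : 1 ≤ ‖bp h1 β1 θ - pt h2 β2‖ ^ 2 := by
      rw [g7, p2, nA]
      rw [cμ] at g6
      have := mul_le_mul_of_nonneg_left g6 (by linarith : 0 ≤ 2 * D)
      linarith
    by_contra hc
    rw [not_le] at hc
    have g9 : ‖bp h1 β1 θ - pt h2 β2‖ < 1 := (bp_in_iff b0 b1 (rd_pos a0 a1).le).2 hc
    have := sq1 _ g9
    linarith
  have outB : ∀ θ : ℝ, β2 + δU' ≤ θ → θ ≤ β2 + δV' → rd h1 (θ - β1) ≤ rd h2 (θ - β2) := by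
    intro θ g1 g2
    have g3 : sg h2 δU' ≤ sg h2 (θ - β2) := s2.monotone (by linarith)
    have g4 : sg h2 (θ - β2) ≤ sg h2 δV' := s2.monotone (by linarith)
    rw [hδU'] at g3
    rw [hδV'] at g4
    obtain ⟨ω, hω⟩ : ∃ ω : ℝ, ω = β2 + sg h2 (θ - β2) := ⟨_, rfl⟩
    have g5 : |ω - (ψ + π)| ≤ μ := by
      rw [abs_le, hω]
      constructor <;> linarith
    have g6 : cos μ ≤ cos (ω - (ψ + π)) := by
      rw [← cos_abs (ω - (ψ + π))]
      exact cos_le_cos_of_nonneg_of_le_pi (abs_nonneg _) μ1.le g5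
    have g6' : cos (ω - ψ) = -cos (ω - (ψ + π)) := by
      rw [show ω - ψ = (ω - (ψ + π)) + π by ring, cos_add_pi]
    have g7 : bp h2 β2 θ = pt h2 α2 + pt 1 ω := by
      rw [bp_eq b0 b1, p2, hω]
    have g8 : 1 ≤ ‖bp h2 β2 θ - pt h1 β1‖ ^ 2 := by
      rw [g7, p1, nB, g6']
      rw [cμ] at g6
      have := mul_le_mul_of_nonneg_left g6 (by linarith : 0 ≤ 2 * D)
      linarith
    by_contra hc
    rw [not_le] at hc
    have g9 : ‖bp h2 β2 θ - pt h1 β1‖ < 1 := (bp_in_iff a0 a1 (rd_pos b0 b1).le).2 hc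
    have := sq1 _ g9
    linarith
  exact
    { v1 := by linarith
      u1 := by linarith
      u2 := by linarith
      v2 := by linarith
      p1 := by linarith
      q1 := by linarith
      p2 := by linarith
      q2 := by linarith
      eU := by
        rw [add_sub_cancel_left, tU, add_sub_cancel_left]
        exact rU
      eV := by
        rw [add_sub_cancel_left, rV]
        have g := rd_add h2 (β1 + δV - β2) 1
        rw [Int.cast_one, mul_one] at g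
        rw [← g]
        congr 1
        linarith
      l1 := outA
      l2 := fun θ g1 g2 => outB θ (by linarith) (by linarith) }

end Pool.Agent.TE25
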