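import Pool.Agent.TE25.NumDefs

/-!
# TE25/NumI: the inequality (I) for one disk, numerical part (verified Taylor models)

Proof. The three checks with `of_box` at the point `(h, τ, u + 1)`. `eD1` is `D`, `eY1` is `0.374 - 2 MM h τ u`; in each check the alternative
`oLo1` (`0 ≤ 3.13 - D`) contradicts `hD`, the alternative `oY1` is the first case of the claim; otherwise we get `0 ≤ eY1`, `0 ≤ 6.66846864 - D`,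
`0 ≤ EE D y` respectively.
-/

set_option autoImplicit false

namespace Pool.Agent.TE25

open Real Pool.Agent.SB19 Pool.Agent.TD25

theorem chkIy : chk2 [eY1] [oLo1, oY1] (.Y (.X (.Z (.Y (.Y (.X .L (.X .L .L)) (.Z (.X (.X .L (.Y .L (.Z (.X (.Y .L (.Y .L (.X .L (.Z .D .L)))) (.Y (.X .L (.Z (.Y .L .D) .L)) (.Z .D (.X .L .D)))) .L))) (.Z (.X (.Y (.Y (.X .L .L) (.X (.X .L (.Z .D .L)) (.Z .D (.X .L .D)))) (.X (.Z .D (.Y (.Y .L .D) .D)) .D)) (.Y (.X .D .D) .D)) (.Y (.X .L (.X .L (.X .L (.Z .D .L)))) (.X (.Z (.Y (.X .L (.X .L .D)) (.X (.Y .L .D) .D)) (.X .L .L)) (.Z .D (.Y .L .D)))))) (.X .L .L))) (.Y (.Z (.X (.X (.X .L (.Y (.Y .L (.X .L (.Y .L .D))) .D)) (.Y (.Z (.X (.Y (.Z (.X .D .D) (.X .L .D)) .D) .D) (.Y (.X .L (.Z .D .L)) (.X (.X .D .D) .D))) .D)) (.X (.Z .D (.Y (.X (.X .D .D) .D) .D)) .D)) (.X (.X .L (.Y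 .L (.Z .D .L))) (.Z (.Y (.Z (.X (.Y .L .D) (.X .D .D)) (.X .L .L)) .D) (.X .L (.X .L (.Z (.Y .L .D) .L)))))) (.Z .D .D))) (.Y .L (.Z (.X (.Y .L (.Y .D .D)) (.Z (.Z (.Y .L .D) .L) .L)) (.X (.X (.Y .L .D) .L) .L)))) (.Z (.Y (.Z (.Z (.Y (.X (.X .D .D) .D) .D) (.Y (.X .L .L) (.X (.Y (.Z .D .L) (.X (.X .D .D) .D)) (.Z .D (.Y .D .D))))) (.X (.X (.X .L .L) .L) (.X .L .L))) (.Z (.X (.X .D .D) .D) (.Y (.Z (.Z (.X .D .D) (.Y (.X (.Y .L .D) (.X .L .L)) .D)) (.X (.X (.Z (.Y .L (.Y .L .D)) .L) (.X (.X (.X (.Y .L (.X (.Z (.Y .L .D) .L) .L)) .L) .L) .L)) (.X .L .L))) (.Y (.Z .D (.X .D (.Z .D (.X .L .L)))) .D)))) (.X (.Z (.Y .L (.X (.Z (.Z (.X (.Z (.Y .L .D) .L) (.X (.Y .L (.X .L .L)) .L)) .L) .L) .L)) .L) (.X .L .L)))) (.Y (.Z (.X .D .D) (.X (.Y (.Y (.Y (.Y (.X .D (.Z .D .L)) .D) .D) .D) .D) (.Z (.Z (.Y .D .D) (.Y (.X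 (.X .D .L) .L) .D)) (.X .L .L)))) .D))
    ((0 + 796918) * 524288) ((796918 - 0) * 524288) ((0 + 1647200) * 524288) ((1647200 - 0) * 524288)
    ((0 + 2097152) * 524288) ((2097152 - 0) * 524288) = true := by
  decide +kernel

theorem chkIh : chk2 [oHi1] [oLo1, oY1] (.Y (.Z (.X .L .L) (.Y (.X .L (.Z .L (.X (.Y (.Y .L .L) .L) (.Z (.Y (.X .L (.Z .L (.Y .D (.X .L (.Z .L .D))))) (.Y (.Y .L .L) .L)) (.Y (.X (.Y .D (.Z (.X .L (.X .L .D)) (.Z (.Z (.X .L .D) .D) .D))) .D) (.X (.Z .L (.Y (.X (.Y .L .L) (.Z (.X .L .D) .D)) (.Y .L .L))) (.Z (.Y (.Z (.X .L .D) .D) (.X .L (.Z .L .D))) (.Z (.X (.Z (.Y .D .L) .D) .D) .D)))))))) (.Y (.Y (.Y (.X .L (.Z .L (.X .L (.Z .L (.X .L (.Z .L (.X .L .D))))))) .L) .L) .L))) .L)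
    ((0 + 796918) * 524288) ((796918 - 0) * 524288) ((0 + 1647200) * 524288) ((1647200 - 0) * 524288)
    ((0 + 2097152) * 524288) ((2097152 - 0) * 524288) = true := by
  decide +kernel

theorem chkIe : chk2 [eE eD1 eY1] [oLo1, oY1] (.Y (.X (.Z (.Y (.Y (.Z (.Y (.X .L (.X .L .L)) (.X (.X .L (.X .L .L)) (.Z (.X (.X .L .L) .L) (.X .L .L)))) (.Y .L (.X .L .L))) (.Z (.X (.X (.Y (.X (.Y .L (.X (.X .L .L) .L)) (.Y .L (.Y (.X .L .L) (.X (.X .L .L) (.Y .L (.X .L .L)))))) (.X (.Z (.Y (.X .L .L) (.X .L .L)) (.Y .L .L)) (.Z (.Y (.X (.Y (.X .L (.X .L .L)) (.X .L .L)) (.Y (.X (.X .L .L) (.X .L .L)) (.X (.X .L .L) .L))) (.Y (.X .L .L) (.X .L .L))) (.Y .L (.X .L .L))))) (.Y (.Z (.Y (.X .L .L) (.X (.X (.Y .L (.X .L .L)) (.Y .L .L)) (.X (.X .L .L) (.X .L .L)))) (.Y .L (.X .L .L))) (.Z (.X (.Y (.X (.Y (.X .L .L) (.X .L .L))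 (.Z (.Y .L .L) (.X .L .L))) (.X (.Y (.X .L .L) .L) (.Z (.X .L .L) .L))) (.Y (.Z (.X (.X .L .L) .L) (.X (.X .L .L) .L)) (.X (.Z .D .L) .D))) (.Y (.X (.X .L .L) (.X .L (.X .L .L))) (.X (.Y .L .L) (.Z (.X .L .L) .L)))))) (.Z (.X (.Y (.X (.Y .L (.Z .L .L)) (.Z .D .L)) (.X (.Z .D (.Y (.X .L .D) .D)) .D)) (.Y (.X .D .D) .D)) (.Y (.X (.Y .L (.X (.X .L .L) (.X .L .L))) (.Z .L (.X .L .L))) (.X (.Z (.Y (.X (.X .L .L) .L) (.X .L .D)) (.Y (.X .L .L) (.X .L .L))) (.Z .D (.Y .L .D)))))) (.Z (.X (.Y (.Y .L (.X .L .L)) (.X (.Y (.Y .L .L) (.Y .L .L)) (.Y .L (.X .L .L)))) (.Y (.Y .L (.X .L (.X .L .L))) (.Z (.Y (.X .L .L) (.X (.X .L .L) (.X .L .L))) (.Y (.X .L .L) (.X .L .L))))) (.Y (.Y .L (.X .L .L)) (.X (.X (.Y (.Y .L .L) (.Y .L .L)) .L) (.Z (.Y .L .L) (.Y .L (.X .L .L)))))))) (.Y (.Z (.X (.Y (.X (.X (.Y .L .L) (.Y (.Y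 .L .L) .L)) (.Z (.X (.X (.Y .L .D) .D) .D) (.Y (.X .L (.X .L .L)) (.X .L .D)))) (.X (.X .L .D) .D)) (.X (.Z .D (.Y (.X (.X .D .D) .D) .D)) .D)) (.Y (.Z (.X (.Y (.X .L .L) .L) (.Z (.X (.Y .L .D) (.X .D .D)) (.Y (.X .L .L) .L))) (.X (.Y .L .L) (.Y (.Z .L (.X .L .L)) (.Y .L .L)))) (.Z (.X (.X .L .D) .D) (.Z .L .L)))) (.Z .D .D))) (.Y (.Y (.Y (.X .L (.Z .L (.X .L (.Y .L .L)))) (.X (.X .L (.Y .L .L)) (.Z (.X .L .L) (.X (.Y .L .L) (.Z .L (.Y .L .L)))))) (.X (.X (.Y (.Y .L (.Z .L (.X .L .L))) (.Z (.Y (.Y .L (.X .L .L)) (.Y (.X .L .L) .L)) (.X (.Y .L (.X .L .L)) (.Y .L .L)))) (.Z (.Y (.Y .L .L) (.Y .L .L)) (.Y (.Y .L (.Z .L (.X .L .L))) (.Z (.Y .L .L) (.Y (.X .L .L) (.X .L .L)))))) (.Z (.Z (.Y (.X .L .L) (.Y .L (.X .L .L))) (.Y (.Y .L .L) (.X .L .L))) (.X (.Y (.Z (.Y .L .L) (.Y .L (.X .L .L))) (.Z (.Y .L .L) (.Y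 (.X .L .L) (.X .L (.X .L .L))))) (.Z (.Y (.Y .L .L) (.Y .L .L)) (.Y (.Y .L .L) (.Y (.X .L .L) (.X .L .L)))))))) (.Z (.Y (.X (.Y (.Y (.X .L .L) .L) .L) (.Z (.Y (.Y (.X .L .L) .L) (.X .L .L)) (.Y (.Y .L .L) .L))) (.Y (.X .D .L) .D)) (.X (.Y (.X (.Y (.Y (.X .L .L) .L) .L) (.Y (.Y (.Z .L .L) .L) .L)) (.X .D .L)) (.Y (.Y (.Y (.Z .L (.X .L .L)) .L) .L) (.X .L .L)))))) (.Z (.Y (.Z (.Z (.Y (.X (.X .D .D) .D) .D) (.Y (.X (.Y .L (.X .L .L)) (.X .L .L)) (.X (.Z (.Y .D .D) (.Y (.X .L .L) (.X .D .D))) (.Z .D (.X .L .D))))) (.Y (.Y (.Z .L .L) (.X (.Z .L .L) (.Z (.X .L .L) (.X .L .L)))) (.X (.Z (.Y (.Z (.X .L .L) (.X (.X .L .L) .L)) (.Z (.X (.Y .L .L) .L) (.X (.Z .L (.X .L .L)) (.Y .L .L)))) (.Y (.Y .L (.Z (.X .L .L) .L)) (.Z (.X (.Z (.X .L .L) (.X .L .L)) (.Z .L (.X .L .L))) (.Y (.X .L (.X (.X .L .L) .L)) (.X (.Z .L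 .L) (.Z (.X .L .L) (.X .L .L))))))) (.Z (.Z (.X .L .L) (.X (.Y .L .L) .L)) (.X (.Y (.Z .L (.X .L .L)) (.Z (.X .L .L) (.X (.Y .L .L) .L))) (.Y (.X .L .L) (.Z .L (.X .L .L)))))))) (.Z (.X (.X .D .D) .D) (.Y (.Z (.Z (.X .D .D) (.Y (.Y (.Z (.X .L .D) (.X .L (.X .L .L))) (.Y (.Y (.X .D .L) .D) .D)) .D)) (.X (.Y (.Z (.Y (.Z .L (.X .L .L)) .L) (.X (.Y (.Y (.X .L .L) .L) .L) (.Y (.Z (.X .L .L) (.X .L .L)) (.X .L .L)))) (.Z .L (.Y .L .L))) (.X (.Z (.Y (.Y (.X .L .L) .L) .L) (.Y (.Y (.X (.X .L .L) .L) (.X .L .L)) (.X .L .L))) (.X (.Y (.Z .L .L) (.X .L .L)) (.Y .L .L))))) (.Y (.Z .D (.Z .D (.X .D .L))) .D)))) (.Y (.Z (.Y (.Y (.Y (.Z .L (.X .L (.X .L .L))) (.Z .L (.X .L (.X .L .L)))) (.Z (.X .L (.X .L .L)) (.X (.X .L .L) (.Z (.X .L .L) (.X .L .L))))) (.Z (.X (.Y (.Y .L (.X .L .L)) (.Z (.Y (.X .L (.X .L .L)) (.X (.X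 .L .L) (.X .L (.Y .L .L)))) (.Y (.X .L .L) (.X .L (.X .L .L))))) (.X (.Y (.Y .L (.X .L .L)) (.Z (.X (.Y .L (.X .L .L)) (.Y .L .L)) (.Y (.X .L .L) (.X .L .L)))) (.Y (.Z .L (.X .L .L)) (.Z (.X .L .L) (.X .L .L))))) (.X (.Y (.Y .L .L) (.Y .L (.X .L .L))) (.Z (.Y (.X .L .L) (.X (.X .L .L) (.X .L .L))) (.Y (.X .L .L) (.X .L .L)))))) (.X (.Y (.Y (.Y (.Y .D (.Z .L (.X .L .D))) (.Z (.X .L .L) (.X .L (.X .L .L)))) (.Z (.X (.X .L .L) (.Y .L .L)) (.X (.Y .L (.X .L .L)) (.Y (.X .L .L) (.X .L .L))))) (.Z (.Y (.Y (.X .L .L) .L) (.X .L .L)) (.X (.Y (.Y .L .L) (.Y .L .L)) (.Z (.Y .L .L) (.Y .L .L))))) (.Z (.Y (.Y (.Y .D (.X (.X .L .L) (.X .L .D))) (.X (.Z .L .L) (.Z .L .L))) (.X (.Y (.Y .L .L) .L) (.Y (.X .L .L) .L))) (.Y (.X (.Y .D (.Z .L .L)) .D) (.X (.Z (.Y .L .L) (.Y .L .L)) (.Z (.Y (.X .L .D) .L) (.Y .D .L)))))))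 (.Z (.X (.Z (.Y (.Y (.Z (.X (.Y (.Y .L .L) .L) (.Y (.Y (.Z (.X .L .L) .L) .L) (.X .L .L))) (.X (.Y (.X .L .L) .L) (.Y (.X .L .L) .L))) (.Y (.X .L (.X .L .L)) .L)) (.Y (.X .L .L) .L)) (.Y (.Y (.Y (.X .L .L) (.X .L .L)) (.X .L .L)) (.Y .L .L))) (.Z (.Y (.X (.Z (.Y (.Y (.X (.Y .L .L) .L) (.X .L .L)) (.X .L .L)) (.Y (.Y (.X .L .L) .L) .L)) (.Z (.Y (.X .L .L) (.X .L .L)) (.Y (.X .L .L) (.X .L .L)))) (.Y (.X .L .L) .L)) (.Y (.X (.Y (.Y (.X .L .L) .L) .L) (.Y (.X .L (.Y .L .L)) (.X .L .L))) (.Y .L .L)))) (.X (.Z (.Y (.Y (.X .L .L) .L) .L) (.Y (.Y .L .L) .L)) (.Z (.Y (.Y (.X .L .L) .L) (.X .L .L)) (.Y (.X (.Y .L .L) (.Z (.Y .L .L) (.Z (.Y .L .L) (.Y .D (.X .L .L))))) (.Y .L .L)))))))) (.Y (.Z (.X .D .D) (.X (.Y (.Y (.Z .D .L) .D) .D) (.Z (.Y (.Z .D (.X .L .L)) .D) (.Y (.X .L .L) .L)))) .D))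
    ((0 + 796918) * 524288) ((796918 - 0) * 524288) ((0 + 1647200) * 524288) ((1647200 - 0) * 524288)
    ((0 + 2097152) * 524288) ((2097152 - 0) * 524288) = true := by
  decide +kernel

theorem ev_U (x y u : ℝ) : eU.eval x y (u + 1) = u := by
  simp only [eU, ev_eSub, Ex.eval]
  push_cast
  ring

theorem ev_D1 (x y u : ℝ) : eD1.eval x y (u + 1) = x ^ 2 + 4 * cos y ^ 2 + 4 * x * cos y * u := by
  simp only [eD1, ev_eSq, Ex.eval, ev_U]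
  push_cast
  ring

theorem ev_M1 (x y u : ℝ) : eM1.eval x y (u + 1) = MM x y u := by
  simp only [eM1, eS1, eC1, MM, ev_eSub, ev_eSq, Ex.eval, ev_U, ev_eB, ev_eA1, ev_eA2, ev_eA3]
  push_cast
  ring

theorem ev_Y1 (x y u : ℝ) : eY1.eval x y (u + 1) = 0.374 - 2 * MM x y u := by
  simp only [eY1, ev_eSub, Ex.eval, ev_M1]
  push_cast
  ring

theorem numI {h τ u : ℝ} (h0 : 0 ≤ h) (h1 : h ≤ 0.76) (t0 : 0 ≤ τ) (t1 : τ ≤ π / 2) (u0 : -1 ≤ u) (u1 : u ≤ 1)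
    (hD : 3.13 < h ^ 2 + 4 * cos τ ^ 2 + 4 * h * cos τ * u) :
    0.3695 ≤ 0.374 - 2 * MM h τ u ∨
      (0 ≤ 0.374 - 2 * MM h τ u ∧ h ^ 2 + 4 * cos τ ^ 2 + 4 * h * cos τ * u ≤ 6.66846864 ∧
        0 ≤ EE (h ^ 2 + 4 * cos τ ^ 2 + 4 * h * cos τ * u) (0.374 - 2 * MM h τ u)) := by
  have hpi := pi_lt_d4
  have bx1 : ((0 : ℕ) : ℝ) ≤ 1048576 * h := by push_cast; positivity
  have bx2 : 1048576 * h ≤ ((796918 : ℕ) : ℝ) := by push_cast; norm_num at h1; linarith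
  have by1 : ((0 : ℕ) : ℝ) ≤ 1048576 * τ := by push_cast; positivity
  have by2 : 1048576 * τ ≤ ((1647200 : ℕ) : ℝ) := by push_cast; norm_num at hpi; linarith
  have bz1 : ((0 : ℕ) : ℝ) ≤ 1048576 * (u + 1) := by push_cast; linarith
  have bz2 : 1048576 * (u + 1) ≤ ((2097152 : ℕ) : ℝ) := by push_cast; linarith
  have key : ∀ (p : Ex) (t : Tr2), chk2 [p] [oLo1, oY1] t
      ((0 + 796918) * 524288) ((796918 - 0) * 524288) ((0 + 1647200) * 524288) ((1647200 - 0) * 524288)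
      ((0 + 2097152) * 524288) ((2097152 - 0) * 524288) = true →
      0.3695 ≤ 0.374 - 2 * MM h τ u ∨ 0 ≤ p.eval h τ (u + 1) := by
    intro p t hc
    rcases of_box [p] [oLo1, oY1] t 0 796918 0 1647200 0 2097152 (by norm_num) (by norm_num) (by norm_num)
      hc bx1 bx2 by1 by2 bz1 bz2 with ⟨d, hd, hd0⟩ | hp
    · rw [List.mem_cons, List.mem_cons] at hd
      rcases hd with rfl | rfl | hd
      · simp only [oLo1, ev_eSub, Ex.eval, ev_D1] at hd0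
        push_cast at hd0
        norm_num at hd0 hD
        linarith
      · left
        simp only [oY1, ev_eSub, Ex.eval, ev_Y1] at hd0
        push_cast at hd0
        norm_num at hd0 ⊢
        linarith
      · exact absurd hd (List.not_mem_nil)
    · exact Or.inr (hp p (List.mem_cons_self))
  rcases key _ _ chkIy with hy | hy
  · exact Or.inl hy
  rcases key _ _ chkIh with hh | hh
  · exact Or.inl hh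
  rcases key _ _ chkIe with he | he
  · exact Or.inl he
  right
  rw [ev_Y1] at hy
  simp only [oHi1, ev_eSub, Ex.eval, ev_D1] at hh
  rw [ev_eE, ev_D1, ev_Y1] at he
  refine ⟨hy, ?_, he⟩
  push_cast at hh
  norm_num at hh ⊢
  linarith

end Pool.Agent.TE25
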