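import Pool.Agent.TE25.GM
import Pool.Agent.TE25.NumI
import Pool.Agent.TE25.FiN
import Pool.Agent.TD25.Arc

/-!
# TE25/MassI: the inequality (I) for one disk

`‖b‖^2 = h^2 + 4 cos^2 τ + 4 h cos τ cos s` (law of cosines; e.g. from `norm_pt_sub_sq` with `pt h α - pt (2 cos τ) (α + s + π)`),
`≥ (R - 1)^2 > 3.13`. `GG_diff`, `numI` with `u = cos s`, `fi_le_num` with `D' = D = ‖b‖^2`, `y = 0.374 - 2 MM h τ (cos s)`.
-/

set_option autoImplicit false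

namespace Pool.Agent.TE25

open Real Pool.Agent.TD25

theorem norm_sq_b {h α s τ : ℝ} : ‖pt h α + pt (2 * cos τ) (α + s)‖ ^ 2 = h ^ 2 + 4 * cos τ ^ 2 + 4 * h * cos τ * cos s := by
  have hre : ∀ d b : ℝ, (pt d b).re = d * cos b := by
    intro d b
    unfold pt
    rw [Complex.re_ofReal_mul, Complex.exp_ofReal_mul_I_re]
  have him : ∀ d b : ℝ, (pt d b).im = d * sin b := by
    intro d b
    unfold pt
    rw [Complex.im_ofReal_mul, Complex.exp_ofReal_mul_I_im]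
  rw [Complex.sq_norm, Complex.normSq_apply, Complex.add_re, Complex.add_im, hre, hre, him, him]
  have h1 := sin_sq_add_cos_sq α
  have h2 := sin_sq_add_cos_sq (α + s)
  have h3 : cos s = cos (α + s) * cos α + sin (α + s) * sin α := by
    rw [← cos_sub]
    congr 1
    ring
  linear_combination h ^ 2 * h1 + 4 * cos τ ^ 2 * h2 - 4 * h * cos τ * h3

theorem massI {R h α s τ : ℝ} {b : ℂ} (hR : OkR R) (h0 : 0 ≤ h) (h1 : h ≤ 0.76) (t0 : 0 ≤ τ) (t1 : τ ≤ π / 2)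
    (hb : b = pt h α + pt (2 * cos τ) (α + s)) (hb1 : R - 1 ≤ ‖b‖) :
    fi R (‖b‖ ^ 2) + (GG h (s + τ) - GG h (s - τ)) ≤ 0.374 := by
  have hR1 : 1.7692 ≤ R - 1 := by
    have := hR.1
    norm_num at this ⊢
    linarith
  have hR0 : (0 : ℝ) ≤ R - 1 := by norm_num at hR1; linarith
  have hsq : (R - 1) ^ 2 ≤ ‖b‖ ^ 2 := pow_le_pow_left₀ hR0 hb1 2
  have hD0 : (1.7692 : ℝ) ^ 2 ≤ (R - 1) ^ 2 := pow_le_pow_left₀ (by norm_num) hR1 2
  have hD : ‖b‖ ^ 2 = h ^ 2 + 4 * cos τ ^ 2 + 4 * h * cos τ * cos s := by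
    rw [hb, norm_sq_b]
  have h3 : (3.13 : ℝ) < h ^ 2 + 4 * cos τ ^ 2 + 4 * h * cos τ * cos s := by
    rw [← hD]
    norm_num at hD0 ⊢
    linarith
  have h4 := numI h0 h1 t0 t1 (neg_one_le_cos s) (cos_le_one s) h3
  rw [GG_diff]
  rw [← hD] at h4
  have h5 := fi_le_num (y := 0.374 - 2 * MM h τ (cos s)) hR hsq le_rfl h4
  linarith

end Pool.Agent.TE25
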