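import Pool.Agent.TE25.TenE
import Pool.Agent.TE25.Eleven
import Pool.Agent.TD25.T9
import Pool.Agent.TD25.PullIn

/-!
# TE25/No12: twelve open unit disks do not cover the closed disk of radius `R`

`c' i` = `pull_in` of `c i` if `‖c i‖^2 > R^2 - 1`, otherwise `c i` (as in the proof of `T9`). `S = {i | R - 1 < ‖c' i‖}` (`Finset.univ.filter`), `k = #S`.
`k = 12`: the point 0 is not covered (`‖c' i‖ > 1`). `k = 11`: `Sᶜ = {j}`, `eleven` with `b = c' ∘ S.orderEmbOfFin`, `a = c' j`. `k = 10`: `#Sᶜ = 2`, `ten` with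
`Sᶜ.orderEmbOfFin`. `k ≤ 9`: choose `S ⊆ t`, `#t = 9` (`Finset.exists_superset_card_eq`), `T9` with `b = c' ∘ t.orderEmbOfFin`, `a = c' ∘ tᶜ.orderEmbOfFin`; `cir`: a point of norm
`R` has distance `≥ 1` from `c' i`, `i ∉ S`. (Compare `lower` in `Results/MP_7121fa_co/NineOnBoundary`.)
-/

set_option autoImplicit false

namespace Pool.Agent.TE25

open Real Pool.Agent.TD25

private theorem ex_fin {s : Finset (Fin 12)} {m : ℕ} (h : s.card = m) {P : Fin 12 → Prop} {i : Fin 12}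
    (hi : i ∈ s) (hP : P i) : ∃ j : Fin m, P (s.orderEmbOfFin h j) := by
  have : i ∈ Set.range (s.orderEmbOfFin h) := by
    rw [Finset.range_orderEmbOfFin]
    exact hi
  obtain ⟨j, hj⟩ := this
  exact ⟨j, by rw [hj]; exact hP⟩

theorem no12 {R lam : ℝ} (hR : OkR R) (hl : 0 < lam) (F : FIneq R lam) (c : Fin 12 → ℂ)
    (cov : ∀ x : ℂ, ‖x‖ ≤ R → ∃ i, ‖x - c i‖ < 1) : False := by
  have hR1 : 1 < R := by have := hR.1; linarith
  have hex : ∀ i, ∃ b' : ℂ, ‖b'‖ ^ 2 ≤ R ^ 2 - 1 ∧ ∀ x : ℂ, ‖x‖ ≤ R → ‖x - c i‖ < 1 → ‖x - b'‖ < 1 := by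
    intro i
    by_cases h : R ^ 2 - 1 < ‖c i‖ ^ 2
    · exact pull_in hR1 (c i) h
    · exact ⟨c i, not_lt.1 h, fun x _ hx => hx⟩
  choose c' hc1 hcc using hex
  have cov' : ∀ x : ℂ, ‖x‖ ≤ R → ∃ i, ‖x - c' i‖ < 1 := by
    intro x hx
    obtain ⟨i, hi⟩ := cov x hx
    exact ⟨i, hcc i x hx hi⟩
  classical
  set S : Finset (Fin 12) := Finset.univ.filter fun i => R - 1 < ‖c' i‖ with hS
  have memS : ∀ i, i ∈ S ↔ R - 1 < ‖c' i‖ := by
    intro i
    rw [hS, Finset.mem_filter]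
    exact ⟨fun h => h.2, fun h => ⟨Finset.mem_univ i, h⟩⟩
  have hcard : S.card ≤ 12 := by
    have := Finset.card_le_univ S
    rwa [Fintype.card_fin] at this
  have hcompl : Sᶜ.card = 12 - S.card := by
    rw [Finset.card_compl, Fintype.card_fin]
  have key : S.card = 12 ∨ S.card = 11 ∨ S.card = 10 ∨ S.card ≤ 9 := by omega
  rcases key with hk | hk | hk | hk
  · obtain ⟨i, hi⟩ := cov' 0 (by rw [norm_zero]; linarith)
    have hu : S = Finset.univ := Finset.card_eq_iff_eq_univ S |>.1 (by rw [hk, Fintype.card_fin])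
    have h1 : R - 1 < ‖c' i‖ := (memS i).1 (by rw [hu]; exact Finset.mem_univ i)
    rw [zero_sub, norm_neg] at hi
    have := hR.1
    linarith
  · rw [hk] at hcompl
    obtain ⟨j, hj⟩ := Finset.card_eq_one.1 (by rw [hcompl] : Sᶜ.card = 1)
    have hj' : j ∉ S := by
      rw [← Finset.mem_compl, hj]
      exact Finset.mem_singleton_self j
    refine eleven hR (fun i => c' (S.orderEmbOfFin hk i)) (fun i => (memS _).1 (S.orderEmbOfFin_mem hk i))
      (fun i => hc1 _) (c' j) (not_lt.1 fun h => hj' ((memS j).2 h)) ?_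
    intro x hx
    obtain ⟨i, hi⟩ := cov' x hx
    by_cases h : i ∈ S
    · exact Or.inl (ex_fin hk (P := fun i => ‖x - c' i‖ < 1) h hi)
    · rw [← Finset.mem_compl, hj, Finset.mem_singleton] at h
      subst h
      exact Or.inr hi
  · rw [hk] at hcompl
    have h2 : Sᶜ.card = 2 := by rw [hcompl]
    have hin : ∀ i, c' (Sᶜ.orderEmbOfFin h2 i) = c' (Sᶜ.orderEmbOfFin h2 i) ∧
        ‖c' (Sᶜ.orderEmbOfFin h2 i)‖ ≤ R - 1 := by
      intro i
      refine ⟨rfl, not_lt.1 fun h => ?_⟩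
      have h3 := Sᶜ.orderEmbOfFin_mem h2 i
      rw [Finset.mem_compl] at h3
      exact h3 ((memS _).2 h)
    refine ten (R := R) (b := fun i => c' (S.orderEmbOfFin hk i)) (a1 := c' (Sᶜ.orderEmbOfFin h2 0))
      (a2 := c' (Sᶜ.orderEmbOfFin h2 1))
      ⟨hR, fun i => (memS _).1 (S.orderEmbOfFin_mem hk i), fun i => hc1 _, (hin 0).2, (hin 1).2, ?_⟩
    intro x hx
    obtain ⟨i, hi⟩ := cov' x hx
    by_cases h : i ∈ S
    · exact Or.inl (ex_fin hk (P := fun i => ‖x - c' i‖ < 1) h hi)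
    · rw [← Finset.mem_compl] at h
      right
      have := ex_fin h2 (P := fun i => ‖x - c' i‖ < 1) h hi
      rwa [Fin.exists_fin_two] at this
  · obtain ⟨t, hSt, ht⟩ := Finset.exists_superset_card_eq (s := S) (n := 9) hk
      (by rw [Fintype.card_fin]; norm_num)
    have htc : tᶜ.card = 3 := by rw [Finset.card_compl, Fintype.card_fin, ht]
    refine T9 hR hl F (fun i => c' (t.orderEmbOfFin ht i)) (fun j => c' (tᶜ.orderEmbOfFin htc j)) ?_ ?_
    · intro x hx
      obtain ⟨i, hi⟩ := cov' x hx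
      by_cases h : i ∈ t
      · exact Or.inl (ex_fin ht (P := fun i => ‖x - c' i‖ < 1) h hi)
      · rw [← Finset.mem_compl] at h
        exact Or.inr (ex_fin htc (P := fun i => ‖x - c' i‖ < 1) h hi)
    · intro x hx
      obtain ⟨i, hi⟩ := cov' x hx.le
      by_cases h : i ∈ t
      · exact ex_fin ht (P := fun i => ‖x - c' i‖ < 1) h hi
      · exfalso
        have h1 : ¬ R - 1 < ‖c' i‖ := fun h' => h (hSt ((memS i).2 h'))
        have h3 := norm_sub_norm_le x (c' i)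
        rw [hx] at h3
        linarith [not_lt.1 h1]

end Pool.Agent.TE25
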