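import Pool.Agent.TE25.Pick
import Pool.Agent.TE25.DC
import Pool.Agent.TE25.Rays

/-!
# TE25/NoBoth: no disk meets both lobes between the corner disks

Suppose the shadow of `b i` contains `x1 = bp h1 α1 θ1`, `f' < θ1 < e`, and `x2 = bp h2 α2 θ2`, `f < θ2 < e'`.
It does not contain `U = bp h1 α1 θU` (else `e ≤ θ1` by `P.mn`) nor `V = bp h1 α1 θV` (else `θ1 ≤ f'` by `Q.mx`). The shadow of `b kU` contains `U`, not `x1`
(`P.mn` for `i = kU`) and not `x2` (`P.mx`); the shadow of `b kV` contains `V`, not `x1` (`Q.mx` for `i = kV`), not `x2` (`Q.mn`).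
`θ1 < e ≤ θU ≤ f < θ2 < e' ≤ θV + 2π`, `θV ≤ f' < θ1`.
If `θ2 < θ1 + π`: `cone` (`θ = θU`): `U = p x1 + q x2`, contradiction by `DC` (`b := b i`, `b' := b kU`, `u := U`).
If `θ2 = θ1 + π`: `opp`. If `θ2 > θ1 + π`: `θ2 < θV + 2π < θ1 + 2π < θ2 + π`, `cone` with `θ = θV + 2π` for `x2` and `bp h1 α1 (θ1 + 2π) = x1`
(`bp_add`), `V = bp h1 α1 (θV + 2π)`: `V = p x2 + q x1`, contradiction by `DC` (`b' := b kV`).
-/

set_option autoImplicit false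

namespace Pool.Agent.TE25

open Real Pool.Agent.TD25

theorem no_both {h1 α1 h2 α2 θV θU : ℝ} (a0 : 0 ≤ h1) (a1 : h1 < 1) (b0 : 0 ≤ h2) (b1 : h2 < 1)
    (L : Lobe h1 α1 h2 α2 θV θU) {ι : Type} {b : ι → ℂ} (hb : ∀ i, 1 < ‖b i‖) {kU kV : ι} {e f f' e' : ℝ}
    (P : PU h1 α1 h2 α2 θV θU b kU e f) (Q : PV h1 α1 h2 α2 θV θU b kV f' e') (i : ι) {θ1 θ2 : ℝ}
    (p1 : f' < θ1) (p2 : θ1 < e) (q1 : f < θ2) (q2 : θ2 < e') (s1 : Sh (b i) (bp h1 α1 θ1))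
    (s2 : Sh (b i) (bp h2 α2 θ2)) : False := by
  have c1 : θV ≤ θ1 := by linarith [Q.f1]
  have c2 : θ1 ≤ θU := by linarith [P.e2]
  have c3 : θU ≤ θ2 := by linarith [P.f1]
  have c4 : θ2 ≤ θV + 2 * π := by linarith [Q.e2]
  have nU : ¬ Sh (b i) (bp h1 α1 θU) := fun h => by linarith [P.mn i θ1 c1 c2 h s1]
  have nV : ¬ Sh (b i) (bp h1 α1 θV) := fun h => by linarith [Q.mx i θ1 c1 c2 h s1]
  have nU1 : ¬ Sh (b kU) (bp h1 α1 θ1) := fun h => by linarith [P.mn kU θ1 c1 c2 P.sU h]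
  have nU2 : ¬ Sh (b kU) (bp h2 α2 θ2) := fun h => by linarith [P.mx θ2 c3 c4 h]
  have nV1 : ¬ Sh (b kV) (bp h1 α1 θ1) := fun h => by linarith [Q.mx kV θ1 c1 c2 Q.sV h]
  have nV2 : ¬ Sh (b kV) (bp h2 α2 θ2) := fun h => by linarith [Q.mn θ2 c3 c4 h]
  rcases lt_trichotomy θ2 (θ1 + π) with h | h | h
  · obtain ⟨p, q, hp, hq, hc⟩ := cone (r := rd h1 (θU - α1)) (r1 := rd h1 (θ1 - α1)) (r2 := rd h2 (θ2 - α2))
      (θ := θU) (θ1 := θ1) (θ2 := θ2) (by linarith [P.e2]) (by linarith [P.f1]) h (rd_pos a0 a1) (rd_pos a0 a1)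
      (rd_pos b0 b1)
    exact DC (hb i) (hb kU) s1 s2 nU1 nU2 P.sU nU hp hq hc
  · have s2' : Sh (b i) (pt (rd h2 (θ2 - α2)) (θ1 + π)) := by
      rw [← h]
      exact s2
    exact opp (hb i) (rd_pos a0 a1) (rd_pos b0 b1) s1 s2'
  · have e1 : bp h1 α1 (θ1 + 2 * π) = bp h1 α1 θ1 := by
      have h3 := bp_add h1 α1 θ1 1
      push_cast at h3
      rwa [mul_one] at h3
    have e2 : bp h1 α1 (θV + 2 * π) = bp h1 α1 θV := by
      have h3 := bp_add h1 α1 θV 1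
      push_cast at h3
      rwa [mul_one] at h3
    obtain ⟨p, q, hp, hq, hc⟩ := cone (r := rd h1 (θV + 2 * π - α1)) (r1 := rd h2 (θ2 - α2))
      (r2 := rd h1 (θ1 + 2 * π - α1))
      (θ := θV + 2 * π) (θ1 := θ2) (θ2 := θ1 + 2 * π) (by linarith [Q.e2]) (by linarith [Q.f1]) (by linarith)
      (rd_pos a0 a1) (rd_pos b0 b1) (rd_pos a0 a1)
    have hc' : bp h1 α1 (θV + 2 * π) = (p : ℂ) * bp h2 α2 θ2 + (q : ℂ) * bp h1 α1 (θ1 + 2 * π) := hc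
    rw [e1, e2] at hc'
    exact DC (hb i) (hb kV) s2 s1 nV2 nV1 Q.sV nV hp hq hc'

end Pool.Agent.TE25
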