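import Pool.Agent.TD25.Tool
import Pool.Agent.TE25.Defs

/-!
# TE25/NumDefs: expressions for the verified Taylor models (`TD25/Tool`) and their values

Boxes: `of_box` (`TD25/Tool`), endpoints in units of `2^(-20)`, all variables nonnegative, arguments of `sin`, `cos` at most 2 in
absolute value.
-/

set_option autoImplicit false

namespace Pool.Agent.TE25

open Real Pool.Agent.SB19

/-- `a - b` -/
def eSub (a b : Ex) : Ex := .add a (.neg b)
def eSq (a : Ex) : Ex := .mul a a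
/-- coefficients of the potential -/
def eB (h : Ex) : Ex := .add (.num 2354 10000) (.mul h (.add (.num 1000 10000) (.mul h (.add (.num 10572 10000) (.mul h (.neg (.num 17584 10000)))))))
def eA1 (h : Ex) : Ex := .add (.neg (.num 11 10000)) (.mul h (.add (.neg (.num 11453 10000)) (.mul h (.add (.neg (.num 7530 10000)) (.mul h (.num 24937 10000))))))
def eA2 (h : Ex) : Ex := .add (.neg (.num 51 10000)) (.mul h (.add (.num 1426 10000) (.mul h (.add (.num 3984 10000) (.mul h (.neg (.num 6789 10000)))))))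
def eA3 (h : Ex) : Ex := .add (.num 6 10000) (.mul h (.add (.neg (.num 242 10000)) (.mul h (.add (.neg (.num 355 10000)) (.mul h (.num 830 10000))))))
/-- the potential at `σ` with sine `S` and cosine `C` -/
def eG (h s S C : Ex) : Ex := .add (.mul (eB h) s) (.mul S (.add (eA1 h) (.add (.mul (.nmul 2 (eA2 h)) C) (.mul (eA3 h) (eSub (.nmul 4 (eSq C)) (.num 1 1))))))
/-- `(R0^2 - 1 + D)^2 - 4 R0^2 D cos^2 y` with `R0 = 2.7692` -/
def eE (D y : Ex) : Ex := eSub (eSq (.add (.num 666846864 100000000) D)) (.mul (.mul (.num 3067387456 100000000) D) (eSq (.cos y)))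
/-- (P): density in `u = cos σ`, `Y = u + 1` -/
def eP : Ex :=
  let u := eSub .Y (.num 1 1)
  .add (eB .X) (.add (.mul (eA1 .X) u) (.add (.mul (.nmul 2 (eA2 .X)) (eSub (.nmul 2 (eSq u)) (.num 1 1))) (.mul (.nmul 3 (eA3 .X)) (.mul u (eSub (.nmul 4 (eSq u)) (.num 3 1))))))
/-- (I): `X = h`, `Y = τ`, `Z = cos s + 1` -/
def eU : Ex := eSub .Z (.num 1 1)
def eD1 : Ex := .add (eSq .X) (.add (.nmul 4 (eSq (.cos .Y))) (.mul (.nmul 4 .X) (.mul (.cos .Y) eU)))
def eS1 : Ex := .sin .Y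
def eC1 : Ex := .cos .Y
/-- half of the mass: `β τ + sin τ (α1 u + 2 α2 cos τ (2u^2-1) + α3 (4 cos^2 τ - 1)(4u^3-3u))` -/
def eM1 : Ex := .add (.mul (eB .X) .Y) (.mul eS1 (.add (.mul (eA1 .X) eU) (.add (.mul (.mul (.nmul 2 (eA2 .X)) eC1) (eSub (.nmul 2 (eSq eU)) (.num 1 1))) (.mul (.mul (eA3 .X) (eSub (.nmul 4 (eSq eC1)) (.num 1 1))) (.mul eU (eSub (.nmul 4 (eSq eU)) (.num 3 1)))))))
def eY1 : Ex := eSub (.num 374 1000) (.nmul 2 eM1)
def oLo1 : Ex := eSub (.num 313 100) eD1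
def oHi1 : Ex := eSub (.num 666846864 100000000) eD1
def oY1 : Ex := eSub eY1 (.num 3695 10000)
/-- upper polynomial bound for `√(1-u)`, `0 ≤ u ≤ 0.5776` -/
def eW (u : Ex) : Ex := .add (.num 100002 100000) (.neg (.mul u (.add (.num 49881 100000) (.mul u (.add (.num 14068 100000) (.mul u (.add (.neg (.num 558 100000)) (.mul u (.num 14434 100000)))))))))
/-- (II): `X = h`, `Y = δ`, `Z = η + 1` -/
def eDp : Ex := eSub .Y (.ndiv 2 .pi)
def eSd : Ex := .cos eDp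
def eCd : Ex := .neg (.sin eDp)
def eEt : Ex := eSub .Z (.num 1 1)
def eSe : Ex := .sin eEt
def eCe : Ex := .cos eEt
def eX2 : Ex := .mul .X eSd
def eYU : Ex := .add (.mul .X eCd) (eW (eSq eX2))
def eD2 : Ex := .add (.add (eSq eYU) (.num 1 1)) (.mul (.nmul 2 eYU) eCe)
def eS2 : Ex := eSub (.mul eSd eCe) (.mul eCd eSe)
def eC2 : Ex := .add (.mul eCd eCe) (.mul eSd eSe)
/-- `2 (π/4 - 2 c + λ π/2 - m + G - λ δ + κ sin η)`, `m = 0.001` -/
def eY2 : Ex := .nmul 2 (.add (.add (.ndiv 4 .pi) (.neg (.num 749 1000))) (.add (eG .X (eSub .Y eEt) eS2 eC2) (.add (.mul (.num 37 100) (eSub (.ndiv 2 .pi) .Y)) (.mul (.num 14 100) eSe))))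
def oLo2 : Ex := eSub (.num 313 100) eD2
def oHi2 : Ex := eSub (.num 666846864 100000000) eD2
def oY2 : Ex := eSub eY2 (.num 3695 10000)
def oU2 : Ex := eSub (.num 7691 10000) eYU
def oE2 : Ex := .neg (.add (.add eSe eX2) (.num 1 10000))
/-- (II-2) -/
def eY3 : Ex := .nmul 2 (.add (.add (.ndiv 4 .pi) (.neg (.num 759 1000))) (.add (.mul (.num 37 100) (eSub (.ndiv 2 .pi) .Y)) (.mul (.num 14 100) eSe)))
def oY3 : Ex := eSub eY3 (.num 3695 10000)
/-- (II-4): `σl = π - Y`, `σr = π + Z` -/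
def eS4 : Ex := .sin .Y
def eC4 : Ex := .cos .Y
def eD4 : Ex := .add (.add (eSq .X) (.num 2 1)) (eSub (.nmul 2 (eSub (.mul (.cos .Y) (.cos .Z)) (.mul (.sin .Y) (.sin .Z)))) (.mul (.nmul 2 .X) (.add (.cos .Y) (.cos .Z))))
def eY4 : Ex := .nmul 2 (.add (.add (.ndiv 4 .pi) (.neg (.num 749 1000))) (.add (eG .X (eSub .pi .Y) eS4 (.neg eC4)) (.add (.neg (.mul (.num 37 100) (.ndiv 2 .pi))) (.mul (.num 14 100) (eSub (.sin .Y) (.sin .Z))))))
def oLo4 : Ex := eSub (.num 313 100) eD4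
def oHi4 : Ex := eSub (.num 666846864 100000000) eD4
def oY4 : Ex := eSub eY4 (.num 3695 10000)
/-- small -/
def eGs : Ex := eSub (.num 1 100) (eG .X .Y (.sin .Y) (.cos .Y))
def oGs : Ex := eSub (.num 213 100) (.add (.add (.num 1 1) (eSq .X)) (.mul (.nmul 2 .X) (.cos .Y)))
/-- T11 -/
def eT11 : Ex := eSub (.nmul 2 (.mul .pi (eB .X))) (eSub (.num 4115 1000) .pi)
/-- SL: `X = h`, `Y = τ`, `Z = s` -/
def eZp : Ex := eSub .Z (.ndiv 2 .pi)
def eCs : Ex := .neg (.sin eZp)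
def eSs : Ex := .cos eZp
def eM5 : Ex := .add (.mul (eB .X) .Y) (.mul eS1 (.add (.mul (eA1 .X) eCs) (.add (.mul (.mul (.nmul 2 (eA2 .X)) eC1) (eSub (.nmul 2 (eSq eCs)) (.num 1 1))) (.mul (.mul (eA3 .X) (eSub (.nmul 4 (eSq eC1)) (.num 1 1))) (.mul eCs (eSub (.nmul 4 (eSq eCs)) (.num 3 1)))))))
/-- `2 π β - 2 M - (3.741 - π)` -/
def eSL : Ex := eSub (eSub (.nmul 2 (.mul .pi (eB .X))) (.nmul 2 eM5)) (eSub (.num 3741 1000) .pi)
def eD5 : Ex := .add (eSq .X) (.add (.nmul 4 (eSq eC1)) (.mul (.nmul 4 .X) (.mul eC1 eCs)))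
def oA5 : Ex := eSub (.num 5775 10000) eD5
def oB5 : Ex := eSub eD5 (.num 3131 1000)
/-- `s + τ ≥ π` -/
def oC5 : Ex := eSub (eSub (.add .Y .Z) .pi) (.num 1 10000)
/-- `‖a1 + ρ‖ ≥ 1` with `ρ = 0.7692` (lower) -/
def oD5 : Ex := eSub (.add (.add eD5 (.mul (.nmul 2 (.num 7692 10000)) (.add .X (.mul (.nmul 2 eC1) eCs)))) (.num 59166864 100000000)) (.num 1001 1000)
/-- `‖U‖ < ρ`, `‖V‖ < ρ` -/
def oE5 : Ex := eSub (.num 5915 10000) (.add (.add (.num 1 1) (eSq .X)) (.mul (.nmul 2 .X) (.add (.mul eCs eC1) (.mul eSs eS1))))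
def oF5 : Ex := eSub (.num 5915 10000) (.add (.add (.num 1 1) (eSq .X)) (.mul (.nmul 2 .X) (eSub (.mul eCs eC1) (.mul eSs eS1))))
/-- direction at most `1.2023` -/
def oGb : Ex := eSub (.mul (.sin .Y) (.cos (.num 12023 10000))) (.add (.mul (.add .X (.cos .Y)) (.sin (.num 12023 10000))) (.num 1 10000))
def eGb2 : Ex := eSub (.num 115 1000) (eG .X .Y (.sin .Y) (.cos .Y))
def eGa2 : Ex := eSub (.num 4 100) (eG .X .Y (.sin .Y) (.cos .Y))
def oT3 : Ex := eSub eD2 (.add (.add (.num 2001 1000) (eSq .X)) (.mul (.nmul 2 .X) eC2))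

def eWa : Ex := eSub (eSq (eW .X)) (eSub (.num 1 1) .X)

def eWc : Ex := eSub (eSub (.num 1 1) .X) (eSq (eSub (eW .X) (.num 1 10000)))

/-- An upper bound for `√(1 - u)`, `0 ≤ u ≤ 0.5776` -/
noncomputable def wb (u : ℝ) : ℝ := 1.00002 - u * (0.49881 + u * (0.14068 + u * (-0.00558 + u * 0.14434)))

theorem ev_eSub (a b : Ex) (x y z : ℝ) : (eSub a b).eval x y z = a.eval x y z - b.eval x y z := by
  simp only [eSub, Ex.eval]; ring

theorem ev_eSq (a : Ex) (x y z : ℝ) : (eSq a).eval x y z = a.eval x y z ^ 2 := by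
  simp only [eSq, Ex.eval]; ring

theorem ev_eB (e : Ex) (x y z : ℝ) : (eB e).eval x y z = gb (e.eval x y z) := by
  simp only [eB, gb, Ex.eval]; push_cast; ring

theorem ev_eA1 (e : Ex) (x y z : ℝ) : (eA1 e).eval x y z = ga1 (e.eval x y z) := by
  simp only [eA1, ga1, Ex.eval]; push_cast; ring

theorem ev_eA2 (e : Ex) (x y z : ℝ) : (eA2 e).eval x y z = ga2 (e.eval x y z) := by
  simp only [eA2, ga2, Ex.eval]; push_cast; ring

theorem ev_eA3 (e : Ex) (x y z : ℝ) : (eA3 e).eval x y z = ga3 (e.eval x y z) := by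
  simp only [eA3, ga3, Ex.eval]; push_cast; ring

theorem ev_eE (d e : Ex) (x y z : ℝ) : (eE d e).eval x y z = EE (d.eval x y z) (e.eval x y z) := by
  simp only [eE, EE, ev_eSub, ev_eSq, Ex.eval]; push_cast; ring

theorem ev_eW (e : Ex) (x y z : ℝ) : (eW e).eval x y z = wb (e.eval x y z) := by
  simp only [eW, wb, Ex.eval]; push_cast; ring

/-- The potential, with the sine and the cosine of the angle given. -/
theorem GG_eq (h σ : ℝ) :
    GG h σ = gb h * σ + sin σ * (ga1 h + 2 * ga2 h * cos σ + ga3 h * (4 * cos σ ^ 2 - 1)) := by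
  have h3 : sin (3 * σ) = sin σ * (4 * cos σ ^ 2 - 1) := by
    have h1 := sin_three_mul σ
    have h2 := sin_sq_add_cos_sq σ
    linear_combination h1 - 4 * sin σ * h2
  rw [GG, sin_two_mul, h3]
  ring

theorem ev_eG (h s S C : Ex) (x y z : ℝ) (hS : S.eval x y z = sin (s.eval x y z))
    (hC : C.eval x y z = cos (s.eval x y z)) : (eG h s S C).eval x y z = GG (h.eval x y z) (s.eval x y z) := by
  rw [GG_eq]
  simp only [eG, ev_eSub, ev_eSq, ev_eB, ev_eA1, ev_eA2, ev_eA3, Ex.eval, hS, hC]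
  push_cast
  ring

end Pool.Agent.TE25
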