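import Pool.Agent.TE25.NumDefs

/-!
# TE25/NumII1: the corner inequality, numerical part (verified Taylor models)

Proof. The three checks with `of_box` at the point `(h, δ, η + 1)`; `sin δ = cos (δ - π/2)`, `cos δ = -sin (δ - π/2)`. `eYU` is
`yU = h cos δ + wb ((h sin δ)^2)`, `eD2` is `yU^2 + 1 + 2 yU cos η`, `eY2` is `2 (π/4 - 0.749 + GG h (δ - η) + 0.37 (π/2 - δ) + 0.14 sin η)`
(`ev_eG` with `σ = δ - η`, `sin_sub`, `cos_sub`). The alternatives `oLo2`, `oU2`, `oE2` contradict `hD`, `hU`, `hE`; `oY2` is the first case.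
-/

set_option autoImplicit false

namespace Pool.Agent.TE25

open Real Pool.Agent.SB19 Pool.Agent.TD25

theorem chkIIy : chk2 [eY2] [oLo2, oY2, oU2, oE2] (.Y (.Z (.Y (.X .L (.Z .L .D)) (.X (.Z (.X .L (.Y .L .L)) (.X .L .L)) (.Z (.Y .L (.Z (.X .L (.X .L .L)) (.X .L (.Y .L .L)))) (.Y .L (.Y .L (.X .L .L)))))) (.Y (.X .L .L) (.X (.Y .L .L) (.Y .L (.Z .L .L))))) (.Z (.Y (.X (.Z (.X .L (.Z .D (.Y .L .L))) (.X (.Y .L .L) (.Y (.Z .L .L) (.Z .L (.X .L (.Z .L (.Y .L .L))))))) (.Z (.X (.Y (.Z .L (.Z .L .L)) (.Z .D (.Z .D .L))) (.Y (.Z (.X .D .D) (.X (.Z .L .L) .D)) .D)) (.Y (.Z (.X (.Z .L (.Y .L .L)) (.Y (.X .L .D) .D)) (.X (.Y .L (.X .L (.Y .L .D))) (.Y (.Y .L (.X .D .D)) .D))) (.X (.Z (.Z (.Y .L .D) (.Y (.X .L .D) .D)) (.Z (.X (.Y .L .D) .D) (.Y (.X (.Y .L .D) .D) .D))) .D)))) (.X (.Z (.X .D (.Y .L .D)) (.X (.Z .L (.Y .L .L)) (.Y (.Z .L (.Z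 .L (.Y (.X .L .D) .L))) (.Z .L (.Z .L .L))))) .D)) (.Y (.X (.Z (.X (.Y .L (.X .L (.Z .L .L))) (.Y (.Y .L .L) (.Z (.Y (.X .L (.Y .L (.Z .L .D))) (.X (.Z .L (.X .L .L)) (.Z .D .D))) (.Y (.X .L .D) (.X (.X .D .D) .D))))) (.Y (.X .L .L) (.X (.X (.Z .L .D) .D) .D))) (.Z (.Y (.Y (.X .L .L) (.X (.Z (.Y .L (.X .L .D)) .D) .D)) (.X (.Y (.Z .D .D) .D) .D)) (.Y (.Y .L .D) .D))) (.X (.Z (.X (.Z (.Y (.X .L (.Z .L .L)) (.X .L (.Z .L (.Y .L .L)))) (.Y (.X .L (.Y (.X .L (.Z .D .D)) (.Z (.X .L .D) .D))) (.X (.X .L (.Z .L .D)) (.Z (.X (.Z .L .D) .D) .D)))) (.Z (.Y (.Z (.X (.Y .L .L) .D) (.X (.Y (.X .L .D) .D) .D)) (.Z .D .D)) .D)) (.X (.Y (.X (.Z .D .D) .D) .D) .D)) .D))))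
    ((52428 + 796918) * 524288) ((796918 - 52428) * 524288) ((0 + 3294199) * 524288) ((3294199 - 0) * 524288)
    ((136314 + 2695700) * 524288) ((2695700 - 136314) * 524288) = true := by
  decide +kernel

theorem chkIIh : chk2 [oHi2] [oLo2, oY2, oU2, oE2] (.Y (.Y (.X (.Z (.Y .D .L) (.X .D .D)) (.Z (.Z (.Y .D (.X .D .D)) .D) (.X .D .D))) (.X (.Z .L .L) (.Y (.Z (.X .L .L) .L) (.Z .L .L)))) (.Y (.Z .L .L) (.Z .L .L)))
    ((52428 + 796918) * 524288) ((796918 - 52428) * 524288) ((0 + 3294199) * 524288) ((3294199 - 0) * 524288)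
    ((136314 + 2695700) * 524288) ((2695700 - 136314) * 524288) = true := by
  decide +kernel

theorem chkIIe : chk2 [eE eD2 eY2] [oLo2, oY2, oU2, oE2] (.Y (.Z (.Y (.X (.Z (.Y .D .D) .D) (.Z (.Y .D (.Y .D (.Z .D .D))) .D)) (.X (.Z (.X (.Y .D .D) (.Y (.Z .D .D) (.Z .D (.X .L (.Z .L .L))))) (.Y (.X .D (.Y .D .D)) (.X (.X .D .L) (.Y (.X .D (.Z .L .L)) (.X (.Z .L .L) (.Z (.Z .L .L) (.Y .L .L))))))) (.Z (.Y (.X (.Z (.Y .D .L) (.Y .D (.X .D .L))) (.Y (.Z (.Y .D .L) (.Y .D .D)) (.Z (.Z (.X .D .L) (.X .L .L)) (.Y .L (.X .L .L))))) (.X (.Z (.Z .D (.Y .L .L)) (.Z (.X .L (.Y .L .L)) (.Y (.X .L (.Y .L .L)) (.X .L (.Z .L .L))))) (.Z (.X (.Z (.Y .L .L) (.Y .L .L)) (.Z (.Y .L .L) (.Y .L .L))) (.Y (.Z (.X .L .L) (.X (.Y .L .L) (.Y .L .L))) (.Z (.X .L .L) (.X (.Y .L .L) (.Y .L .L))))))) (.Y (.Y (.Z .D .D) (.Z (.X (.Y .D .L) (.Y .L (.Z .L .L))) (.X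 .D .D))) (.Y (.X (.Z (.X (.Y .L .L) (.Y .L (.Z .L .L))) (.Y .L (.X .L .L))) (.Z (.Y (.Z (.X .L .L) .L) (.Z (.X .L .L) (.X .L .L))) (.Y .L (.Z .L .L)))) (.X (.Z (.X (.Z (.X .L .L) (.Y .L (.X .L .L))) (.Z (.Y .L .L) (.Y .L .L))) (.Y (.X (.Z .L .L) (.Z .L .L)) (.X (.Z .L .L) (.Z .L .L)))) (.Z (.X (.Y (.Z .L .L) (.Z .L .L)) (.Y (.Z .L .L) .L)) (.X (.Z (.Y .L .L) .L) (.Z .L .L))))))))) (.Y (.Z (.X .D .D) (.X .D .D)) (.X (.Z (.Y .D (.X (.X .D .D) (.Y .L (.X .L (.Z .L .L))))) (.Y .D (.Y .D .L))) (.Y (.Z .D .D) (.Z (.Y (.Z (.Y .L .L) .L) (.Z (.X (.Y .L .L) (.Y .L .L)) .L)) (.Y .D .L)))))) (.Z (.Y (.Z (.Y (.X (.X .D (.Z .D (.Z (.Y .L .D) (.X .L (.Y .L .L))))) (.X (.Z (.Z .D (.Y .L .L)) (.Z (.Y (.Z .L .L) .L) (.Y (.X .L .L) (.Z .L .L)))) (.Z (.X .D .D) (.X (.Z (.Y .L .D) (.Y .L .D)) .D)))) (.X (.X .D (.Z .D (.Z .D (.Y .L .D)))) (.X (.Z .D (.Z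 .D (.Y .L .D))) .D))) (.X (.X (.Y (.X (.Z .D .D) (.Z .L (.Y .L (.X .L .L)))) (.Z (.X .L (.Z .L .L)) (.X (.X .L .L) (.Z (.X .L .L) (.X .L (.Y .L .L)))))) (.Z (.Y (.X (.Z .L (.Y .L .L)) (.Z (.Y .L .L) (.Y (.X .L .L) (.Z .L .L)))) (.Z (.Y (.X .L .L) .L) (.Y (.X .L .L) (.Z .L .L)))) (.Y (.X (.Y (.X .L .L) (.X (.Z .L .L) (.Z .L .L))) (.Y (.X (.Y .L .L) (.Y .L .L)) (.Z (.X .L .L) (.X .L .L)))) (.Z (.X (.Y (.X .L .L) .L) (.Y (.Z .L .L) .L)) (.X (.Y (.X .L .L) (.Z .L .L)) (.Y (.X .L .L) .L)))))) (.X (.Y (.Z (.Y (.Z (.X (.Z .L .L) (.Y .L .L)) (.X (.X .L (.Z .L .L)) (.Y .L .L))) (.Z (.Z .L .L) (.X (.Z .L .L) .L))) (.Y (.X (.Y (.Z .L .L) (.Z .L .L)) (.Z (.Y .L .L) (.Y .L .L))) (.X (.Y (.Z .L .L) (.Z .L .L)) (.X .L .D)))) (.Z (.Z (.Y (.Z .L .L) .D) (.Y (.X .L .D) .D)) (.X (.Y (.Z .L .L) .D) .D))) (.Y (.Y (.X (.Z (.Z .L (.Y .L .D)) (.Y .L .D))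 .D) .D) .D)))) (.Z (.Y (.X (.Z .D (.X .D (.Z .D .L))) .D) (.X .D .D)) (.Y (.X (.Z (.X (.X .D (.Z .D .L)) (.Z (.Y .L .D) (.Y .L .L))) (.X (.X (.Z .L (.X .L .L)) (.Z (.Y .L .L) (.Y .L .L))) (.Z (.Y (.Z .L .L) (.Z .L .L)) (.Y (.X .L .D) (.Z .L .L))))) .D) (.X (.X (.Z (.X .L (.Z .D .L)) (.X (.Z .L .L) (.Z (.Y .L .L) (.Y .L .L)))) (.Z (.Z .D (.Y .L .D)) (.Z (.Y (.Z .L .L) .L) (.Y (.Z .L .L) (.X .L .D))))) .D)))) (.Y (.X (.Z (.X (.Y (.X (.X .L .L) (.Y .L (.X .L .L))) (.X (.Z (.X .L (.Y .L .L)) (.X .L .L)) (.Z (.X (.Y .L (.Z .L .L)) (.Y .L (.Z .L .L))) (.Y .L (.Z .L .L))))) (.Y (.Y (.X (.Z .L .L) (.Z (.Y .L (.Z .L .L)) .L)) (.Z (.X (.X .L (.Y .L .L)) (.Z (.Y .L .L) .L)) (.X .L .L))) (.Z (.X (.Z (.Y (.X .L .L) .L) (.Y .L .L)) (.Y (.Z (.X .L .L) .L) (.Z .D .D))) (.X (.Z .L .D) .D)))) (.X (.Y (.Z .L .D) (.Z (.X .L .D) .D)) (.Y (.Z .L .D) .D)))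 (.Z (.Y (.X (.Z (.Y (.X (.Z (.Y .L .L) .L) (.Z .L .L)) (.X (.Z .L .L) .D)) (.Y .L .D)) (.Z (.Y (.X .L .D) .D) .D)) (.X (.Z .D .D) .D)) (.Y (.X .D .D) .D))) (.Z (.X (.X (.Z (.Y (.X (.X (.Y .L (.Z .L .L)) (.Z .L (.Y .L .L))) (.Z (.X .L (.Y .L .L)) (.X .L .L))) (.X (.Z (.Z .L (.X .L .L)) (.X (.Y .L .L) .L)) (.Z (.Y (.Z .L .L) (.Z .L .L)) (.Y (.X .L .L) (.Z .L .L))))) (.X (.Y (.X (.Y .L .L) (.Y .L .L)) (.Z (.X (.Y .L .L) .L) (.X (.Y .L .L) .D))) (.Y (.Z (.X .L .D) .D) (.Z (.X .L .D) .D)))) (.Z (.Y (.X (.Z (.Y .L .L) (.X .L .D)) .D) (.Z .D .D)) .D)) .D) (.X (.X (.Z (.X .D .D) .D) .D) .D)))))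
    ((52428 + 796918) * 524288) ((796918 - 52428) * 524288) ((0 + 3294199) * 524288) ((3294199 - 0) * 524288)
    ((136314 + 2695700) * 524288) ((2695700 - 136314) * 524288) = true := by
  decide +kernel

theorem numII1 {h δ η yU D Y : ℝ} (h0 : 0.05 ≤ h) (h1 : h ≤ 0.76) (d0 : 0 ≤ δ) (d1 : δ ≤ π) (e0 : -0.87 ≤ η)
    (e1 : η ≤ π / 2) (hy : yU = h * cos δ + wb ((h * sin δ) ^ 2)) (hDd : D = yU ^ 2 + 1 + 2 * yU * cos η)
    (hY : Y = 2 * (π / 4 - 0.749 + GG h (δ - η) + 0.37 * (π / 2 - δ) + 0.14 * sin η))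
    (hD : 3.13 < D) (hU : 0.7691 < yU) (hE : -0.0001 < sin η + h * sin δ) :
    0.3695 ≤ Y ∨ (0 ≤ Y ∧ D ≤ 6.66846864 ∧ 0 ≤ EE D Y) := by
  have p1 := Real.pi_lt_d20
  have vEt : eEt.eval h δ (η + 1) = η := by
    simp only [eEt, ev_eSub, Ex.eval]; push_cast; ring
  have vDp : eDp.eval h δ (η + 1) = δ - π / 2 := by
    simp only [eDp, ev_eSub, Ex.eval]; push_cast; ring
  have vSd : eSd.eval h δ (η + 1) = sin δ := by
    simp only [eSd, Ex.eval, vDp, cos_sub_pi_div_two]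
  have vCd : eCd.eval h δ (η + 1) = cos δ := by
    simp only [eCd, Ex.eval, vDp, sin_sub_pi_div_two, neg_neg]
  have vSe : eSe.eval h δ (η + 1) = sin η := by simp only [eSe, Ex.eval, vEt]
  have vCe : eCe.eval h δ (η + 1) = cos η := by simp only [eCe, Ex.eval, vEt]
  have vX : eX2.eval h δ (η + 1) = h * sin δ := by simp only [eX2, Ex.eval, vSd]
  have vYU : eYU.eval h δ (η + 1) = yU := by
    simp only [eYU, Ex.eval, ev_eW, ev_eSq, vX, vCd, hy]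
  have vD : eD2.eval h δ (η + 1) = D := by
    simp only [eD2, Ex.eval, ev_eSq, vYU, vCe, hDd]; push_cast; ring
  have vS2 : eS2.eval h δ (η + 1) = sin (δ - η) := by
    simp only [eS2, Ex.eval, ev_eSub, vSd, vCd, vSe, vCe, sin_sub]
  have vC2 : eC2.eval h δ (η + 1) = cos (δ - η) := by
    simp only [eC2, Ex.eval, vSd, vCd, vSe, vCe, cos_sub]
  have vds : (eSub .Y eEt).eval h δ (η + 1) = δ - η := by
    simp only [ev_eSub, Ex.eval, vEt]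
  have vG : (eG .X (eSub .Y eEt) eS2 eC2).eval h δ (η + 1) = GG h (δ - η) := by
    rw [ev_eG _ _ _ _ _ _ _ (by rw [vS2, vds]) (by rw [vC2, vds]), vds]
    rfl
  have vY : eY2.eval h δ (η + 1) = Y := by
    rw [hY, eY2]
    simp only [Ex.eval] at vG ⊢
    rw [vG, ev_eSub, vSe]
    simp only [Ex.eval]
    push_cast
    ring
  have key : ∀ (ps : List Ex) (t : Tr2), chk2 ps [oLo2, oY2, oU2, oE2] t
      ((52428 + 796918) * 524288) ((796918 - 52428) * 524288) ((0 + 3294199) * 524288) ((3294199 - 0) * 524288)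
      ((136314 + 2695700) * 524288) ((2695700 - 136314) * 524288) = true →
      0.3695 ≤ Y ∨ ∀ p ∈ ps, 0 ≤ p.eval h δ (η + 1) := by
    intro ps t ht
    rcases of_box ps _ t 52428 796918 0 3294199 136314 2695700 (by norm_num) (by norm_num) (by norm_num) ht
      (x := h) (y := δ) (z := η + 1) (by norm_num; linarith) (by norm_num; linarith)
      (by norm_num; linarith) (by norm_num; linarith) (by norm_num; linarith) (by norm_num; linarith)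
      with ⟨d, hd, hd'⟩ | h
    · simp only [List.mem_cons, List.not_mem_nil, or_false] at hd
      rcases hd with rfl | rfl | rfl | rfl
      · exfalso
        simp only [oLo2, ev_eSub, Ex.eval, vD] at hd'
        norm_num at hd'
        linarith
      · left
        simp only [oY2, ev_eSub, Ex.eval, vY] at hd'
        norm_num at hd' ⊢
        linarith
      · exfalso
        simp only [oU2, ev_eSub, Ex.eval, vYU] at hd'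
        norm_num at hd'
        linarith
      · exfalso
        simp only [oE2, Ex.eval, vSe, vX] at hd'
        norm_num at hd'
        linarith
    · exact Or.inr h
  rcases key _ _ chkIIy with k1 | k1
  · exact Or.inl k1
  rcases key _ _ chkIIh with k2 | k2
  · exact Or.inl k2
  rcases key _ _ chkIIe with k3 | k3
  · exact Or.inl k3
  right
  refine ⟨?_, ?_, ?_⟩
  · have := k1 eY2 (by simp)
    rwa [vY] at this
  · have := k2 oHi2 (by simp)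
    simp only [oHi2, ev_eSub, Ex.eval, vD] at this
    norm_num at this ⊢
    linarith
  · have := k3 (eE eD2 eY2) (by simp)
    rwa [ev_eE, vD, vY] at this

end Pool.Agent.TE25
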