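import Pool.Agent.TE25.NumDefs

/-!
# TE25/NumP: the density is nonnegative (verified Taylor models)

Proof. `of_box [eP] [] _ _ _ _ _ _ _ _ _ _ chkP` at the point `(h, cos σ + 1, 0)`; `cos (2σ) = 2 u^2 - 1`, `cos (3σ) = 4 u^3 - 3 u`.
-/

set_option autoImplicit false

namespace Pool.Agent.TE25

open Real Pool.Agent.SB19 Pool.Agent.TD25

theorem chkP : chk2 [eP] [] (.Y (.X (.Y (.X .L .L) .L) (.Y (.Y .L .L) (.Y .L .L))) (.X (.Y .L (.X .L .L)) (.Y (.Y .L (.X .L (.X .L .L))) (.X (.Y .L (.X .L (.X .L .L))) (.Y (.X .L (.Y .L .L)) (.X (.Y .L (.X .L .L)) (.Y (.X .L .L) .L)))))))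
    ((0 + 796918) * 524288) ((796918 - 0) * 524288) ((0 + 2097152) * 524288) ((2097152 - 0) * 524288)
    ((0 + 1) * 524288) ((1 - 0) * 524288) = true := by
  decide +kernel

theorem gder_nonneg {h : ℝ} (h0 : 0 ≤ h) (h1 : h ≤ 0.76) (σ : ℝ) :
    0 ≤ gb h + ga1 h * cos σ + 2 * ga2 h * cos (2 * σ) + 3 * ga3 h * cos (3 * σ) := by
  have hc1 := Real.neg_one_le_cos σ
  have hc2 := Real.cos_le_one σ
  have key := of_box [eP] [] _ 0 796918 0 2097152 0 1 (by norm_num) (by norm_num) (by norm_num) chkP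
    (x := h) (y := cos σ + 1) (z := 0) (by norm_num; linarith) (by norm_num; linarith)
    (by norm_num; linarith) (by norm_num; linarith) (by norm_num) (by norm_num)
  rcases key with ⟨d, hd, -⟩ | key
  · exact absurd hd (by simp)
  have h2 := key eP (by simp)
  rw [cos_two_mul, cos_three_mul]
  simp only [eP, ev_eSub, ev_eSq, ev_eB, ev_eA1, ev_eA2, ev_eA3, Ex.eval] at h2
  push_cast at h2
  refine le_of_le_of_eq h2 ?_
  ring

end Pool.Agent.TE25
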