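import Pool.Agent.TE25.Defs
import Pool.Agent.TD25.Arc
import Pool.Agent.TD25.NotCover

/-!
# TE25/PhiSum: unit disks covering the circle of radius `R`

By contradiction `∑ fi < π`; `not_cover` with `p i = fi R (‖b i‖^2)`, `b i = pt ‖b i‖ (β i)` (`exists_pt`) gives a `t` that is in no arc, but `cov t` and `arc_iff`.
-/

set_option autoImplicit false

namespace Pool.Agent.TE25

open Real Pool.Agent.TD25

theorem phi_sum {R : ℝ} (hR : OkR R) {n : ℕ} (b : Fin n → ℂ) (hb1 : ∀ i, R - 1 ≤ ‖b i‖)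
    (hb2 : ∀ i, ‖b i‖ ^ 2 ≤ R ^ 2 - 1) (cov : ∀ t : ℝ, ∃ i, ‖pt R t - b i‖ < 1) :
    π ≤ ∑ i, fi R (‖b i‖ ^ 2) := by
  by_contra hcon
  push Not at hcon
  choose β hβ using fun i => exists_pt (b i)
  obtain ⟨t, ht⟩ := not_cover β (fun i => fi R (‖b i‖ ^ 2)) (fun i => fi_nonneg _ _) hcon
  obtain ⟨i, hi⟩ := cov t
  rw [hβ i, arc_iff hR (hb1 i) (hb2 i)] at hi
  obtain ⟨k, hk⟩ := hi
  exact absurd hk (not_lt.2 (ht i k))

end Pool.Agent.TE25
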