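import Pool.Agent.TE25.LobeD
import Pool.Agent.TE25.Extr

/-!
# TE25/Pick: the disks at the corners

`PU`: the disk `k` has `U` in its shadow, `e` is its first direction on lobe 1 and it is the least one among all disks with `U` in their shadow; `f` is the last
direction of the disk `k` on lobe 2. `PV` is the mirror image: `f'` the last direction of `k` on lobe 1, greatest among all disks with `V` in their shadow; `e'` the first
direction of the disk `k` on lobe 2.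
`pickU`: for every `i` with `Sh (b i) U` let `e i` be the number of `ext_min` on `[θV, θU]`; take `k` with the least `e k` (finite nonempty set,
`Finset.exists_min_image` over the `i` with `Sh (b i) U`). `f`: `ext_max` on `[θU, θV + 2π]` for `k` with `bp h2 α2 θU = bp h1 α1 θU` (`L.eU`).
`pickV`: in the same way; `bp h2 α2 (θV + 2π) = bp h2 α2 θV = bp h1 α1 θV` (`bp_add`, `L.eV`).
-/

set_option autoImplicit false

namespace Pool.Agent.TE25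

open Real Pool.Agent.TD25

structure PU (h1 α1 h2 α2 θV θU : ℝ) {ι : Type} (b : ι → ℂ) (k : ι) (e f : ℝ) : Prop where
  e1 : θV ≤ e
  e2 : e ≤ θU
  f1 : θU ≤ f
  f2 : f ≤ θV + 2 * π
  sU : Sh (b k) (bp h1 α1 θU)
  se : Sh (b k) (bp h1 α1 e)
  sf : Sh (b k) (bp h2 α2 f)
  mn : ∀ (i : ι) (θ : ℝ), θV ≤ θ → θ ≤ θU → Sh (b i) (bp h1 α1 θU) → Sh (b i) (bp h1 α1 θ) → e ≤ θ
  mx : ∀ θ : ℝ, θU ≤ θ → θ ≤ θV + 2 * π → Sh (b k) (bp h2 α2 θ) → θ ≤ f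

structure PV (h1 α1 h2 α2 θV θU : ℝ) {ι : Type} (b : ι → ℂ) (k : ι) (f' e' : ℝ) : Prop where
  f1 : θV ≤ f'
  f2 : f' ≤ θU
  e1 : θU ≤ e'
  e2 : e' ≤ θV + 2 * π
  sV : Sh (b k) (bp h1 α1 θV)
  sf : Sh (b k) (bp h1 α1 f')
  se : Sh (b k) (bp h2 α2 e')
  mx : ∀ (i : ι) (θ : ℝ), θV ≤ θ → θ ≤ θU → Sh (b i) (bp h1 α1 θV) → Sh (b i) (bp h1 α1 θ) → θ ≤ f'
  mn : ∀ θ : ℝ, θU ≤ θ → θ ≤ θV + 2 * π → Sh (b k) (bp h2 α2 θ) → e' ≤ θ

private theorem argmin' {ι : Type} [Finite ι] (P : ι → Prop) (hx : ∃ i, P i) (g : ι → ℝ) :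
    ∃ k, P k ∧ ∀ i, P i → g k ≤ g i := by
  classical
  haveI := Fintype.ofFinite ι
  obtain ⟨i0, hi0⟩ := hx
  obtain ⟨k, hk, hm⟩ := Finset.exists_min_image (Finset.univ.filter P) g ⟨i0, by simp [hi0]⟩
  exact ⟨k, (Finset.mem_filter.1 hk).2, fun i hi => hm i (by simp [hi])⟩

theorem pickU {h1 α1 h2 α2 θV θU : ℝ} (L : Lobe h1 α1 h2 α2 θV θU) {ι : Type} [Finite ι] (b : ι → ℂ)
    (hx : ∃ i, Sh (b i) (bp h1 α1 θU)) : ∃ (k : ι) (e f : ℝ), PU h1 α1 h2 α2 θV θU b k e f := by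
  have v1 := L.v1
  have u1 := L.u1
  have u2 := L.u2
  have v2 := L.v2
  have eU : bp h1 α1 θU = bp h2 α2 θU := by
    unfold bp
    rw [L.eU]
  have H : ∀ i : ι, ∃ e : ℝ, Sh (b i) (bp h1 α1 θU) → (θV ≤ e ∧ e ≤ θU ∧ Sh (b i) (bp h1 α1 e) ∧
      ∀ θ : ℝ, θV ≤ θ → θ ≤ θU → Sh (b i) (bp h1 α1 θ) → e ≤ θ) := by
    intro i
    by_cases hi : Sh (b i) (bp h1 α1 θU)
    · obtain ⟨e, he⟩ := ext_min (p := θV) (q := θU) (by linarith) le_rfl hi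
      exact ⟨e, fun _ => he⟩
    · exact ⟨0, fun h => absurd h hi⟩
  choose e he using H
  obtain ⟨k, hk, hm⟩ := argmin' (fun i => Sh (b i) (bp h1 α1 θU)) hx e
  obtain ⟨a1, a2, a3, a4⟩ := he k hk
  obtain ⟨f, f1, f2, f3, f4⟩ := ext_max (h := h2) (α := α2) (p := θU) (q := θV + 2 * π) (x := θU) (b := b k) le_rfl
    (by linarith) (by rw [← eU]; exact hk)
  refine ⟨k, e k, f, a1, a2, f1, f2, hk, a3, f3, ?_, f4⟩
  intro i θ c1 c2 c3 c4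
  exact (hm i c3).trans ((he i c3).2.2.2 θ c1 c2 c4)

theorem pickV {h1 α1 h2 α2 θV θU : ℝ} (L : Lobe h1 α1 h2 α2 θV θU) {ι : Type} [Finite ι] (b : ι → ℂ)
    (hx : ∃ i, Sh (b i) (bp h1 α1 θV)) : ∃ (k : ι) (f' e' : ℝ), PV h1 α1 h2 α2 θV θU b k f' e' := by
  have v1 := L.v1
  have u1 := L.u1
  have u2 := L.u2
  have v2 := L.v2
  have eV : bp h1 α1 θV = bp h2 α2 (θV + 2 * π) := by
    have h3 := bp_add h2 α2 θV 1
    push_cast at h3
    rw [mul_one] at h3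
    rw [h3]
    unfold bp
    rw [L.eV]
  have H : ∀ i : ι, ∃ f : ℝ, Sh (b i) (bp h1 α1 θV) → (θV ≤ f ∧ f ≤ θU ∧ Sh (b i) (bp h1 α1 f) ∧
      ∀ θ : ℝ, θV ≤ θ → θ ≤ θU → Sh (b i) (bp h1 α1 θ) → θ ≤ f) := by
    intro i
    by_cases hi : Sh (b i) (bp h1 α1 θV)
    · obtain ⟨e, he⟩ := ext_max (p := θV) (q := θU) le_rfl (by linarith) hi
      exact ⟨e, fun _ => he⟩
    · exact ⟨0, fun h => absurd h hi⟩
  choose f hf using H
  obtain ⟨k, hk, hm⟩ := argmin' (fun i => Sh (b i) (bp h1 α1 θV)) hx (fun i => -f i)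
  obtain ⟨a1, a2, a3, a4⟩ := hf k hk
  obtain ⟨e', f1, f2, f3, f4⟩ := ext_min (h := h2) (α := α2) (p := θU) (q := θV + 2 * π) (x := θV + 2 * π) (b := b k)
    (by linarith) le_rfl (by rw [← eV]; exact hk)
  refine ⟨k, f k, e', a1, a2, f1, f2, hk, a3, f3, ?_, f4⟩
  intro i θ c1 c2 c3 c4
  have h5 := hm i c3
  have h6 := (hf i c3).2.2.2 θ c1 c2 c4
  linarith

end Pool.Agent.TE25
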