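import Pool.Agent.TE25.PhiSum

/-!
# TE25/TenA: ten outer disks and two inner disks, first consequences

`cov0`: if `‖x‖ ≤ R - 2` then `‖x - b i‖ ≥ ‖b i‖ - ‖x‖ > 1`.
`sum`: `phi_sum`; a point of norm `R` has distance `≥ R - ‖a j‖ ≥ 1` from `a j`.
`dist`: suppose `‖a1 - a2‖ ≥ 2`, `w = (a1 - a2)/‖a1 - a2‖`, `M = (a1 + a2)/2`, `t = Re (M conj w)`, `x = t w`. `Re ((x - a1) conj w) = -‖a1 - a2‖/2`,
`Re ((x - a2) conj w) = ‖a1 - a2‖/2`, so `‖x - a j‖ ≥ 1`, and by `cov0` `|t| = ‖x‖ > R - 2`. Then `Re (a1 conj w) = t + ‖a1 - a2‖/2 > R - 1` if `t > 0`, or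
`-Re (a2 conj w) = -t + ‖a1 - a2‖/2 > R - 1` if `t < 0`: contradiction to `ha1`, `ha2`.
`c64`: suppose both norms are `≥ 0.64`. There is a unit vector `w` with `Re (a1 conj w) ≤ 0` and `Re (a2 conj w) ≤ 0` (`w = ± i a1 / ‖a1‖`). The point `x = (R - 2) w` has
`‖x - a j‖^2 ≥ (R - 2)^2 + 0.64^2 ≥ 0.7692^2 + 0.64^2 > 1`: contradiction to `cov0`.
`circ`: `a1 = pt h α`, `h ≤ R - 1`: the point `pt h α + pt 1 (α + σ)` has norm `≤ 1 + h ≤ R`, distance 1 from `a1`; `cov`.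
`near`: `0 < h = ‖a1‖`... the point `pt (1 - h) (α + π)` has distance 1 from `a1 = pt h α` (`pt (1 - h) (α + π) = pt h α + pt 1 (α + π)`); if its norm `1 - h` is at most
`R - 2` it is in the open disk about `a2`.
-/

set_option autoImplicit false

namespace Pool.Agent.TE25

open Real Pool.Agent.TD25

/-- Ten outer disks and two inner disks cover the disk of radius `R`. -/
structure Ten (R : ℝ) (b : Fin 10 → ℂ) (a1 a2 : ℂ) : Prop where
  hR : OkR R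
  hb1 : ∀ i, R - 1 < ‖b i‖
  hb2 : ∀ i, ‖b i‖ ^ 2 ≤ R ^ 2 - 1
  ha1 : ‖a1‖ ≤ R - 1
  ha2 : ‖a2‖ ≤ R - 1
  cov : ∀ x : ℂ, ‖x‖ ≤ R → (∃ i, ‖x - b i‖ < 1) ∨ ‖x - a1‖ < 1 ∨ ‖x - a2‖ < 1

theorem Ten.symm {R : ℝ} {b : Fin 10 → ℂ} {a1 a2 : ℂ} (T : Ten R b a1 a2) : Ten R b a2 a1 :=
  ⟨T.hR, T.hb1, T.hb2, T.ha2, T.ha1, fun x hx => by rcases T.cov x hx with h | h | h <;> tauto⟩

theorem Ten.cov0 {R : ℝ} {b : Fin 10 → ℂ} {a1 a2 : ℂ} (T : Ten R b a1 a2) {x : ℂ} (hx : ‖x‖ ≤ R - 2) :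
    ‖x - a1‖ < 1 ∨ ‖x - a2‖ < 1 := by
  rcases T.cov x (by linarith) with ⟨i, hi⟩ | h
  · exfalso
    have h1 := norm_sub_le x (x - b i)
    rw [sub_sub_cancel] at h1
    have h2 := T.hb1 i
    linarith
  · exact h

theorem Ten.sum {R : ℝ} {b : Fin 10 → ℂ} {a1 a2 : ℂ} (T : Ten R b a1 a2) : π ≤ ∑ i, fi R (‖b i‖ ^ 2) := by
  refine phi_sum T.hR b (fun i => (T.hb1 i).le) T.hb2 fun t => ?_
  have hR := T.hR.1
  have hn : ‖pt R t‖ = R := norm_pt (by linarith)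
  rcases T.cov (pt R t) (by rw [hn]) with h | h | h
  · exact h
  · exfalso
    have h1 := norm_sub_norm_le (pt R t) a1
    rw [hn] at h1
    linarith [T.ha1]
  · exfalso
    have h1 := norm_sub_norm_le (pt R t) a2
    rw [hn] at h1
    linarith [T.ha2]

private theorem ip_add (x y v : ℂ) : ((x - y) * (starRingEnd ℂ) v).re =
    (x * (starRingEnd ℂ) v).re - (y * (starRingEnd ℂ) v).re := by
  rw [sub_mul, Complex.sub_re]

private theorem ip_self (w : ℂ) : (w * (starRingEnd ℂ) w).re = ‖w‖ ^ 2 := by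
  rw [Complex.mul_conj, Complex.normSq_eq_norm_sq]
  norm_cast

private theorem ip_le (x w : ℂ) : |(x * (starRingEnd ℂ) w).re| ≤ ‖x‖ * ‖w‖ := by
  have := Complex.abs_re_le_norm (x * (starRingEnd ℂ) w)
  rwa [norm_mul, Complex.norm_conj] at this

theorem Ten.dist {R : ℝ} {b : Fin 10 → ℂ} {a1 a2 : ℂ} (T : Ten R b a1 a2) : ‖a1 - a2‖ < 2 := by
  by_contra hc
  push Not at hc
  set v : ℂ := a1 - a2 with hv
  set A1 : ℝ := (a1 * (starRingEnd ℂ) v).re with hA1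
  set A2 : ℝ := (a2 * (starRingEnd ℂ) v).re with hA2
  have hD : A1 - A2 = ‖v‖ ^ 2 := by
    rw [← ip_self v, hA1, hA2, ← ip_add]
  have hDpos : 0 < ‖v‖ := by linarith
  set s : ℝ := (A1 + A2) / 2 / ‖v‖ ^ 2 with hs
  have hsD : s * ‖v‖ ^ 2 = (A1 + A2) / 2 := by
    rw [hs]
    field_simp
  set x : ℂ := (s : ℂ) * v with hx
  have hxv : (x * (starRingEnd ℂ) v).re = s * ‖v‖ ^ 2 := by
    rw [hx, mul_assoc, Complex.re_ofReal_mul, ip_self]
  have hxn : ‖x‖ = |s| * ‖v‖ := by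
    rw [hx, norm_mul, Complex.norm_real, Real.norm_eq_abs]
  have h1 : 1 ≤ ‖x - a1‖ := by
    have e := ip_le (x - a1) v
    rw [ip_add, hxv, ← hA1, hsD] at e
    have e2 : (A1 + A2) / 2 - A1 = -(‖v‖ ^ 2 / 2) := by linarith
    rw [e2, abs_neg, abs_of_nonneg (by positivity)] at e
    have e3 : ‖v‖ / 2 ≤ ‖x - a1‖ := by
      by_contra hc'
      push Not at hc'
      nlinarith
    linarith
  have h2 : 1 ≤ ‖x - a2‖ := by
    have e := ip_le (x - a2) v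
    rw [ip_add, hxv, ← hA2, hsD] at e
    have e2 : (A1 + A2) / 2 - A2 = ‖v‖ ^ 2 / 2 := by linarith
    rw [e2, abs_of_nonneg (by positivity)] at e
    have e3 : ‖v‖ / 2 ≤ ‖x - a2‖ := by
      by_contra hc'
      push Not at hc'
      nlinarith
    linarith
  have h3 : R - 2 < ‖x‖ := by
    by_contra hc'
    push Not at hc'
    rcases T.cov0 hc' with h | h <;> linarith
  have i1 := (abs_le.1 (ip_le a1 v)).2
  have i2 := (abs_le.1 (ip_le a2 v)).1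
  rw [← hA1] at i1
  rw [← hA2] at i2
  have ha1 := T.ha1
  have ha2 := T.ha2
  rcases le_total 0 s with hs0 | hs0
  · rw [hxn, abs_of_nonneg hs0] at h3
    have e1 : A1 = s * ‖v‖ ^ 2 + ‖v‖ ^ 2 / 2 := by linarith
    have e2 : s * ‖v‖ + ‖v‖ / 2 ≤ ‖a1‖ := by
      by_contra hc'
      push Not at hc'
      nlinarith
    linarith
  · rw [hxn, abs_of_nonpos hs0] at h3
    have e1 : A2 = s * ‖v‖ ^ 2 - ‖v‖ ^ 2 / 2 := by linarith
    have e2 : -s * ‖v‖ + ‖v‖ / 2 ≤ ‖a2‖ := by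
      by_contra hc'
      push Not at hc'
      nlinarith
    linarith

private theorem sub_sq (x a : ℂ) : ‖x - a‖ ^ 2 = ‖x‖ ^ 2 + ‖a‖ ^ 2 - 2 * (a * (starRingEnd ℂ) x).re := by
  rw [← Complex.normSq_eq_norm_sq, ← Complex.normSq_eq_norm_sq, ← Complex.normSq_eq_norm_sq,
    Complex.normSq_sub]
  have : (x * (starRingEnd ℂ) a).re = (a * (starRingEnd ℂ) x).re := by
    simp [Complex.mul_re]
    ring
  rw [this]

theorem Ten.c64 {R : ℝ} {b : Fin 10 → ℂ} {a1 a2 : ℂ} (T : Ten R b a1 a2) : ‖a1‖ < 0.64 ∨ ‖a2‖ < 0.64 := by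
  by_contra hc
  push Not at hc
  obtain ⟨h1, h2⟩ := hc
  have hR := T.hR.1
  have hp : 0 < ‖a1‖ := lt_of_lt_of_le (by norm_num) h1
  have key : ∀ r : ℝ, |r| * ‖a1‖ = R - 2 → r * (a2 * (starRingEnd ℂ) (Complex.I * a1)).re ≤ 0 → False := by
    intro r hr hneg
    set x : ℂ := (r : ℂ) * (Complex.I * a1) with hx
    have hxn : ‖x‖ = R - 2 := by
      rw [hx, norm_mul, norm_mul, Complex.norm_real, Complex.norm_I, one_mul, Real.norm_eq_abs, hr]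
    have e1 : (a1 * (starRingEnd ℂ) x).re = 0 := by
      rw [hx]
      simp [Complex.mul_re]
      ring
    have e2 : (a2 * (starRingEnd ℂ) x).re = r * (a2 * (starRingEnd ℂ) (Complex.I * a1)).re := by
      rw [hx, map_mul, Complex.conj_ofReal, mul_left_comm, Complex.re_ofReal_mul]
    have d1 : 1 ≤ ‖x - a1‖ := by
      have := sub_sq x a1
      rw [hxn, e1] at this
      nlinarith [norm_nonneg (x - a1)]
    have d2 : 1 ≤ ‖x - a2‖ := by
      have := sub_sq x a2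
      rw [hxn, e2] at this
      nlinarith [norm_nonneg (x - a2)]
    rcases T.cov0 (x := x) hxn.le with h | h <;> linarith
  have hr : |(R - 2) / ‖a1‖| * ‖a1‖ = R - 2 := by
    rw [abs_div, abs_of_nonneg (by linarith : (0 : ℝ) ≤ R - 2), abs_of_pos hp]
    field_simp
  have hq : 0 ≤ (R - 2) / ‖a1‖ := div_nonneg (by linarith) hp.le
  rcases le_total (a2 * (starRingEnd ℂ) (Complex.I * a1)).re 0 with h | h
  · exact key _ hr (mul_nonpos_of_nonneg_of_nonpos hq h)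
  · exact key (-((R - 2) / ‖a1‖)) (by rw [abs_neg, hr]) (mul_nonpos_of_nonpos_of_nonneg (by linarith) h)

theorem Ten.circ {R : ℝ} {b : Fin 10 → ℂ} {a2 : ℂ} {h α : ℝ} (h0 : 0 ≤ h) (T : Ten R b (pt h α) a2) (σ : ℝ) :
    (∃ i, ‖pt h α + pt 1 (α + σ) - b i‖ < 1) ∨ ‖pt h α + pt 1 (α + σ) - a2‖ < 1 := by
  have e1 : ‖pt h α‖ = h := norm_pt h0
  have e2 : ‖pt 1 (α + σ)‖ = 1 := norm_pt (by norm_num)
  have h1 := T.ha1
  have h2 := norm_add_le (pt h α) (pt 1 (α + σ))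
  rw [e1] at h1 h2
  rw [e2] at h2
  rcases T.cov (pt h α + pt 1 (α + σ)) (by linarith) with h3 | h3 | h3
  · exact Or.inl h3
  · rw [add_sub_cancel_left, e2] at h3
    exact absurd h3 (lt_irrefl _)
  · exact Or.inr h3

theorem Ten.near {R : ℝ} {b : Fin 10 → ℂ} {a2 : ℂ} {h α : ℝ} (h0 : 0 ≤ h) (h1 : h ≤ 1) (T : Ten R b (pt h α) a2)
    (h2 : 3 - R ≤ h) : ‖pt (1 - h) (α + π) - a2‖ < 1 := by
  have e1 : ‖pt (1 - h) (α + π)‖ = 1 - h := norm_pt (by linarith)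
  rcases T.cov0 (x := pt (1 - h) (α + π)) (by rw [e1]; linarith) with h3 | h3
  · exfalso
    have e2 := norm_pt_sub_sq (1 - h) (α + π) h α
    rw [add_sub_cancel_left, cos_pi] at e2
    have e3 : ‖pt (1 - h) (α + π) - pt h α‖ ^ 2 = 1 := by rw [e2]; ring
    nlinarith [norm_nonneg (pt (1 - h) (α + π) - pt h α)]
  · exact h3

end Pool.Agent.TE25
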