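import Pool.Agent.TE25.TenSL

/-!
# TE25/TenB: one of the inner centres is far from 0

Let `a1 = pt h α` and `‖a2‖ > 0.76`. By `T.c64`, `h < 0.64`. `polar2` (`T.dist`): `a2 = pt h α + pt (2 cos τ) (α + s)`. `D = ‖a2‖^2 = h^2 + 4 cos^2 τ + 4 h cos τ cos s` (`norm_sq_b`),
`0.5776 < D ≤ (R - 1)^2 < 3.131`. If `h ≤ 0.23088`: `numSc1` with `|s|`, `ten_sl`.
Otherwise `h > 0.23088 > 3 - R`. The point `x = pt (R - 2) (α + π)` is in the open disk about `a2` by `T.cov0`: `‖x - pt h α‖ = R - 2 + h ≥ 1`. So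
`1 > ‖a2 - x‖^2 = D + 2 (R - 2) X + (R - 2)^2` with `X = Re (a2 conj (pt 1 α)) = h + 2 cos τ cos s`, `|X| ≤ ‖a2‖ ≤ 1.77`; as `0.7692 ≤ R - 2 ≤ 0.7694` we get `hA` of `numSc2`.
`hU`, `hV`: the points `P = pt h α + pt 1 (α + s ± τ)` have distance 1 from `pt h α` and from `a2` (`2 cos τ e^{is} - e^{i(s ± τ)} = e^{i(s ∓ τ)}`), so by `T.cov0` `‖P‖ > R - 2`, and
`‖P‖^2 = 1 + h^2 + 2 h cos (s ± τ) > 0.7692^2 > 0.5915`. `numSc2` with `|s|` (for `s < 0` the conditions `hU`, `hV` are exchanged), `ten_sl`.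
-/

set_option autoImplicit false

namespace Pool.Agent.TE25

open Real Pool.Agent.TD25

private theorem norm3 (p q r α s t : ℝ) : ‖pt p α + pt q (α + s) + pt r (α + t)‖ ^ 2 =
    p ^ 2 + q ^ 2 + r ^ 2 + 2 * p * q * cos s + 2 * p * r * cos t + 2 * q * r * cos (s - t) := by
  have hre : ∀ d b : ℝ, (pt d b).re = d * cos b := by
    intro d b
    rw [pt, Complex.re_ofReal_mul, Complex.exp_ofReal_mul_I_re]
  have him : ∀ d b : ℝ, (pt d b).im = d * sin b := by
    intro d b
    rw [pt, Complex.im_ofReal_mul, Complex.exp_ofReal_mul_I_im]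
  rw [← Complex.normSq_eq_norm_sq, Complex.normSq_apply]
  simp only [Complex.add_re, Complex.add_im, hre, him, cos_add, sin_add, cos_sub]
  have h1 := sin_sq_add_cos_sq α
  have h2 := sin_sq_add_cos_sq s
  have h3 := sin_sq_add_cos_sq t
  linear_combination ((p + q * cos s + r * cos t) ^ 2 + (q * sin s + r * sin t) ^ 2) * h1 +
    q ^ 2 * h2 + r ^ 2 * h3

private theorem pt_zero (b : ℝ) : pt 0 b = 0 := by simp [pt]

private theorem pt_neg (r b : ℝ) : pt (-r) b = -pt r b := by
  unfold pt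
  push_cast
  ring

private theorem pt_pi (r b : ℝ) : pt r (b + π) = -pt r b := by
  unfold pt
  push_cast
  rw [add_mul, Complex.exp_add, Complex.exp_pi_mul_I]
  ring

theorem ten_big {R : ℝ} {b : Fin 10 → ℂ} {a2 : ℂ} {h α : ℝ} (T : Ten R b (pt h α) a2) (h0 : 0 ≤ h)
    (h1 : 0.76 < ‖a2‖) : False := by
  obtain ⟨hR1, hR2⟩ := T.hR
  have hpi := Real.pi_pos
  have e1 : ‖pt h α‖ = h := norm_pt h0
  have h64 : h < 0.64 := by
    rcases T.c64 with h | h
    · rwa [e1] at h
    · linarith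
  have hd : ‖a2 - pt h α‖ ≤ 2 := by
    rw [norm_sub_rev]
    exact T.dist.le
  obtain ⟨s, τ, s0, s1, t0, t1, ha, -⟩ := polar2 hd
  have hD : ‖a2‖ ^ 2 = h ^ 2 + 4 * cos τ ^ 2 + 4 * h * cos τ * cos s := by
    have := norm3 h (2 * cos τ) 0 α s 0
    rw [pt_zero, add_zero, ← ha] at this
    rw [this]
    ring
  have ha2 := T.ha2
  have hn0 := norm_nonneg a2
  have hD1 : 0.5775 < ‖a2‖ ^ 2 := by nlinarith
  have hD2 : ‖a2‖ ^ 2 < 3.131 := by nlinarith
  rcases le_or_gt h 0.23088 with hh | hh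
  · have hn := numSc1 h0 hh t0 t1 (abs_nonneg s) (abs_le.2 ⟨s0, s1⟩)
      (by rw [cos_abs]; exact hD) hD1 hD2
    rw [cos_abs] at hn
    exact ten_sl T h0 (by linarith) t0 t1 ha hn
  · -- the point of norm `R - 2` in the direction opposite to `a1`
    have hx1 : ‖pt (R - 2) (α + π)‖ = R - 2 := norm_pt (by linarith)
    have hx2 : ‖pt (R - 2) (α + π) - a2‖ < 1 := by
      rcases T.cov0 hx1.le with h3 | h3
      · exfalso
        have e2 := norm_pt_sub_sq (R - 2) (α + π) h α
        rw [add_sub_cancel_left, cos_pi] at e2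
        nlinarith [norm_nonneg (pt (R - 2) (α + π) - pt h α)]
      · exact h3
    have hx3 : ‖pt (R - 2) (α + π) - a2‖ ^ 2 = (R - 2) ^ 2 + ‖a2‖ ^ 2 +
        2 * (R - 2) * (h + 2 * cos τ * cos s) := by
      have := norm3 (h + (R - 2)) (2 * cos τ) 0 α s 0
      rw [pt_zero, add_zero] at this
      have e : pt (R - 2) (α + π) - a2 = -(pt (h + (R - 2)) α + pt (2 * cos τ) (α + s)) := by
        rw [pt_pi, ha]
        unfold pt
        push_cast
        ring
      rw [e, norm_neg, this, hD]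
      ring
    have hX : (h + 2 * cos τ * cos s) ^ 2 ≤ ‖a2‖ ^ 2 := by
      rw [hD]
      have h2 := sin_sq_add_cos_sq s
      have : h ^ 2 + 4 * cos τ ^ 2 + 4 * h * cos τ * cos s - (h + 2 * cos τ * cos s) ^ 2 =
          (2 * cos τ * sin s) ^ 2 := by
        linear_combination (-4 * cos τ ^ 2) * h2
      nlinarith [sq_nonneg (2 * cos τ * sin s)]
    set X : ℝ := h + 2 * cos τ * cos s with hXd
    have hX1 : -1.77 ≤ X := by
      have : X ^ 2 ≤ 1.77 ^ 2 := by
        norm_num at hD2 ⊢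
        linarith
      exact (abs_le_of_sq_le_sq' this (by norm_num)).1
    have hA : ‖a2‖ ^ 2 + 2 * 0.7692 * X + 0.59166864 < 1.001 := by
      have hlt : ‖pt (R - 2) (α + π) - a2‖ ^ 2 < 1 := by
        have := norm_nonneg (pt (R - 2) (α + π) - a2)
        rw [sq_lt_one_iff₀ this]
        exact hx2
      rw [hx3] at hlt
      have p1 := mul_nonneg (by linarith : (0 : ℝ) ≤ R - 2 - 0.7692) (by linarith : (0 : ℝ) ≤ X + 1.77)
      have p2 := mul_nonneg (by linarith : (0 : ℝ) ≤ R - 2 - 0.7692)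
        (by linarith : (0 : ℝ) ≤ R - 2 + 0.7692)
      linarith
    have hP : ∀ u : ℝ, cos (u - s) = cos τ → 0.5915 < 1 + h ^ 2 + 2 * h * cos u := by
      intro u hu
      by_contra hc
      push Not at hc
      have n1 : ‖pt h α + pt 1 (α + u)‖ ^ 2 = 1 + h ^ 2 + 2 * h * cos u := by
        have := norm3 h 1 0 α u 0
        rw [pt_zero, add_zero] at this
        rw [this]
        ring
      have n2 : ‖pt h α + pt 1 (α + u)‖ ≤ R - 2 := by
        have h5 : ‖pt h α + pt 1 (α + u)‖ ^ 2 ≤ 0.7692 ^ 2 := by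
          rw [n1]
          norm_num at hc ⊢
          linarith
        have := (abs_le_of_sq_le_sq' h5 (by norm_num)).2
        linarith
      rcases T.cov0 n2 with h3 | h3
      · rw [add_sub_cancel_left, norm_pt (by norm_num)] at h3
        exact lt_irrefl _ h3
      · have n3 : pt h α + pt 1 (α + u) - a2 = pt 1 (α + u) - pt (2 * cos τ) (α + s) := by
          rw [ha]
          ring
        have n4 := norm_pt_sub_sq 1 (α + u) (2 * cos τ) (α + s)
        rw [← n3, show α + u - (α + s) = u - s by ring, hu] at n4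
        have h5 : ‖pt h α + pt 1 (α + u) - a2‖ ^ 2 = 1 := by
          rw [n4]
          ring
        have h6 : ‖pt h α + pt 1 (α + u) - a2‖ ^ 2 < 1 := by
          rw [sq_lt_one_iff₀ (norm_nonneg _)]
          exact h3
        linarith
    have hU : 0.5915 < 1 + h ^ 2 + 2 * h * (cos s * cos τ + sin s * sin τ) := by
      have := hP (s - τ) (by rw [show s - τ - s = -τ by ring, cos_neg])
      rwa [cos_sub] at this
    have hV : 0.5915 < 1 + h ^ 2 + 2 * h * (cos s * cos τ - sin s * sin τ) := by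
      have := hP (s + τ) (by rw [show s + τ - s = τ by ring])
      rwa [cos_add] at this
    have hn : 3.741 - π ≤ 2 * π * gb h - 2 * MM h τ (cos s) := by
      rcases le_total 0 s with hs | hs
      · exact numSc2 (by linarith) (by linarith) t0 t1 hs s1 hD hD1 hD2 hA hU hV
      · have h2 : -s ≤ π := by linarith
        have := numSc2 (h := h) (τ := τ) (s := -s) (D := ‖a2‖ ^ 2) (by linarith) (by linarith) t0 t1
          (by linarith) h2 (by rw [cos_neg]; exact hD) hD1 hD2 (by rw [cos_neg]; exact hA)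
          (by rw [cos_neg, sin_neg]; linarith) (by rw [cos_neg, sin_neg]; linarith)
        rwa [cos_neg] at this
    exact ten_sl T h0 (by linarith) t0 t1 ha hn

end Pool.Agent.TE25
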