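import Pool.Agent.TE25.TenSL

/-!
# TE25/TenD: the point of the first inner circle nearest to 0 is in the second inner disk

Suppose `‖pt (1 - h) (α + π) - a2‖ ≥ 1`. `T.near`: `h < 3 - R ≤ 0.2308`. `polar2` (`T.dist`): `a2 = pt h α + pt (2 cos τ) (α + s)`. If `τ = π/2` take `s = 0` instead of `s`
(`pt 0 _ = 0`). In both cases `|s| + τ ≤ π`: if `τ < π/2` and `|s| + τ > π` then `σ = π` (if `s ≥ 0`) or `σ = -π` (if `s < 0`) satisfies `|σ - s| < τ`, and
`‖pt h α + pt 1 (α + σ) - a2‖^2 = 1 + 4 cos^2 τ - 4 cos τ cos (σ - s) < 1` (`norm_pt_sub_sq`), where `pt h α + pt 1 (α ± π) = pt (1 - h) (α + π)`: contradiction.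
`numSa` with `|s|`, `ten_sl`.
-/

set_option autoImplicit false

namespace Pool.Agent.TE25

open Real Pool.Agent.TD25

theorem ten_k {R : ℝ} {b : Fin 10 → ℂ} {a2 : ℂ} {h α : ℝ} (T : Ten R b (pt h α) a2) (h0 : 0.05 ≤ h)
    (h1 : h ≤ 0.76) : ‖pt (1 - h) (α + π) - a2‖ < 1 := by
  by_contra hc
  push Not at hc
  have hR := T.hR.1
  have hh0 : 0 ≤ h := by linarith
  have hpi := Real.pi_pos
  have hsmall : h < 3 - R := by
    by_contra hc'
    push Not at hc'
    have := T.near hh0 (by linarith) hc'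
    linarith
  have hd : ‖a2 - pt h α‖ ≤ 2 := by
    rw [norm_sub_rev]
    exact T.dist.le
  obtain ⟨s, τ, s0, s1, t0, t1, ha, -⟩ := polar2 hd
  rcases le_or_gt (|s| + τ) π with hs | hs
  · have hn := numSa h0 (by linarith) t0 t1 (abs_nonneg s) hs
    rw [cos_abs] at hn
    exact ten_sl T hh0 h1 t0 t1 ha hn
  · rcases eq_or_lt_of_le t1 with ht | ht
    · have hn := numSa h0 (by linarith) t0 t1 le_rfl (by linarith : (0 : ℝ) + τ ≤ π)
      refine ten_sl T hh0 h1 t0 t1 (s := 0) ?_ hn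
      rw [ha, ht, cos_pi_div_two, mul_zero]
      simp [pt]
    · have hcp : 0 < cos τ := cos_pos_of_mem_Ioo ⟨by linarith, ht⟩
      have habs : |s| ≤ π := abs_le.2 ⟨s0, s1⟩
      have hcos : cos τ < cos (π - s) := by
        rw [cos_pi_sub, ← cos_abs s, ← cos_pi_sub]
        exact cos_lt_cos_of_nonneg_of_le_pi (by linarith) (by linarith) (by linarith)
      have e1 : pt (1 - h) (α + π) - a2 = pt 1 (α + π) - pt (2 * cos τ) (α + s) := by
        have : pt (1 - h) (α + π) = pt h α + pt 1 (α + π) := by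
          unfold pt
          push_cast
          rw [add_mul, Complex.exp_add, Complex.exp_pi_mul_I]
          ring
        rw [this, ha]
        ring
      have e2 := norm_pt_sub_sq 1 (α + π) (2 * cos τ) (α + s)
      rw [← e1, show α + π - (α + s) = π - s by ring] at e2
      nlinarith [mul_pos hcp (sub_pos.2 hcos)]

end Pool.Agent.TE25
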