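import Pool.Agent.TE25.NoBoth
import Pool.Agent.TE25.CorSum
import Pool.Agent.TE25.LobeM

/-!
# TE25/TwoLobe: ten disks cannot cover both lobes and the circle of radius `R`

`pickU`, `pickV` (`cov1` for `θ = θU`, `θ = θV` gives a disk that contains the corner; `Sh_of_ball`, `norm_sub_rev` not needed: `Sh b x` from `‖x - b‖ ≤ 1`).
`kU ≠ kV` by `chord`. `H1` = the `i` such that `‖bp h1 α1 θ - b i‖ < 1` for some `f' < θ < e`, `H2` = the `i` such that `‖bp h2 α2 θ - b i‖ < 1` for some `f < θ < e'`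
(`Finset.univ.filter`, classical). They are disjoint (`no_both`, `Sh_of_ball`), and do not contain `kU` (`P.mn`, `P.mx`), `kV` (`Q.mx`, `Q.mn`).
`lobe_mass` for circle 1 (`f := f'`, `e := e`, `s := H1`, `hUV` = `chord`) and for circle 2 (`θV := θU`, `θU := θV + 2π`, `f := f`, `e := e'`, `s := H2`; `chord` with
`bp h2 α2 θU = bp h1 α1 θU`, `bp h2 α2 (θV + 2π) = bp h1 α1 θV`):
`GG h1 (e) - GG h1 (f') + GG h2 (e') - GG h2 (f) ≤ ∑_{H1} + ∑_{H2} ≤ ∑_{i ≠ kU, kV} (0.374 - fi R (‖b i‖^2))` (terms are nonnegative: `fi_le`, `phm_hi`), which is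
`8 * 0.374 - ∑_{i ≠ kU, kV} fi R (‖b i‖^2)`. Add `cor_sumU` and `cor_sumV`: `∑_i fi R (‖b i‖^2) ≤ π - 2.996 + 0.74 π - 0.74 π + 2.992 < π`.
-/

set_option autoImplicit false

namespace Pool.Agent.TE25

open Real Pool.Agent.TD25

theorem two_lobe {R h1 α1 h2 α2 θV θU : ℝ} (hR : OkR R) (a0 : 0.05 ≤ h1) (a1 : h1 ≤ 0.76) (b0 : 0.05 ≤ h2)
    (b1 : h2 ≤ 0.76) (hs : h1 + h2 ≤ 1.5) (L : Lobe h1 α1 h2 α2 θV θU) (b : Fin 10 → ℂ)
    (hb1 : ∀ i, R - 1 ≤ ‖b i‖) (hb2 : ∀ i, ‖b i‖ ^ 2 ≤ R ^ 2 - 1) (hsum : π ≤ ∑ i, fi R (‖b i‖ ^ 2))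
    (cov1 : ∀ θ : ℝ, θV ≤ θ → θ ≤ θU → ∃ i, ‖bp h1 α1 θ - b i‖ < 1)
    (cov2 : ∀ θ : ℝ, θU ≤ θ → θ ≤ θV + 2 * π → ∃ i, ‖bp h2 α2 θ - b i‖ < 1) : False := by
  classical
  have a0' : (0 : ℝ) ≤ h1 := by linarith
  have a1' : h1 < 1 := by linarith
  have b0' : (0 : ℝ) ≤ h2 := by linarith
  have b1' : h2 < 1 := by linarith
  have a0'' : (0 : ℝ) < h1 := by linarith
  have b0'' : (0 : ℝ) < h2 := by linarith
  have hRlo := hR.1
  have hb0 : ∀ i, 1 < ‖b i‖ := fun i => by linarith [hb1 i]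
  have hVU : θV ≤ θU := by linarith [L.v1, L.u1]
  have hU2 : θU ≤ θV + 2 * π := by linarith [L.u2, L.v2]
  -- the corners
  obtain ⟨iU, hiU⟩ := cov1 θU hVU le_rfl
  obtain ⟨iV, hiV⟩ := cov1 θV le_rfl hVU
  obtain ⟨kU, e, f, P⟩ := pickU L b ⟨iU, Sh_of_ball hiU.le⟩
  obtain ⟨kV, f', e', Q⟩ := pickV L b ⟨iV, Sh_of_ball hiV.le⟩
  have hUV : ∀ i, ¬ (Sh (b i) (bp h1 α1 θU) ∧ Sh (b i) (bp h1 α1 θV)) :=
    fun i => chord hR a0'' a1 b0'' b1 hs L (hb1 i)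
  have hne : kU ≠ kV := by
    intro h
    have h1 := P.sU
    rw [h] at h1
    exact hUV kV ⟨h1, Q.sV⟩
  have eU : bp h2 α2 θU = bp h1 α1 θU := by
    unfold bp
    rw [L.eU]
  have eV : bp h2 α2 (θV + 2 * π) = bp h1 α1 θV := by
    have h1 := bp_add h2 α2 θV 1
    rw [Int.cast_one, mul_one] at h1
    rw [h1]
    unfold bp
    rw [L.eV]
  set H1 : Finset (Fin 10) := Finset.univ.filter
    (fun i => ∃ θ, f' < θ ∧ θ < e ∧ ‖bp h1 α1 θ - b i‖ < 1) with hH1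
  set H2 : Finset (Fin 10) := Finset.univ.filter
    (fun i => ∃ θ, f < θ ∧ θ < e' ∧ ‖bp h2 α2 θ - b i‖ < 1) with hH2
  have hdisj : Disjoint H1 H2 := by
    rw [Finset.disjoint_left]
    intro i hi1 hi2
    obtain ⟨-, θ1, p1, p2, p3⟩ := Finset.mem_filter.1 hi1
    obtain ⟨-, θ2, q1, q2, q3⟩ := Finset.mem_filter.1 hi2
    exact no_both a0' a1' b0' b1' L hb0 P Q i p1 p2 q1 q2 (Sh_of_ball p3.le) (Sh_of_ball q3.le)
  have hU1 : kU ∉ H1 := by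
    intro hi
    obtain ⟨-, θ, p1, p2, p3⟩ := Finset.mem_filter.1 hi
    have := P.mn kU θ (by linarith [Q.f1]) (by linarith [P.e2]) P.sU (Sh_of_ball p3.le)
    linarith
  have hV1 : kV ∉ H1 := by
    intro hi
    obtain ⟨-, θ, p1, p2, p3⟩ := Finset.mem_filter.1 hi
    have := Q.mx kV θ (by linarith [Q.f1]) (by linarith [P.e2]) Q.sV (Sh_of_ball p3.le)
    linarith
  have hU2' : kU ∉ H2 := by
    intro hi
    obtain ⟨-, θ, p1, p2, p3⟩ := Finset.mem_filter.1 hi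
    have := P.mx θ (by linarith [P.f1]) (by linarith [Q.e2]) (Sh_of_ball p3.le)
    linarith
  have hV2 : kV ∉ H2 := by
    intro hi
    obtain ⟨-, θ, p1, p2, p3⟩ := Finset.mem_filter.1 hi
    have := Q.mn θ (by linarith [P.f1]) (by linarith [Q.e2]) (Sh_of_ball p3.le)
    linarith
  have m1 := lobe_mass hR a0' a1 b hb1 Q.f1 P.e2 hU2 hUV H1 (by
    intro θ t1 t2
    obtain ⟨i, hi⟩ := cov1 θ (by linarith [Q.f1]) (by linarith [P.e2])
    exact ⟨i, Finset.mem_filter.2 ⟨Finset.mem_univ _, θ, t1, t2, hi⟩, hi⟩)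
  have m2 := lobe_mass (θV := θU) (θU := θV + 2 * π) (f := f) (e := e') hR b0' b1 b hb1 P.f1 Q.e2
    (by linarith) (by
      intro i hi
      rw [eU, eV] at hi
      exact hUV i ⟨hi.2, hi.1⟩) H2 (by
    intro θ t1 t2
    obtain ⟨i, hi⟩ := cov2 θ (by linarith [P.f1]) (by linarith [Q.e2])
    exact ⟨i, Finset.mem_filter.2 ⟨Finset.mem_univ _, θ, t1, t2, hi⟩, hi⟩)
  have c1 := cor_sumU hR a0 a1 b0 b1 hs L hb1 hb2 P
  have c2 := cor_sumV hR a0 a1 b0 b1 hs L hb1 hb2 Q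
  have tnn : ∀ i, 0 ≤ 0.374 - fi R (‖b i‖ ^ 2) := by
    intro i
    have h1 : 0 < ‖b i‖ ^ 2 := by
      have := hb0 i
      positivity
    have h2 := fi_le hR h1
    have h3 := phm_hi hR
    linarith
  have hsub : H1 ∪ H2 ⊆ (Finset.univ.erase kU).erase kV := by
    intro i hi
    rw [Finset.mem_erase, Finset.mem_erase]
    refine ⟨?_, ?_, Finset.mem_univ _⟩
    · rintro rfl
      rcases Finset.mem_union.1 hi with h | h
      · exact hV1 h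
      · exact hV2 h
    · rintro rfl
      rcases Finset.mem_union.1 hi with h | h
      · exact hU1 h
      · exact hU2' h
  have s1 : ∑ i ∈ H1, (0.374 - fi R (‖b i‖ ^ 2)) + ∑ i ∈ H2, (0.374 - fi R (‖b i‖ ^ 2)) ≤
      ∑ i ∈ (Finset.univ.erase kU).erase kV, (0.374 - fi R (‖b i‖ ^ 2)) := by
    rw [← Finset.sum_union hdisj]
    exact Finset.sum_le_sum_of_subset_of_nonneg hsub (fun i _ _ => tnn i)
  have s2 := Finset.sum_erase_add (Finset.univ.erase kU) (fun i => (0.374 : ℝ) - fi R (‖b i‖ ^ 2))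
    (Finset.mem_erase.2 ⟨hne.symm, Finset.mem_univ kV⟩)
  have s3 := Finset.sum_erase_add Finset.univ (fun i => (0.374 : ℝ) - fi R (‖b i‖ ^ 2))
    (Finset.mem_univ kU)
  have s4 : ∑ i : Fin 10, ((0.374 : ℝ) - fi R (‖b i‖ ^ 2)) = 3.74 - ∑ i, fi R (‖b i‖ ^ 2) := by
    rw [Finset.sum_sub_distrib, Finset.sum_const, Finset.card_univ, Fintype.card_fin]
    norm_num
  rw [s4] at s3
  norm_num at s1 s2 s3 m1 m2 c1 c2
  linarith

end Pool.Agent.TE25
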