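import Pool.Agent.TE25.TenB
import Pool.Agent.TE25.TenD
import Pool.Agent.TE25.Lobes
import Pool.Agent.TE25.TwoLobe

/-!
# TE25/TenE: ten outer disks and two inner disks do not cover

`aj = pt hj αj` with `hj = ‖aj‖` (`exists_pt`). `ten_big` (for `T` and `T.symm`): `hj ≤ 0.76`. `ten_small`: `hj > 0.05`. `ten_k`: the hypotheses of `lobes`; the
lifts: `pt hj αj' = pt hj αj` (`pt_add_two_pi`). `T.c64`: `h1 + h2 ≤ 1.5`. `two_lobe`: `cov1`: the point `x = bp h1 α1' θ` (`θV ≤ θ ≤ θU`) has norm `≤ 1.76 ≤ R`, distance 1 from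
`a1` (`bp_norm_sub`) and distance `≥ 1` from `a2` (`bp_in_iff` with `L.l1`), so `T.cov`. `cov2` in the same way (`L.l2`).
-/

set_option autoImplicit false

namespace Pool.Agent.TE25

open Real Pool.Agent.TD25

private theorem ten' {R h1 α1 h2 α2 : ℝ} {b : Fin 10 → ℂ} (p1 : 0 ≤ h1) (p2 : 0 ≤ h2)
    (T : Ten R b (pt h1 α1) (pt h2 α2)) : False := by
  have hR := T.hR
  have hR1 := hR.1
  have q2 : h2 ≤ 0.76 := by
    by_contra hc
    push Not at hc
    exact ten_big T p1 (by rw [norm_pt p2]; exact hc)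
  have q1 : h1 ≤ 0.76 := by
    by_contra hc
    push Not at hc
    exact ten_big T.symm p2 (by rw [norm_pt p1]; exact hc)
  have r1 : 0.05 ≤ h1 := by
    by_contra hc
    push Not at hc
    exact ten_small T p1 hc.le
  have r2 : 0.05 ≤ h2 := by
    by_contra hc
    push Not at hc
    exact ten_small T.symm p2 hc.le
  have l1 : h1 < 1 := by linarith
  have l2 : h2 < 1 := by linarith
  have k1 := ten_k T r1 q1
  have k2 := ten_k T.symm r2 q2
  obtain ⟨α1', α2', θV, θU, m1, m2, e1, e2, L⟩ := lobes p1 l1 p2 l2 k1 k2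
  have f1 : pt h1 α1' = pt h1 α1 := by rw [e1, pt_add_two_pi]
  have f2 : pt h2 α2' = pt h2 α2 := by rw [e2, pt_add_two_pi]
  have hs : h1 + h2 ≤ 1.5 := by
    rcases T.c64 with h | h
    · rw [norm_pt p1] at h
      linarith
    · rw [norm_pt p2] at h
      linarith
  refine two_lobe hR r1 q1 r2 q2 hs L b (fun i => (T.hb1 i).le) T.hb2 T.sum ?_ ?_
  · intro θ a1 a2
    have hn : ‖bp h1 α1' θ‖ ≤ R := by
      rw [norm_bp p1 l1]
      have := rd_le p1 l1 (θ - α1')
      linarith
    rcases T.cov _ hn with h | h | h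
    · exact h
    · exfalso
      rw [← f1, bp_norm_sub p1 l1] at h
      exact lt_irrefl _ h
    · exfalso
      rw [← f2] at h
      have h3 := (bp_in_iff p2 l2 (rd_pos p1 l1).le).1 h
      have h4 := L.l1 θ a1 a2
      linarith
  · intro θ a1 a2
    have hn : ‖bp h2 α2' θ‖ ≤ R := by
      rw [norm_bp p2 l2]
      have := rd_le p2 l2 (θ - α2')
      linarith
    rcases T.cov _ hn with h | h | h
    · exact h
    · exfalso
      rw [← f1] at h
      have h3 := (bp_in_iff p1 l1 (rd_pos p2 l2).le).1 h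
      have h4 := L.l2 θ a1 a2
      linarith
    · exfalso
      rw [← f2, bp_norm_sub p2 l2] at h
      exact lt_irrefl _ h

theorem ten {R : ℝ} {b : Fin 10 → ℂ} {a1 a2 : ℂ} (T : Ten R b a1 a2) : False := by
  obtain ⟨α1, hα1⟩ := exists_pt a1
  obtain ⟨α2, hα2⟩ := exists_pt a2
  have T' := T
  rw [hα1, hα2] at T'
  exact ten' (norm_nonneg _) (norm_nonneg _) T'

end Pool.Agent.TE25
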