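import Pool.Agent.TE25.TenA
import Pool.Agent.TE25.OneLobe
import Pool.Agent.TE25.NumSL

/-!
# TE25/TenSL: contradiction from the mass of one inner circle

`ten_sl`: `T.circ` and `arc_lt` give the hypothesis `cov` of `one_lobe`; so `2π gb h - 2 MM h τ (cos s) ≤ 3.74 - ∑ fi ≤ 3.74 - π` (`T.sum`), contradiction to `num`.
`ten_small`: `‖a2 - pt h α‖ ≤ 2` (`T.dist`), `polar2`, `numSb` with `|s|` (`cos |s| = cos s`), `ten_sl`.
-/

set_option autoImplicit false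

namespace Pool.Agent.TE25

open Real Pool.Agent.TD25

theorem ten_sl {R : ℝ} {b : Fin 10 → ℂ} {a2 : ℂ} {h α s τ : ℝ} (T : Ten R b (pt h α) a2) (h0 : 0 ≤ h)
    (h1 : h ≤ 0.76) (t0 : 0 ≤ τ) (t1 : τ ≤ π / 2) (ha : a2 = pt h α + pt (2 * cos τ) (α + s))
    (num : 3.741 - π ≤ 2 * π * gb h - 2 * MM h τ (cos s)) : False := by
  have key := one_lobe T.hR h0 h1 b (fun i => (T.hb1 i).le) (s := s) t0 t1 (α := α) fun σ => by
    rcases T.circ h0 σ with h | h
    · exact Or.inl h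
    · exact Or.inr (arc_lt t0 t1 ha h)
  have h2 := T.sum
  rw [Finset.sum_sub_distrib] at key
  simp only [Finset.sum_const, Finset.card_univ, Fintype.card_fin, nsmul_eq_mul] at key
  push_cast at key
  linarith

theorem ten_small {R : ℝ} {b : Fin 10 → ℂ} {a2 : ℂ} {h α : ℝ} (T : Ten R b (pt h α) a2) (h0 : 0 ≤ h)
    (h1 : h ≤ 0.05) : False := by
  have hd : ‖a2 - pt h α‖ ≤ 2 := by
    rw [norm_sub_rev]
    exact T.dist.le
  obtain ⟨s, τ, s0, s1, t0, t1, ha, -⟩ := polar2 hd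
  have hn := numSb h0 h1 t0 t1 (abs_nonneg s) (abs_le.2 ⟨s0, s1⟩)
  rw [cos_abs] at hn
  exact ten_sl T h0 (by linarith) t0 t1 ha hn

end Pool.Agent.TE25
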